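import Mathlib
import Pool.Agent.W484.CH.Fin
import Pool.Agent.W484.CH.Conj

/-!
# Dual systems of cycles
-/

set_option autoImplicit false
set_option linter.unusedSectionVars false

open CategoryTheory AlgebraicGeometry

universe u v w

namespace Pool.Agent.N876.CG

open Module Polynomial Pool.Agent.H914 Pool.Agent.H914.VarClass Pool.Agent.H914.VarClass.Obj
  Pool.Agent.W492.BB Pool.Agent.W550.Corr Pool.Agent.W484.TB Pool.Agent.W484.CH

variable {k : Type u} [Field k] {𝒱 : VarClass k} {C : TheoryData.{u, v, 0} 𝒱 ℚ} {K : Type w}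
  [Field K] [CharZero K] {H : WeilTheoryData.{u, v, w} C K} [hC : IsChow C] [hH : IsWeil H]
  {A Z X Y : 𝒱.Obj}

variable (H) in
/-- The span of the classes of cycles of codimension `n`. -/
def AK (A : 𝒱.Obj) (n : ℕ) : Submodule K (H.A A) :=
  Submodule.span K {c | ∃ D ∈ C.gr A n, c = H.cl D}

variable (H) in
/-- The span of the classes of cycles. -/
def AT (A : 𝒱.Obj) : Submodule K (H.A A) :=
  Submodule.span K {c | ∃ (n : ℕ) (D : C.A A), C.Deg n D ∧ c = H.cl D}

omit [CharZero K] hC hH in
theorem AK_le (n : ℕ) : AK H A n ≤ AT H A :=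
  Submodule.span_mono fun _ ⟨D, hD, h⟩ => ⟨n, D, hD, h⟩

/-- the intersection pairing on the algebraic classes is not degenerate -/
def Nondeg (H : WeilTheoryData.{u, v, w} C K) (A : 𝒱.Obj) : Prop :=
  ∀ n ≤ A.dim, ∀ c ∈ AK H A n, (∀ c' ∈ AK H A (A.dim - n), H.tr A (c * c') = 0) → c = 0

variable (hS : IsStandard H)

include hS in
/-- The dual system in one codimension. -/
theorem exists_dual_one (hnd : Nondeg H A) (Z : 𝒱.Obj) {n : ℕ} (hn : n ≤ A.dim) :
    ∃ (m : ℕ) (D E : Fin m → C.A A), (∀ t, D t ∈ C.gr A n) ∧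
      (∀ t, E t ∈ C.gr A (A.dim - n : ℕ)) ∧
      (∀ t u, C.push (snd A Z) (C.pull (fst A Z) (D t * E u)) = if t = u then 1 else 0) ∧
      AK H A n ≤ Submodule.span K (Set.range fun t => H.cl (D t)) := by
  classical
  have := hS.finite A
  obtain ⟨deg, hdeg⟩ := exists_deg hS A Z
  -- a basis of classes
  obtain ⟨S, hS1, hS2, hS3⟩ := exists_linearIndependent K {c | ∃ D ∈ C.gr A n, c = H.cl D}
  have hfin : S.Finite := hS3.setFinite
  have hft := hfin.fintype
  let e := Fintype.equivFin S
  have hD : ∀ t : Fin (Fintype.card S), ∃ D ∈ C.gr A n, (e.symm t : H.A A) = H.cl D :=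
    fun t => hS1 (e.symm t).2
  choose D hDg hDcl using hD
  have hli : LinearIndependent K (fun t => H.cl (D t)) := by
    have h2 : (fun t => H.cl (D t)) = (fun x : S => (x : H.A A)) ∘ e.symm := by
      funext t
      exact (hDcl t).symm
    rw [h2]
    exact hS3.comp _ e.symm.injective
  have hspan : AK H A n ≤ Submodule.span K (Set.range fun t => H.cl (D t)) := by
    unfold AK
    rw [← hS2]
    refine Submodule.span_mono ?_
    intro x hx
    refine ⟨e ⟨x, hx⟩, ?_⟩
    beta_reduce
    rw [← hDcl, Equiv.symm_apply_apply]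
  -- the pairing
  let 𝒮 : Submodule ℚ (C.A A) := C.gr A (A.dim - n : ℕ)
  let ψ : 𝒮 →ₗ[ℚ] (Fin (Fintype.card S) → ℚ) :=
    LinearMap.pi fun t => deg ∘ₗ LinearMap.mulLeft ℚ (D t) ∘ₗ 𝒮.subtype
  have hψ : ∀ E t, ψ E t = deg (D t * E) := fun _ _ => rfl
  have hmem : ∀ t (E : 𝒮), D t * E ∈ C.gr A A.dim := by
    intro t E
    have h2 := C.mul_mem (hDg t) E.2
    rwa [show (n : ℤ) + ((A.dim - n : ℕ) : ℤ) = A.dim by omega] at h2
  have hsurj : LinearMap.range ψ = ⊤ := by
    by_contra hne
    obtain ⟨f, hf0, hf⟩ := Submodule.exists_le_ker_of_lt_top _ (lt_top_iff_ne_top.2 hne)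
    apply hf0
    -- the class
    set c : H.A A := ∑ t, ((f (Pi.single t 1) : ℚ) : K) • H.cl (D t) with hc
    set z : C.A A := ∑ t, f (Pi.single t 1) • D t with hz
    have hcz : c = H.cl z := by
      rw [hc, hz, map_sum]
      exact Finset.sum_congr rfl fun t _ => (cl_smul _ _).symm
    have hcm : c ∈ AK H A n :=
      Submodule.sum_mem _ fun t _ => Submodule.smul_mem _ _ (Submodule.subset_span
        ⟨D t, hDg t, rfl⟩)
    have hc0 : c = 0 := by
      refine hnd n hn c hcm ?_
      intro c' hc'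
      unfold AK at hc'
      induction hc' using Submodule.span_induction with
      | mem c' hc' =>
        obtain ⟨E, hE, rfl⟩ := hc'
        apply tr_eq_zero_of_push Z
        rw [hcz, ← map_mul, ← H.cl_pull, ← H.cl_push]
        have h2 : C.push (snd A Z) (C.pull (fst A Z) (z * E)) = 0 := by
          have h3 : z * E ∈ C.gr A A.dim := by
            rw [hz, Finset.sum_mul]
            refine Submodule.sum_mem _ fun t _ => ?_
            rw [smul_mul_assoc]
            exact Submodule.smul_mem _ _ (hmem t ⟨E, hE⟩)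
          rw [hdeg _ h3]
          have h4 : f (ψ ⟨E, hE⟩) = 0 := hf ⟨_, rfl⟩
          have h5 : deg (z * E) = f (ψ ⟨E, hE⟩) := by
            have h6 : ψ ⟨E, hE⟩ = ∑ t, deg (D t * E) • Pi.single (M := fun _ => ℚ) t 1 := by
              funext t
              rw [hψ, Finset.sum_apply]
              simp [Pi.single_apply]
            rw [h6, map_sum, hz, Finset.sum_mul, map_sum]
            refine Finset.sum_congr rfl fun t _ => ?_
            rw [smul_mul_assoc, map_smul, map_smul, smul_eq_mul, smul_eq_mul, mul_comm]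
          rw [h5, h4, zero_smul]
        rw [h2, map_zero]
      | zero => rw [mul_zero, map_zero]
      | add x y _ _ hx hy => rw [mul_add, map_add, hx, hy, add_zero]
      | smul a x _ hx => rw [mul_smul_comm, map_smul, hx, smul_zero]
    have h2 := Fintype.linearIndependent_iff.1 hli (fun t => ((f (Pi.single t 1) : ℚ) : K))
      (by rw [← hc, hc0])
    ext t
    have h3 := h2 t
    have h4 : f (Pi.single t 1) = 0 := by exact_mod_cast h3
    simpa using h4
  have hE : ∀ u, ∃ E : 𝒮, ψ E = Pi.single u 1 := by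
    intro u
    have h2 : (Pi.single u 1 : Fin (Fintype.card S) → ℚ) ∈ LinearMap.range ψ := by
      rw [hsurj]
      exact Submodule.mem_top
    exact h2
  choose E hE using hE
  refine ⟨Fintype.card S, D, fun u => E u, hDg, fun u => (E u).2, fun t u => ?_, hspan⟩
  rw [hdeg _ (hmem t (E u)), ← hψ, hE, Pi.single_apply]
  split_ifs
  · rw [one_smul]
  · rw [zero_smul]

include hS in
/-- **The dual system.** -/
theorem exists_dual (hnd : Nondeg H A) (Z : 𝒱.Obj) :
    ∃ (J : Type) (_ : Fintype J) (deg : J → ℕ) (D E : J → C.A A), IsDual A Z deg D E ∧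
    ∀ n, AK H A n ≤ Submodule.span K {c | ∃ j, deg j = n ∧ c = H.cl (D j)} := by
  classical
  choose m D E hD hE hDE hspan using fun n : Fin (A.dim + 1) =>
    exists_dual_one hS hnd Z (n := n) (by omega)
  refine ⟨Σ n : Fin (A.dim + 1), Fin (m n), inferInstance, fun j => j.1, fun j => D j.1 j.2,
    fun j => E j.1 j.2, ⟨fun j => by omega, fun j => hD j.1 j.2, fun j => ?_,
    fun j => ?_, fun i j hij => ?_⟩, fun n => ?_⟩
  · have h2 := hE j.1 j.2
    have h3 : ((A.dim - (j.1 : ℕ) : ℕ) : ℤ) = (A.dim : ℤ) - (j.1 : ℕ) := by omega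
    rw [h3] at h2
    exact h2
  · rw [hDE, if_pos rfl]
  · have hDi := hD i.1 i.2
    by_cases h2 : i.1 = j.1
    · obtain ⟨n, t⟩ := i
      obtain ⟨n', u⟩ := j
      dsimp only at h2
      subst h2
      rw [hDE, if_neg]
      intro h3
      dsimp only at h3
      subst h3
      exact hij rfl
    · have h3 := C.mul_mem hDi (hE j.1 j.2)
      rcases lt_or_gt_of_ne h2 with h4 | h4
      · have h5 := C.push_mem (snd A Z) (C.pull_mem (fst A Z) h3)
        rw [C.gr_neg _ _ (by
          rw [Obj.dim_prod]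
          push_cast
          have : (i.1 : ℕ) < (j.1 : ℕ) := h4
          omega)] at h5
        exact (Submodule.mem_bot _).1 h5
      · rw [hS.chow_top _ _ (by
          have : (j.1 : ℕ) < (i.1 : ℕ) := h4
          omega)] at h3
        rw [(Submodule.mem_bot _).1 h3, map_zero, map_zero]
  · rcases Nat.lt_or_ge A.dim n with h2 | h2
    · have h3 : AK H A n ≤ ⊥ := by
        refine Submodule.span_le.2 ?_
        rintro _ ⟨D', hD', rfl⟩
        rw [hS.chow_top _ _ (by exact_mod_cast h2)] at hD'
        rw [(Submodule.mem_bot _).1 hD', map_zero]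
        exact Submodule.zero_mem _
      exact h3.trans bot_le
    · refine (hspan ⟨n, by omega⟩).trans (Submodule.span_mono ?_)
      rintro _ ⟨t, rfl⟩
      exact ⟨⟨⟨n, by omega⟩, t⟩, rfl, rfl⟩

end Pool.Agent.N876.CG
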