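import Mathlib
import Pool.Agent.N876.CG.Dual
import Pool.Agent.N876.FL.Lin

/-!
# The intersection pairing on the algebraic classes is nondegenerate
-/

set_option autoImplicit false
set_option linter.unusedSectionVars false

open CategoryTheory AlgebraicGeometry

universe u v w

namespace Pool.Agent.N876.CG

open Module Polynomial Pool.Agent.H914 Pool.Agent.H914.VarClass Pool.Agent.H914.VarClass.Obj
  Pool.Agent.W492.BB Pool.Agent.W550.Corr Pool.Agent.W484.TB Pool.Agent.W484.CH

variable {k : Type u} [Field k] {𝒱 : VarClass k} {C : TheoryData.{u, v, 0} 𝒱 ℚ} {K : Type w}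
  [Field K] [CharZero K] {H : WeilTheoryData.{u, v, w} C K} [hC : IsChow C] [hH : IsWeil H]
  {A Z X Y : 𝒱.Obj} {π : A ⟶ A} {Q : ℕ}

theorem AK_eigen (hπ : IsFrobenius C π Q) {n : ℕ} {c : H.A A}
    (hc : c ∈ AK H A n) : H.pull π c = (Q : K) ^ n • c := by
  unfold AK at hc
  induction hc using Submodule.span_induction with
  | mem c hc =>
    obtain ⟨D, hD, rfl⟩ := hc
    have h1 : C.pull π D = (Q : ℚ) ^ n • D := hπ.chow n D hD
    rw [← H.cl_pull, h1, cl_smul]
    push_cast
    rfl
  | zero => rw [map_zero, smul_zero]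
  | add x y _ _ hx hy => rw [map_add, hx, hy, smul_add]
  | smul a x _ hx => rw [map_smul, hx, smul_comm]

theorem AT_stable (hπ : IsFrobenius C π Q) : ∀ c ∈ AT H A, frob H π c ∈ AT H A := by
  intro c hc
  unfold AT at hc
  induction hc using Submodule.span_induction with
  | mem c hc =>
    obtain ⟨n, D, hD, rfl⟩ := hc
    have h1 : frob H π (H.cl D) = (Q : K) ^ n • H.cl D :=
      AK_eigen hπ (Submodule.subset_span ⟨D, hD, rfl⟩)
    rw [h1]
    exact Submodule.smul_mem _ _ (Submodule.subset_span ⟨n, D, hD, rfl⟩)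
  | zero => rw [map_zero]; exact Submodule.zero_mem _
  | add x y _ _ hx hy => rw [map_add]; exact Submodule.add_mem _ hx hy
  | smul a x _ hx => rw [map_smul]; exact Submodule.smul_mem _ _ hx

/-- the cohomology is generated by the classes of cycles and a subspace on which the Frobenius has
eigenvalues in `S` -/
structure Cg (H : WeilTheoryData.{u, v, w} C K) {A : 𝒱.Obj} (π : A ⟶ A) (S : Set K) : Prop where
  ex : ∃ (T : Submodule K (H.A A)) (hT : ∀ t ∈ T, frob H π t ∈ T), AT H A ⊔ T = ⊤ ∧
    ∀ α, Module.End.HasEigenvalue ((frob H π).restrict hT) α → α ∈ S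

omit [CharZero K] hC hH in
theorem Cg.mono {S S' : Set K} (h : Cg H π S) (hS : S ⊆ S') : Cg H π S' := by
  obtain ⟨T, hT, h1, h2⟩ := h.ex
  exact ⟨T, hT, h1, fun α hα => hS (h2 α hα)⟩

/-- **the pairing is nondegenerate** -/
theorem nondeg_of (hfin : Module.Finite K (H.A A)) (hπ : IsFrobenius C π Q) (hQ : 1 < Q)
    {S : Set K} (hcv : Cg H π S) (hS : ∀ α ∈ S, ∀ w : ℕ, α ≠ (Q : K) ^ w) : Nondeg H A := by
  obtain ⟨T, hT, hPT, hTS⟩ := hcv.ex
  intro n hn c hc h
  have hQK : (Q : K) ≠ 0 := by
    have : Q ≠ 0 := by omega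
    exact_mod_cast this
  apply H.nondeg
  intro y
  have hy : y ∈ AT H A ⊔ T := by rw [hPT]; trivial
  obtain ⟨a, ha, t, ht, rfl⟩ := Submodule.mem_sup.1 hy
  change H.tr A (c * (a + t)) = 0
  rw [mul_add, map_add]
  have h1 : H.tr A (c * a) = 0 := by
    unfold AT at ha
    clear hy
    induction ha using Submodule.span_induction with
    | mem a ha =>
      obtain ⟨m, D, hD, rfl⟩ := ha
      have hDm : H.cl D ∈ AK H A m := Submodule.subset_span ⟨D, hD, rfl⟩
      by_cases hm : m = A.dim - n
      · subst hm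
        exact h _ hDm
      · have h2 := tr_frob hπ (c * H.cl D)
        rw [map_mul, AK_eigen hπ hc, AK_eigen hπ hDm, smul_mul_smul_comm, map_smul,
          smul_eq_mul] at h2
        have h3 : ((Q : K) ^ n * (Q : K) ^ m - (Q : K) ^ A.dim) * H.tr A (c * H.cl D) = 0 := by
          rw [sub_mul, h2, sub_self]
        rcases mul_eq_zero.1 h3 with h4 | h4
        · exfalso
          apply hm
          have h5 : ((Q ^ (n + m) : ℕ) : K) = ((Q ^ A.dim : ℕ) : K) := by
            push_cast
            rw [pow_add]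
            exact sub_eq_zero.1 h4
          have h6 := Nat.pow_right_injective hQ (Nat.cast_injective h5)
          omega
        · exact h4
    | zero => rw [mul_zero, map_zero]
    | add x y _ _ hx hy => rw [mul_add, map_add, hx, hy, add_zero]
    | smul r x _ hx => rw [mul_smul_comm, map_smul, hx, smul_zero]
  have h2 : H.tr A (c * t) = 0 := by
    have h3 : ¬ Module.End.HasEigenvalue ((frob H π).restrict hT) ((Q : K) ^ (A.dim - n)) :=
      fun h0 => hS _ (hTS _ h0) _ rfl
    have h4 : Function.Injective ((frob H π).restrict hT - ((Q : K) ^ (A.dim - n)) • (1 : Module.End K T)) := by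
      rw [← LinearMap.ker_eq_bot]
      have h5 : Module.End.eigenspace ((frob H π).restrict hT) ((Q : K) ^ (A.dim - n)) = ⊥ := by
        by_contra h6
        exact h3 h6
      rw [Module.End.eigenspace_def] at h5
      exact h5
    have hfT : Module.Finite K T := inferInstance
    obtain ⟨s, hs⟩ := LinearMap.injective_iff_surjective.1 h4 ⟨t, ht⟩
    have h5 : frob H π s.1 - (Q : K) ^ (A.dim - n) • s.1 = t := congrArg Subtype.val hs
    rw [← h5, mul_sub, map_sub, mul_smul_comm, map_smul, smul_eq_mul, sub_eq_zero]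
    have h6 := tr_frob hπ (c * s.1)
    rw [map_mul, AK_eigen hπ hc, smul_mul_assoc, map_smul, smul_eq_mul] at h6
    have h7 : (Q : K) ^ A.dim = (Q : K) ^ n * (Q : K) ^ (A.dim - n) := by
      rw [← pow_add]
      congr 1
      omega
    rw [h7, mul_assoc] at h6
    exact mul_left_cancel₀ (pow_ne_zero _ hQK) h6
  rw [h1, h2, add_zero]

end Pool.Agent.N876.CG
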