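import Mathlib
import Pool.Agent.N876.CG.Nd

/-!
# The Künneth formula as an isomorphism; generalized eigenvectors on tensor products
-/

set_option autoImplicit false
set_option linter.unusedSectionVars false

open CategoryTheory AlgebraicGeometry
open scoped TensorProduct

universe u

namespace Pool.Agent.N876.CG

open Module Polynomial Pool.Agent.H914 Pool.Agent.H914.VarClass Pool.Agent.H914.VarClass.Obj
  Pool.Agent.W492.BB Pool.Agent.W550.Corr Pool.Agent.W484.TB Pool.Agent.W484.CH

section lin

variable {K : Type} [Field K] [IsAlgClosed K] {A B : Type} [AddCommGroup A] [Module K A]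
  [FiniteDimensional K A] [AddCommGroup B] [Module K B] [FiniteDimensional K B]

/-- generalized eigenvectors without components in the complement -/
theorem mem_of_gen {F : Module.End K A} {P T : Submodule K A} (hP : ∀ x ∈ P, F x ∈ P)
    (hT : ∀ x ∈ T, F x ∈ T) (hPT : P ⊔ T = ⊤) {G : Module.End K B} {m : ℕ} {μ : K} (hμ : μ ≠ 0)
    (hres : ∀ α β, Module.End.HasEigenvalue (F.restrict hT) α → G.HasEigenvalue β → α * β ≠ μ)
    {u : A ⊗[K] B} (hu : Pool.Agent.W484.CH.op (TensorProduct.map F G) μ m u = 0) :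
    u ∈ LinearMap.range (P.subtype.rTensor B) := by
  set F' := P.mapQ P F hP with hF'
  have h0 : ∀ (x : A ⊗[K] B), (P.mkQ.rTensor B) ((TensorProduct.map F G) x) =
      (TensorProduct.map F' G) ((P.mkQ.rTensor B) x) := by
    intro x
    induction x using TensorProduct.induction_on with
    | zero => simp only [map_zero]
    | tmul a b =>
      rw [TensorProduct.map_tmul, LinearMap.rTensor_tmul, LinearMap.rTensor_tmul,
        TensorProduct.map_tmul]
      rfl
    | add x y hx hy => rw [map_add, map_add, map_add, map_add, hx, hy]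
  have h1 : ∀ (m : ℕ) (x : A ⊗[K] B), (P.mkQ.rTensor B) (Pool.Agent.W484.CH.op (TensorProduct.map F G) μ m x) =
      Pool.Agent.W484.CH.op (TensorProduct.map F' G) μ m ((P.mkQ.rTensor B) x) := by
    intro m
    induction m with
    | zero => intro x; rfl
    | succ m ih =>
      intro x
      unfold Pool.Agent.W484.CH.op at ih ⊢
      rw [pow_succ, Module.End.mul_apply, ih, pow_succ, Module.End.mul_apply]
      congr 1
      rw [LinearMap.sub_apply, map_sub, h0, LinearMap.sub_apply, LinearMap.smul_apply,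
        LinearMap.smul_apply, map_smul]
      rfl
  have h2 : (P.mkQ.rTensor B) u = 0 := by
    by_contra hne
    have h3 := congrArg (P.mkQ.rTensor B) hu
    rw [h1, map_zero] at h3
    obtain ⟨-, v, hv0, hv⟩ := exists_eigen (TensorProduct.map F' G) 1 μ hμ m _ hne (by
      rw [one_smul]
      exact h3)
    rw [div_one] at hv
    obtain ⟨α, β, hα, hβ, hαβ⟩ := FL.eig_tensor (m := 1) hv0 (by rw [pow_one]; exact hv)
    rw [pow_one] at hαβ
    exact hres α β (FL.eig_quot hP hT hPT hα) hβ hαβ
  have h3 : Function.Exact P.subtype P.mkQ := LinearMap.exact_subtype_mkQ P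
  have h4 := rTensor_exact B h3 P.mkQ_surjective
  exact (h4 u).1 h2

omit [IsAlgClosed K] [FiniteDimensional K A] in
/-- the eigenvalues of an endomorphism of a space generated by two subspaces -/
theorem eig_sup {F : Module.End K A} {P T : Submodule K A} (hP : ∀ x ∈ P, F x ∈ P)
    (hT : ∀ x ∈ T, F x ∈ T) (hPT : P ⊔ T = ⊤) [FiniteDimensional K A] {α : K}
    (h : F.HasEigenvalue α) : Module.End.HasEigenvalue (F.restrict hP) α ∨
      Module.End.HasEigenvalue (F.restrict hT) α := by
  by_cases h1 : Module.End.HasEigenvalue (F.restrict hP) α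
  · exact Or.inl h1
  right
  apply FL.eig_quot hP hT hPT
  obtain ⟨v, hv⟩ := h.exists_hasEigenvector
  have hvP : v ∉ P := by
    intro hv'
    apply h1
    refine Module.End.hasEigenvalue_of_hasEigenvector (x := ⟨v, hv'⟩) ?_
    refine Module.End.hasEigenvector_iff.2 ⟨Module.End.mem_eigenspace_iff.2 ?_, ?_⟩
    · exact Subtype.ext hv.apply_eq_smul
    · exact fun h0 => hv.2 (congrArg Subtype.val h0)
  refine Module.End.hasEigenvalue_of_hasEigenvector (x := P.mkQ v) ?_
  refine Module.End.hasEigenvector_iff.2 ⟨Module.End.mem_eigenspace_iff.2 ?_, ?_⟩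
  · have h2 : P.mapQ P F hP (P.mkQ v) = P.mkQ (F v) := rfl
    rw [h2, hv.apply_eq_smul, map_smul]
  · intro h0
    exact hvP ((Submodule.Quotient.mk_eq_zero P).1 h0)

end lin

section geo

variable {k : Type u} [Field k] {𝒱 : VarClass k} {C : TheoryData.{u, 0, 0} 𝒱 ℚ} {K : Type}
  [Field K] [CharZero K] {H : WeilTheoryData.{u, 0, 0} C K} [hC : IsChow C] [hH : IsWeil H]
  {A Z X Y : 𝒱.Obj} {πA : A ⟶ A} {πZ : Z ⟶ Z} {Q : ℕ}

variable (H) in
/-- the exterior product -/
noncomputable def kt (A Z : 𝒱.Obj) : H.A A ⊗[K] H.A Z →ₗ[K] H.A (A.prod Z) :=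
  TensorProduct.lift (LinearMap.mk₂ K (fun a h => H.ext a h) (fun a a' h => ext_add_left a a' h)
    (fun c a h => by rw [ext_smul_left, ext_smul_right]) (fun a h h' => ext_add_right a h h')
    (fun c a h => ext_smul_right c a h))

theorem kt_tmul (a : H.A A) (h : H.A Z) : kt H A Z (a ⊗ₜ h) = H.ext a h := rfl

theorem kt_surjective (hS : IsStandard H) : Function.Surjective (kt H A Z) := by
  have := hS.finite A
  intro w
  obtain ⟨h, rfl⟩ := kunneth_exists (Module.finBasis K (H.A A)) w
  refine ⟨∑ t, Module.finBasis K (H.A A) t ⊗ₜ h t, ?_⟩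
  rw [map_sum]
  rfl

theorem kt_injective (hS : IsStandard H) : Function.Injective (kt H A Z) := by
  have := hS.finite A
  rw [injective_iff_map_eq_zero]
  intro u hu
  obtain ⟨c, rfl⟩ := TensorProduct.eq_repr_basis_left (Module.finBasis K (H.A A)) u
  have h1 : (c.sum fun i n => (Module.finBasis K (H.A A)) i ⊗ₜ[K] n) =
      ∑ t, (Module.finBasis K (H.A A)) t ⊗ₜ[K] c t := by
    rw [Finsupp.sum_fintype]
    intro i
    rw [TensorProduct.tmul_zero]
  rw [h1] at hu ⊢
  rw [map_sum] at hu
  have h2 := kunneth_unique hS (Module.finBasis K (H.A A)) (fun t => c t) hu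
  refine Finset.sum_eq_zero fun t _ => ?_
  rw [h2 t, TensorProduct.tmul_zero]

theorem kt_frob (u : H.A A ⊗[K] H.A Z) :
    frob H (prodMap πA πZ) (kt H A Z u) =
      kt H A Z (TensorProduct.map (frob H πA) (frob H πZ) u) := by
  induction u using TensorProduct.induction_on with
  | zero => simp only [map_zero]
  | tmul a b => exact pull_prodMap_ext πA πZ a b
  | add x y hx hy => simp only [map_add, hx, hy]

theorem kt_op (μ : K) (m : ℕ) (u : H.A A ⊗[K] H.A Z) :
    Pool.Agent.W484.CH.op (frob H (prodMap πA πZ)) μ m (kt H A Z u) =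
      kt H A Z (Pool.Agent.W484.CH.op (TensorProduct.map (frob H πA) (frob H πZ)) μ m u) := by
  induction m generalizing u with
  | zero => rfl
  | succ m ih =>
    unfold Pool.Agent.W484.CH.op at ih ⊢
    rw [pow_succ, Module.End.mul_apply, LinearMap.sub_apply, kt_frob, LinearMap.smul_apply,
      Module.End.one_apply, ← map_smul (kt H A Z), ← map_sub, ih, pow_succ, Module.End.mul_apply]
    rfl

variable (H) in
/-- the products of algebraic classes with arbitrary classes -/
noncomputable def mixA (A Z : 𝒱.Obj) : Submodule K (H.A (A.prod Z)) :=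
  Submodule.span K {c | ∃ (n : ℕ) (a : H.A A) (h : H.A Z), a ∈ AK H A n ∧ c = H.ext a h}

theorem kt_range (u : (AT H A : Submodule K (H.A A)) ⊗[K] H.A Z) :
    kt H A Z (((AT H A).subtype.rTensor (H.A Z)) u) ∈ mixA H A Z := by
  induction u using TensorProduct.induction_on with
  | zero => rw [map_zero, map_zero]; exact Submodule.zero_mem _
  | tmul a b =>
    obtain ⟨a, ha⟩ := a
    rw [LinearMap.rTensor_tmul]
    change H.ext a b ∈ mixA H A Z
    unfold AT at ha
    induction ha using Submodule.span_induction with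
    | mem a ha =>
      obtain ⟨n, D, hD, rfl⟩ := ha
      exact Submodule.subset_span ⟨n, H.cl D, b, Submodule.subset_span ⟨D, hD, rfl⟩, rfl⟩
    | zero => rw [TheoryData.ext, map_zero, zero_mul]; exact Submodule.zero_mem _
    | add x y _ _ hx hy => rw [ext_add_left]; exact Submodule.add_mem _ hx hy
    | smul r x _ hx => rw [ext_smul_left, ext_smul_right]; exact Submodule.smul_mem _ _ hx
  | add x y hx hy => rw [map_add, map_add]; exact Submodule.add_mem _ hx hy

variable [IsAlgClosed K]

/-- **Generalized eigenvectors lie in the mixed part.** -/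
theorem mem_mixA (hS : IsStandard H) (hπ : IsFrobenius C πA Q) (hQ : 1 < Q) {S : Set K}
    (hcv : Cg H πA S) (i : ℤ)
    (hres : ∀ α ∈ S, ∀ β, (frob H πZ).HasEigenvalue β → α * β ≠ (Q : K) ^ i) (m : ℕ)
    (w : H.A (A.prod Z)) (hw : Pool.Agent.W484.CH.op (frob H (prodMap πA πZ)) ((Q : K) ^ i) m w = 0) :
    w ∈ mixA H A Z := by
  have := hS.finite A
  have := hS.finite Z
  obtain ⟨T, hT, hPT, hTS⟩ := hcv.ex
  obtain ⟨u, rfl⟩ := kt_surjective hS w
  rw [kt_op] at hw
  have h1 := (injective_iff_map_eq_zero _).1 (kt_injective hS) _ hw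
  have hQK : (Q : K) ≠ 0 := by
    have : Q ≠ 0 := by omega
    exact_mod_cast this
  obtain ⟨u', rfl⟩ := mem_of_gen (AT_stable hπ) hT hPT (zpow_ne_zero i hQK)
    (fun α β hα hβ => hres α (hTS α hα) β hβ) h1
  exact kt_range u'

/-- the eigenvalues on the product -/
theorem eig_prodMap (hS : IsStandard H) {μ : K}
    (h : (frob H (prodMap πA πZ)).HasEigenvalue μ) :
    ∃ α β : K, (frob H πA).HasEigenvalue α ∧ (frob H πZ).HasEigenvalue β ∧ μ = α * β := by
  have := hS.finite A
  have := hS.finite Z
  obtain ⟨w, hw⟩ := h.exists_hasEigenvector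
  obtain ⟨u, rfl⟩ := kt_surjective hS w
  have hu0 : u ≠ 0 := by
    rintro rfl
    exact hw.2 (map_zero _)
  have h1 : (TensorProduct.map (frob H πA) (frob H πZ)) u = μ • u := by
    apply kt_injective hS
    rw [← kt_frob, map_smul]
    exact hw.apply_eq_smul
  obtain ⟨α, β, hα, hβ, hαβ⟩ := FL.eig_tensor (m := 1) hu0 (by rw [pow_one]; exact h1)
  exact ⟨α, β, hα, hβ, by rw [← hαβ, pow_one]⟩

/-- the eigenvalues on a factor -/
theorem eig_cg (hS : IsStandard H) (hπ : IsFrobenius C πA Q) {S : Set K}
    (hcv : Cg H πA S) {α : K} (h : (frob H πA).HasEigenvalue α) :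
    α ∈ S ∨ ∃ n : ℕ, α = (Q : K) ^ n := by
  have := hS.finite A
  obtain ⟨T, hT, hPT, hTS⟩ := hcv.ex
  rcases eig_sup (AT_stable hπ) hT hPT h with h1 | h1
  · right
    by_contra hno
    push Not at hno
    -- the Frobenius minus alpha is injective on the algebraic classes
    have h2 : ∀ x ∈ AT H A, ∃ y ∈ AT H A, frob H πA y - α • y = x := by
      intro x hx
      unfold AT at hx
      induction hx using Submodule.span_induction with
      | mem x hx =>
        obtain ⟨n, D, hD, rfl⟩ := hx
        have h3 : frob H πA (H.cl D) = (Q : K) ^ n • H.cl D :=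
          AK_eigen hπ (Submodule.subset_span ⟨D, hD, rfl⟩)
        have h4 : (Q : K) ^ n - α ≠ 0 := sub_ne_zero.2 (hno n).symm
        refine ⟨((Q : K) ^ n - α)⁻¹ • H.cl D, Submodule.smul_mem _ _
          (Submodule.subset_span ⟨n, D, hD, rfl⟩), ?_⟩
        rw [map_smul, h3, smul_comm α, ← smul_sub, ← sub_smul, smul_smul, inv_mul_cancel₀ h4,
          one_smul]
      | zero => exact ⟨0, Submodule.zero_mem _, by rw [map_zero, smul_zero, sub_zero]⟩
      | add x y _ _ hx hy =>
        obtain ⟨x', hx', h3⟩ := hx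
        obtain ⟨y', hy', h4⟩ := hy
        refine ⟨x' + y', Submodule.add_mem _ hx' hy', ?_⟩
        rw [map_add, smul_add, ← h3, ← h4]
        abel
      | smul r x _ hx =>
        obtain ⟨x', hx', h3⟩ := hx
        refine ⟨r • x', Submodule.smul_mem _ _ hx', ?_⟩
        rw [map_smul, smul_comm α, ← smul_sub, h3]
    have h5 : Function.Surjective ((frob H πA).restrict (AT_stable hπ) -
        α • (1 : Module.End K (AT H A : Submodule K (H.A A)))) := by
      rintro ⟨x, hx⟩
      obtain ⟨y, hy, hxy⟩ := h2 x hx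
      exact ⟨⟨y, hy⟩, Subtype.ext hxy⟩
    have h6 := LinearMap.injective_iff_surjective.2 h5
    apply h1
    show Module.End.eigenspace _ α = ⊥
    rw [Module.End.eigenspace_def, LinearMap.ker_eq_bot]
    exact h6
  · exact Or.inl (hTS α h1)

end geo

end Pool.Agent.N876.CG
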