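import Mathlib
import Pool.Agent.N876.CG.Kt
import Pool.Agent.N876.FL.Geo3
import Pool.Agent.Y154.BQ.Kun

/-!
# The Künneth formula for varieties without resonances
-/

set_option autoImplicit false
set_option linter.unusedSectionVars false

open CategoryTheory AlgebraicGeometry
open scoped TensorProduct

universe u

namespace Pool.Agent.N876.CG

open Module Polynomial Pool.Agent.H914 Pool.Agent.H914.VarClass Pool.Agent.H914.VarClass.Obj
  Pool.Agent.W492.BB Pool.Agent.W550.Corr Pool.Agent.W484.TB Pool.Agent.W484.CH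
  Pool.Agent.Y154.BQ

section geo

variable {k : Type u} [Field k] {𝒱 : VarClass k} {C : TheoryData.{u, 0, 0} 𝒱 ℚ} {K : Type}
  [Field K] [CharZero K] {H : WeilTheoryData.{u, 0, 0} C K} [hC : IsChow C] [hH : IsWeil H]
  {A Z X Y : 𝒱.Obj} {πA : A ⟶ A} {πZ : Z ⟶ Z} {Q : ℕ}

section dual

variable {J : Type} [Fintype J] {deg : J → ℕ} {D E : J → C.A A} (h : IsDual A Z deg D E)
  (hN : ∀ n, AK H A n ≤ Submodule.span K {c | ∃ j, deg j = n ∧ c = H.cl (D j)})

include h hN in
theorem act_proj_mixA {w : H.A (A.prod Z)} (hw : w ∈ mixA H A Z) :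
    H.act (H.cl (proj Z D E)) w = w := by
  unfold mixA at hw
  induction hw using Submodule.span_induction with
  | mem w hw =>
    obtain ⟨n, a, y, ha, rfl⟩ := hw
    have ha' := hN n ha
    clear ha
    induction ha' using Submodule.span_induction with
    | mem a ha =>
      obtain ⟨j, -, rfl⟩ := ha
      exact act_proj_ext h j y
    | zero => rw [TheoryData.ext, map_zero, zero_mul, H.act_map_zero]
    | add a a' _ _ ha ha' => rw [ext_add_left, act_map_add, ha, ha']
    | smul c a _ ha => rw [ext_smul_left, ext_smul_right, act_map_smul, ha]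
  | zero => rw [H.act_map_zero]
  | add w w' _ _ hw hw' => rw [act_map_add, hw, hw']
  | smul c w _ hw => rw [act_map_smul, hw]

end dual

variable [IsAlgClosed K]

/-- **The Künneth formula.** -/
theorem kun_step (hS : IsStandard H) (hπ : IsFrobenius C πA Q) (hQ : 1 < Q) {S : Set K}
    (hcv : Cg H πA S) (hSint : ∀ α ∈ S, IsIntegral ℚ α)
    (hZint : ∀ β, (frob H πZ).HasEigenvalue β → IsIntegral ℚ β)
    (hres1 : ∀ α ∈ S, ∀ w : ℕ, α ≠ (Q : K) ^ w)
    (hres : ∀ α ∈ S, ∀ β, (frob H πZ).HasEigenvalue β → ∀ e w : ℕ, α * β * (Q : K) ^ e ≠ (Q : K) ^ w)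
    (hnil : Nilpotence H (A.prod Z)) :
    ∃ (J : Type) (_ : Fintype J) (deg : J → ℕ) (D E : J → C.A A), IsDual A Z deg D E ∧
      (∀ n, AK H A n ≤ Submodule.span K {c | ∃ j, deg j = n ∧ c = H.cl (D j)}) ∧
      ∀ T : CorrData C, IsCorrTheory T → ActsAsPower T (prodMap πA πZ) Q →
        HasKunneth T A Z deg D := by
  have hfA := hS.finite A
  have hfX : Module.Finite K (H.A (A.prod Z)) := hS.finite _
  have hQK : (Q : K) ≠ 0 := by
    have : Q ≠ 0 := by omega
    exact_mod_cast this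
  obtain ⟨J, hJ, deg, D, E, hdual, hN⟩ := exists_dual hS (nondeg_of hfA hπ hQ hcv hres1) Z
  refine ⟨J, hJ, deg, D, E, hdual, hN, fun T hT hpow => ?_⟩
  refine hasKunneth_of hdual hT fun i m hm => ?_
  obtain ⟨P, hP, m', hPm⟩ := exists_poly (frob H (prodMap πA πZ)) ((Q : ℚ) ^ i) (by
    intro μ v hv0 hv
    have h1 : (frob H (prodMap πA πZ)).HasEigenvalue μ :=
      Module.End.hasEigenvalue_of_hasEigenvector (x := v)
        (Module.End.hasEigenvector_iff.2 ⟨Module.End.mem_eigenspace_iff.2 hv, hv0⟩)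
    obtain ⟨α, β, hα, hβ, rfl⟩ := eig_prodMap hS h1
    refine IsIntegral.mul ?_ (hZint β hβ)
    rcases eig_cg hS hπ hcv hα with h2 | ⟨n, rfl⟩
    · exact hSint α h2
    · exact (isIntegral_natCast (R := ℚ) (a := Q) (B := K)).pow n)
  refine kunneth_core hdual hT hpow hnil i P hP ?_ hm
  intro w
  apply act_proj_mixA hdual hN
  rw [act_cl_polyC]
  refine mem_mixA (πZ := πZ) hS hπ hQ hcv i ?_ m' _ ?_
  · intro α hα β hβ heq
    rcases Int.le_total 0 i with hi | hi
    · obtain ⟨n, rfl⟩ := Int.eq_ofNat_of_zero_le hi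
      refine hres α hα β hβ 0 n ?_
      rw [pow_zero, mul_one, heq]
      exact zpow_natCast _ _
    · obtain ⟨n, hn⟩ := Int.eq_ofNat_of_zero_le (neg_nonneg.2 hi)
      refine hres α hα β hβ n 0 ?_
      have h3 : i = -(n : ℤ) := by omega
      rw [heq, h3, pow_zero, zpow_neg, zpow_natCast, inv_mul_cancel₀ (pow_ne_zero _ hQK)]
  · have h2 := hPm w
    push_cast at h2 ⊢
    exact h2

end geo

end Pool.Agent.N876.CG
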