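import Mathlib
import Pool.Agent.N876.CG.Step

/-!
# Theories relative to a scheme: the Künneth formula
-/

set_option autoImplicit false
set_option linter.unusedSectionVars false

open CategoryTheory AlgebraicGeometry
open scoped TensorProduct

universe u

namespace Pool.Agent.N876.CG

open Module Polynomial Pool.Agent.H914 Pool.Agent.H914.VarClass Pool.Agent.H914.VarClass.Obj
  Pool.Agent.W492.BB Pool.Agent.W550.Corr Pool.Agent.W484.TB Pool.Agent.W484.CH

section corr

variable {k : Type u} [Field k] {𝒱 : VarClass k} {C : TheoryData.{u, 0, 0} 𝒱 ℚ} [hC : IsChow C]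
  {A Z X Y : 𝒱.Obj}

theorem extBy_eq (Z : 𝒱.Obj) (b : C.A A) :
    extBy C Z b = C.comp (C.cograph (snd A Z)) (C.mulCorr (C.pull (fst A Z) b)) := by
  have e1 : Obj.lift (𝟙 (A.prod Z)) (𝟙 (A.prod Z)) ≫ prodMap (snd A Z) (𝟙 (A.prod Z)) =
      Obj.lift (snd A Z) (𝟙 (A.prod Z)) := by
    apply prod_ext <;> simp
  rw [comp_cograph, TheoryData.mulCorr, ← C.push_comp, e1]
  rfl

theorem mulCorr_cograph (f : X ⟶ Y) (c : C.A Y) :
    C.comp (C.mulCorr c) (C.cograph f) = C.comp (C.cograph f) (C.mulCorr (C.pull f c)) := by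
  have e0 : prodMap (𝟙 Y) (𝟙 X) = 𝟙 (Y.prod X) := by
    apply prod_ext <;> simp
  have e1 : Obj.lift (𝟙 X) (𝟙 X) ≫ prodMap f (𝟙 X) = Obj.lift f (𝟙 X) := by
    apply prod_ext <;> simp
  rw [TheoryData.mulCorr, comp_span, e0, C.pull_id, C.push_id, comp_cograph, TheoryData.mulCorr,
    ← C.push_comp, e1, TheoryData.cograph, ← C.proj_right, ← C.pull_comp, lift_fst, one_mul]

variable {T : CorrData C} (hT : IsCorrTheory T)

include hT

/-- The Frobenius of the product and products with classes. -/
theorem extBy_cograph (πA : A ⟶ A) (πZ : Z ⟶ Z) (b : C.A A) (z : T.M Z) :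
    T.act (C.cograph (prodMap πA πZ)) (T.act (extBy C Z b) z) =
      T.act (extBy C Z (C.pull πA b)) (T.act (C.cograph πZ) z) := by
  rw [extBy_eq, extBy_eq, hT.act_comp, hT.act_comp, ← hT.act_comp (C.mulCorr _),
    mulCorr_cograph, hT.act_comp, ← hT.act_comp (C.cograph (snd A Z)), cograph_comp,
    ← C.pull_comp, prodMap_fst, prodMap_snd, C.pull_comp, ← cograph_comp, hT.act_comp]


theorem act_polyC' {π : X ⟶ X} (P : ℚ[X]) :
    T.act (polyC π P) = aeval (T.act (C.cograph π)) P := by
  have h1 : ∀ l : ℕ, T.act (C.cograph (Pool.Agent.W484.CH.iter π l)) = (T.act (C.cograph π)) ^ l := by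
    intro l
    induction l with
    | zero =>
      refine LinearMap.ext fun m => ?_
      rw [pow_zero, Module.End.one_apply]
      exact hT.act_id m
    | succ l ih =>
      refine LinearMap.ext fun m => ?_
      rw [Pool.Agent.W484.CH.iter, ← cograph_comp, hT.act_comp, ih, pow_succ, Module.End.mul_apply]
  rw [polyC, map_sum, aeval_eq_sum_range' (n := P.natDegree + 1) (by omega)]
  have h2 : ∀ l, T.act (P.coeff l • C.cograph (Pool.Agent.W484.CH.iter π l)) =
      P.coeff l • (T.act (C.cograph π)) ^ l := by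
    intro l
    rw [map_smul, h1]
  rw [Finset.sum_congr rfl fun l _ => h2 l]
  refine Finset.sum_subset ?_ ?_
  · intro l hl
    rw [Finset.mem_range]
    have := le_natDegree_of_mem_supp l hl
    omega
  · intro l _ hl
    rw [notMem_support_iff.1 hl, zero_smul]

variable {J : Type} [Fintype J] {deg : J → ℕ} {D E : J → C.A A}

/-- The Frobenius preserves the image of the projector. -/
theorem frob_ext {Q : ℕ} {πA : A ⟶ A} (hπA : IsFrobenius C πA Q) (πZ : Z ⟶ Z)
    (h : IsDual A Z deg D E) (j : J) (z : T.M Z) :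
    T.act (C.cograph (prodMap πA πZ)) (T.act (extBy C Z (D j)) z) =
      T.act (extBy C Z (D j)) ((Q : ℚ) ^ deg j • T.act (C.cograph πZ) z) := by
  have h1 : C.pull πA (D j) = (Q : ℚ) ^ deg j • D j := hπA.chow (deg j) (D j) (h.left j)
  rw [extBy_cograph hT, h1]
  have h2 : extBy C Z ((Q : ℚ) ^ deg j • D j) = (Q : ℚ) ^ deg j • extBy C Z (D j) := by
    rw [extBy, map_smul, map_smul]
    rfl
  rw [h2, map_smul, LinearMap.smul_apply, map_smul]

theorem pair_ext_sum (h : IsDual A Z deg D E) (j : J) (z : J → T.M Z) :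
    T.act (pairBy C Z (E j)) (∑ i, T.act (extBy C Z (D i)) (z i)) = z j := by
  classical
  rw [map_sum, Finset.sum_congr rfl fun i _ => act_pair_ext hT h i j (z i), Finset.sum_ite_eq',
    if_pos (Finset.mem_univ _)]

end corr

section geo

variable {k : Type u} [Field k] {𝒱 : VarClass k} {C : TheoryData.{u, 0, 0} 𝒱 ℚ} {K : Type}
  [Field K] [CharZero K] {H : WeilTheoryData.{u, 0, 0} C K} [hC : IsChow C] [hH : IsWeil H]
  {A Z X Y : 𝒱.Obj} {J : Type} [Fintype J] {deg : J → ℕ} {D E : J → C.A A}

/-- homologically trivial correspondences act as nilpotent operators -/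
def NilT (H : WeilTheoryData.{u, 0, 0} C K) (T : CorrData C) (X : 𝒱.Obj) : Prop :=
  ∀ Γ : C.A (X.prod X), C.Deg X.dim Γ → (∀ a : H.A X, H.act (H.cl Γ) a = 0) →
    ∃ n : ℕ, (T.act Γ) ^ n = 0

theorem powC_act {T : CorrData C} (hT : IsCorrTheory T) (Θ : C.A (X.prod X)) (l : ℕ) :
    T.act (powC C Θ l) = (T.act Θ) ^ l := by
  induction l with
  | zero =>
    refine LinearMap.ext fun y => ?_
    rw [pow_zero, Module.End.one_apply]
    exact hT.act_id y
  | succ l ih =>
    refine LinearMap.ext fun y => ?_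
    rw [powC, hT.act_comp, ih, pow_succ', Module.End.mul_apply]

theorem nilT_of {T : CorrData C} (hT : IsCorrTheory T) (hX : Nilpotence H X) : NilT H T X := by
  intro Γ h1 h2
  obtain ⟨n, hn⟩ := hX Γ h1 h2
  exact ⟨n, by rw [← powC_act hT, hn, map_zero]⟩

/-- **The core.** -/
theorem rel_core {Q : ℕ} {πA : A ⟶ A} (hπA : IsFrobenius C πA Q) (πZ : Z ⟶ Z)
    (h : IsDual A Z deg D E) {T : CorrData C}
    (hT : IsCorrTheory T) (hnil : NilT H T (A.prod Z)) (P R : ℚ[X]) (hPR : IsCoprime P R)
    (hkill : ∀ w : H.A (A.prod Z), H.act (H.cl (proj Z D E))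
      (H.act (H.cl (polyC (prodMap πA πZ) P)) w) =
      H.act (H.cl (polyC (prodMap πA πZ) P)) w) {m : T.M (A.prod Z)} {n : ℕ}
    (hm : aeval (T.act (C.cograph (prodMap πA πZ))) (R ^ n) m = 0) :
    m = ∑ j, T.act (extBy C Z (D j)) (T.act (pairBy C Z (E j)) m) := by
  set F : Module.End ℚ (T.M (A.prod Z)) := T.act (C.cograph (prodMap πA πZ)) with hF
  set p := proj Z D E with hp
  set Θ := C.comp (polyC (prodMap πA πZ) P) (dg C (A.prod Z) - p) with hΘ
  have hdg : C.Deg (A.prod Z).dim (dg C (A.prod Z)) := by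
    have h1 := C.push_mem (Obj.lift (𝟙 (A.prod Z)) (𝟙 (A.prod Z))) (C.one_mem (A.prod Z))
    have h2 : (0 : ℤ) + 1 * ((((A.prod Z).prod (A.prod Z)).dim : ℤ) - (A.prod Z).dim) =
        (A.prod Z).dim := by
      rw [Obj.dim_prod (A.prod Z)]
      push_cast
      ring
    rw [h2] at h1
    exact h1
  have hΘd : C.Deg (A.prod Z).dim Θ :=
    comp_mem (polyC_mem _ P) (Submodule.sub_mem _ hdg (proj_mem h))
  have hΘ0 : ∀ w : H.A (A.prod Z), H.act (H.cl Θ) w = 0 := by
    intro w
    rw [hΘ, act_cl_comp, map_sub, H.act_sub, act_cl_dg, hkill, sub_self]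
  obtain ⟨N, hN⟩ := hnil Θ hΘd hΘ0
  -- the operator `Θ`
  have hΘm : ∀ y : T.M (A.prod Z), T.act Θ y = aeval F P y - T.act p (aeval F P y) := by
    intro y
    rw [hΘ, hT.act_comp, act_polyC' hT, map_sub T.act, LinearMap.sub_apply]
    congr 1
    exact hT.act_id _
  -- `Θ` kills the image of the projector
  have hFP : ∀ z : J → T.M Z, ∃ z' : J → T.M Z,
      aeval F P (∑ j, T.act (extBy C Z (D j)) (z j)) = ∑ j, T.act (extBy C Z (D j)) (z' j) := by
    intro z
    have hpow : ∀ l : ℕ, (F ^ l) (∑ j, T.act (extBy C Z (D j)) (z j)) =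
        ∑ j, T.act (extBy C Z (D j)) (((((Q : ℚ) ^ deg j) • T.act (C.cograph πZ)) ^ l) (z j)) := by
      intro l
      induction l with
      | zero => simp only [pow_zero, Module.End.one_apply]
      | succ l ih =>
        rw [pow_succ', Module.End.mul_apply, ih, map_sum]
        refine Finset.sum_congr rfl fun j _ => ?_
        rw [pow_succ', Module.End.mul_apply, LinearMap.smul_apply]
        exact frob_ext hT hπA πZ h j _
    refine ⟨fun j => aeval (((Q : ℚ) ^ deg j) • T.act (C.cograph πZ)) P (z j), ?_⟩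
    rw [aeval_eq_sum_range, LinearMap.sum_apply]
    have h3 : ∀ l ∈ Finset.range (P.natDegree + 1),
        (P.coeff l • F ^ l) (∑ j, T.act (extBy C Z (D j)) (z j)) =
          ∑ j, T.act (extBy C Z (D j))
            (P.coeff l • ((((Q : ℚ) ^ deg j) • T.act (C.cograph πZ)) ^ l) (z j)) := by
      intro l _
      rw [LinearMap.smul_apply, hpow, Finset.smul_sum]
      exact Finset.sum_congr rfl fun j _ => (map_smul _ _ _).symm
    rw [Finset.sum_congr rfl h3, Finset.sum_comm]
    refine Finset.sum_congr rfl fun j _ => ?_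
    rw [← map_sum]
    beta_reduce
    rw [aeval_eq_sum_range, LinearMap.sum_apply]
    rfl
  have hpsum : ∀ z : J → T.M Z, T.act p (∑ j, T.act (extBy C Z (D j)) (z j)) =
      ∑ j, T.act (extBy C Z (D j)) (z j) := by
    intro z
    rw [act_proj hT]
    exact Finset.sum_congr rfl fun j _ => by rw [pair_ext_sum hT h]
  have hΘp : ∀ y : T.M (A.prod Z), T.act Θ (T.act p y) = 0 := by
    intro y
    obtain ⟨z', hz'⟩ := hFP fun j => T.act (pairBy C Z (E j)) y
    rw [hΘm, act_proj hT, hz', hpsum, sub_self]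
  have hPRn : IsCoprime P (R ^ n) := hPR.pow_right
  obtain ⟨a, b, hab⟩ := hPRn
  have hdiv : ∀ y, aeval F (R ^ n) y = 0 → aeval F P (aeval F a y) = y := by
    intro y hy
    have h5 := congrArg (fun S => aeval F S y) hab
    simp only [map_add, map_mul, map_one, LinearMap.add_apply, Module.End.mul_apply,
      Module.End.one_apply] at h5
    rw [hy, map_zero, add_zero] at h5
    rw [← Module.End.mul_apply, ← map_mul, mul_comm, map_mul, Module.End.mul_apply]
    exact h5
  have hker : ∀ (S : ℚ[X]) (y : T.M (A.prod Z)), aeval F (R ^ n) y = 0 →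
      aeval F (R ^ n) (aeval F S y) = 0 := by
    intro S y hy
    rw [← Module.End.mul_apply, ← map_mul, mul_comm, map_mul, Module.End.mul_apply, hy, map_zero]
  have hpow : ∀ (l : ℕ) (y : T.M (A.prod Z)), aeval F (R ^ n) y = 0 →
      ∃ y', y - T.act p y = ((T.act Θ) ^ l) y' := by
    intro l
    induction l with
    | zero =>
      intro y _
      exact ⟨_, by rw [pow_zero, Module.End.one_apply]⟩
    | succ l ih =>
      intro y hy
      obtain ⟨y', hy'⟩ := ih (aeval F a y) (hker a y hy)
      refine ⟨y', ?_⟩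
      rw [pow_succ', Module.End.mul_apply, ← hy', map_sub, hΘp, sub_zero, hΘm, hdiv y hy]
  obtain ⟨y', hy'⟩ := hpow N m hm
  rw [hN, LinearMap.zero_apply, sub_eq_zero, act_proj hT] at hy'
  exact hy'

variable [IsAlgClosed K] {πA : A ⟶ A} {πZ : Z ⟶ Z} {Q : ℕ}

/-- The polynomial which maps the cohomology to the mixed part. -/
theorem exists_kill (hS : IsStandard H) (hπ : IsFrobenius C πA Q) {S : Set K}
    (hcv : Cg H πA S) (hSint : ∀ α ∈ S, IsIntegral ℚ α)
    (hZint : ∀ β, (frob H πZ).HasEigenvalue β → IsIntegral ℚ β) (R : ℚ[X])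
    (hR : ∀ α ∈ S, ∀ β, (frob H πZ).HasEigenvalue β → aeval (α * β) R ≠ 0) :
    ∃ P : ℚ[X], IsCoprime P R ∧ ∀ w : H.A (A.prod Z),
      (aeval (frob H (prodMap πA πZ)) (P.map (algebraMap ℚ K))) w ∈ mixA H A Z := by
  classical
  have := hS.finite A
  have := hS.finite Z
  obtain ⟨T, hT, hPT, hTS⟩ := hcv.ex
  set F' := (AT H A).mapQ (AT H A) (frob H πA) (AT_stable hπ) with hF'
  set G : Module.End K ((H.A A ⧸ AT H A) ⊗[K] H.A Z) := TensorProduct.map F' (frob H πZ) with hG
  have hroot : ∀ μ ∈ G.charpoly.roots, ∃ α ∈ S, ∃ β, (frob H πZ).HasEigenvalue β ∧ μ = α * β := by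
    intro μ hμ
    rw [mem_roots G.charpoly_monic.ne_zero] at hμ
    obtain ⟨v, hv⟩ := ((Module.End.hasEigenvalue_iff_isRoot_charpoly G μ).2 hμ).exists_hasEigenvector
    obtain ⟨α, β, hα, hβ, hαβ⟩ := FL.eig_tensor (m := 1) hv.2 (by
      rw [pow_one]; exact hv.apply_eq_smul)
    exact ⟨α, hTS α (FL.eig_quot (AT_stable hπ) hT hPT hα), β, hβ, by rw [← hαβ, pow_one]⟩
  set P : ℚ[X] := ((G.charpoly.roots).map (fun μ => minpoly ℚ μ)).prod with hP
  refine ⟨P, ?_, fun w => ?_⟩
  · rw [hP]
    refine IsCoprime.symm ?_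
    have h1 : ∀ s : Multiset K, (∀ μ ∈ s, ∃ α ∈ S, ∃ β, (frob H πZ).HasEigenvalue β ∧ μ = α * β) →
        IsCoprime R ((s.map (fun μ => minpoly ℚ μ)).prod) := by
      intro s
      induction s using Multiset.induction_on with
      | empty => intro _; rw [Multiset.map_zero, Multiset.prod_zero]; exact isCoprime_one_right
      | cons μ s ih =>
        intro hs
        rw [Multiset.map_cons, Multiset.prod_cons]
        refine IsCoprime.mul_right ?_ (ih fun μ' hμ' => hs μ' (Multiset.mem_cons_of_mem hμ'))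
        obtain ⟨α, hα, β, hβ, rfl⟩ := hs μ (Multiset.mem_cons_self _ _)
        have hint : IsIntegral ℚ (α * β) := (hSint α hα).mul (hZint β hβ)
        refine IsCoprime.symm ?_
        rw [(minpoly.irreducible hint).coprime_iff_not_dvd]
        intro hdvd
        exact hR α hα β hβ (aeval_eq_zero_of_dvd_aeval_eq_zero hdvd (minpoly.aeval ℚ (α * β)))
    exact h1 _ hroot
  · obtain ⟨u, rfl⟩ := kt_surjective hS w
    -- the polynomial of the Frobenius on the tensor product
    have h1 : ∀ (S : K[X]) (u : H.A A ⊗[K] H.A Z), aeval (frob H (prodMap πA πZ)) S (kt H A Z u) =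
        kt H A Z (aeval (TensorProduct.map (frob H πA) (frob H πZ)) S u) := by
      intro S u
      have hpow : ∀ l : ℕ, ((frob H (prodMap πA πZ)) ^ l) (kt H A Z u) =
          kt H A Z (((TensorProduct.map (frob H πA) (frob H πZ)) ^ l) u) := by
        intro l
        induction l with
        | zero => rfl
        | succ l ih => rw [pow_succ', Module.End.mul_apply, ih, kt_frob, pow_succ',
            Module.End.mul_apply]
      rw [aeval_eq_sum_range, LinearMap.sum_apply, aeval_eq_sum_range, LinearMap.sum_apply,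
        map_sum]
      refine Finset.sum_congr rfl fun l _ => ?_
      rw [LinearMap.smul_apply, LinearMap.smul_apply, hpow, map_smul]
    have h2 : ∀ (S : K[X]) (u : H.A A ⊗[K] H.A Z), ((AT H A).mkQ.rTensor (H.A Z))
        (aeval (TensorProduct.map (frob H πA) (frob H πZ)) S u) =
        aeval G S (((AT H A).mkQ.rTensor (H.A Z)) u) := by
      intro S u
      have h0 : ∀ (x : H.A A ⊗[K] H.A Z), ((AT H A).mkQ.rTensor (H.A Z))
          ((TensorProduct.map (frob H πA) (frob H πZ)) x) =
          G (((AT H A).mkQ.rTensor (H.A Z)) x) := by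
        intro x
        induction x using TensorProduct.induction_on with
        | zero => simp only [map_zero]
        | tmul a b =>
          rw [hG, TensorProduct.map_tmul, LinearMap.rTensor_tmul, LinearMap.rTensor_tmul,
            TensorProduct.map_tmul]
          rfl
        | add x y hx hy => rw [map_add, map_add, map_add, map_add, hx, hy]
      have hpow : ∀ l : ℕ, ((AT H A).mkQ.rTensor (H.A Z))
          (((TensorProduct.map (frob H πA) (frob H πZ)) ^ l) u) =
          (G ^ l) (((AT H A).mkQ.rTensor (H.A Z)) u) := by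
        intro l
        induction l with
        | zero => rfl
        | succ l ih => rw [pow_succ', Module.End.mul_apply, h0, ih, pow_succ',
            Module.End.mul_apply]
      rw [aeval_eq_sum_range, LinearMap.sum_apply, aeval_eq_sum_range, LinearMap.sum_apply,
        map_sum]
      refine Finset.sum_congr rfl fun l _ => ?_
      rw [LinearMap.smul_apply, LinearMap.smul_apply, map_smul, hpow]
    have h3 : aeval G (P.map (algebraMap ℚ K)) = 0 := by
      have h4 : G.charpoly = (G.charpoly.roots.map (fun μ => X - Polynomial.C μ)).prod :=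
        (IsAlgClosed.splits G.charpoly).eq_prod_roots_of_monic G.charpoly_monic
      have h5 : G.charpoly ∣ P.map (algebraMap ℚ K) := by
        rw [h4, hP, Polynomial.map_multiset_prod, Multiset.map_map]
        refine Multiset.prod_dvd_prod_of_dvd _ _ fun μ hμ => ?_
        rw [Function.comp_apply, dvd_iff_isRoot, IsRoot.def, Polynomial.eval_map, ← aeval_def]
        exact minpoly.aeval ℚ μ
      obtain ⟨g, hg⟩ := h5
      rw [hg, map_mul, LinearMap.aeval_self_charpoly, zero_mul]
    have h4 : ((AT H A).mkQ.rTensor (H.A Z))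
        (aeval (TensorProduct.map (frob H πA) (frob H πZ)) (P.map (algebraMap ℚ K)) u) = 0 := by
      rw [h2, h3, LinearMap.zero_apply]
    have h5 : Function.Exact (AT H A).subtype (AT H A).mkQ := LinearMap.exact_subtype_mkQ _
    have h6 := rTensor_exact (H.A Z) h5 (AT H A).mkQ_surjective
    obtain ⟨u', hu'⟩ := (h6 _).1 h4
    rw [h1, ← hu']
    exact kt_range u'

end geo

end Pool.Agent.N876.CG
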