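import Mathlib
import Pool.Agent.N876.FL.NR

/-!
# The eigenvalues are algebraic
-/

set_option autoImplicit false

namespace Pool.Agent.N876.CG

open Finset Polynomial Pool.Agent.N876.TC Pool.Agent.N876.UV Pool.Agent.W528.HA Pool.Agent.W528.HB
  Pool.Agent.N876.FL

theorem integral_of_emb {K : Type} [Field K] [CharZero K] (σ₀ : K →+* ℂ) {α : K}
    (h : IsAlgebraic ℚ (σ₀ α)) : IsIntegral ℚ α := by
  rw [← isAlgebraic_iff_isIntegral]
  have h1 : IsAlgebraic ℚ ((σ₀.toRatAlgHom : K →ₐ[ℚ] ℂ) α) := h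
  exact (isAlgebraic_algHom_iff _ σ₀.injective).1 h1

variable {c : ℕ} [Fact c.Prime]

section

variable {ι : Type} {N lam : ℕ} (hN : 0 < N) {d n s : ι → ℕ}
    (hd : ∀ i, 2 ≤ d i) (hdN : ∀ i, d i ∣ N) (κ : Type) [Field κ] [Fintype κ] [CharP κ c] {f : ℕ}
    (hf : Fintype.card κ = c ^ f) {z : ι → κ} (hz : ∀ i, IsPrimitiveRoot (z i) (d i))
    (l : ∀ i, Fin (s i) → Fin (n i + 1) → κ) (a : ∀ i, Fin (s i) → ℕ)
    (ha : ∀ i k, (a i k).Coprime (d i))
    {K : Type} [Field K] [CharZero K] (σ₀ : K →+* ℂ)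
    {T : ι → Type} [∀ i, AddCommGroup (T i)] [∀ i, Module K (T i)]
    [∀ i, FiniteDimensional K (T i)] {Φ g : ∀ i, Module.End K (T i)}
    (h : ∀ i, IsCov (d i) (l i) (a i) (z i) (Φ i) (g i))

include hN hd hdN hf hz ha h

theorem int_cov (hsmall : ∀ I : Finset ι, I.Nonempty → SmallI c f N lam d n s a I)
    (hpure : ∀ i α, (Φ i).HasEigenvalue α → ‖σ₀ α‖ ^ 2 = (Fintype.card κ : ℝ) ^ n i)
    (i : ι) (α : K) (hα : (Φ i).HasEigenvalue α) : IsIntegral ℚ α := by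
  have h1 : ∀ i, ∃ (T' : Type) (_ : AddCommGroup T') (_ : Module ℂ T')
      (_ : FiniteDimensional ℂ T') (Φ' τ' : Module.End ℂ T'), IsCov (d i) (l i) (a i) (z i) Φ' τ' ∧
        ∀ α, (Φ i).HasEigenvalue α → Φ'.HasEigenvalue (σ₀ α) :=
    fun i => exists_bc (by have := hd i; omega) (h i) σ₀
  choose T' i1 i2 i3 Φ' τ' h2 h3 using h1
  have hq1 : (1 : ℝ) < Fintype.card κ := by exact_mod_cast Fintype.one_lt_card (α := κ)
  have hq0 : (0 : ℝ) < Fintype.card κ := by linarith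
  obtain ⟨hx, -⟩ := exists_small' hN hd hdN κ hf hz l a ha h2
    (hsmall {i} (singleton_nonempty i)) (α := fun _ => σ₀ α)
    (fun i' hi' => by rw [mem_singleton.1 hi']; exact h3 i α hα)
    (fun i' hi' h0 => by
      have h4 := hpure i α hα
      rw [h0, norm_zero, zero_pow two_ne_zero] at h4
      exact (pow_pos hq0 (n i)).ne h4)
  exact integral_of_emb σ₀ (mem_algebraicClosure_iff.mp (hx i (mem_singleton_self i)))

end

end Pool.Agent.N876.CG
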