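import Mathlib
import Pool.Agent.N876.CG.Alg

/-!
# The polynomial with the inverse roots
-/

set_option autoImplicit false

namespace Pool.Agent.N876.CG

open Polynomial

/-- The polynomial with the roots `μ / ρ`, `ρ` the roots of `χ`. -/
noncomputable def rev (χ : ℚ[X]) (μ : ℚ) : ℚ[X] :=
  ∑ l ∈ Finset.range (χ.natDegree + 1), Polynomial.C (χ.coeff l * μ ^ l) * X ^ (χ.natDegree - l)

theorem aeval_rev {K : Type*} [Field K] [CharZero K] (χ : ℚ[X]) (μ : ℚ) {α : K} (hα : α ≠ 0) :
    aeval α (rev χ μ) = α ^ χ.natDegree * aeval ((μ : K) / α) χ := by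
  rw [rev, map_sum, aeval_eq_sum_range, Finset.mul_sum]
  refine Finset.sum_congr rfl fun l hl => ?_
  have hl' : l ≤ χ.natDegree := by
    have := Finset.mem_range.1 hl
    omega
  rw [map_mul, aeval_C, map_pow, aeval_X, Algebra.smul_def, map_mul, map_pow, div_pow,
    eq_ratCast, eq_ratCast]
  have h1 : α ^ χ.natDegree = α ^ (χ.natDegree - l) * α ^ l := by
    rw [← pow_add]
    congr 1
    omega
  rw [h1]
  field_simp

variable {M : Type*} [AddCommGroup M] [Module ℚ M] {F φ : Module.End ℚ M}

theorem inj_of_coprime {χ : ℚ[X]} (h0 : χ.coeff 0 ≠ 0) {v : M} (h1 : aeval φ χ v = 0) {d : ℕ}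
    (h2 : (φ ^ d) v = 0) : v = 0 := by
  have h3 : IsCoprime (X : ℚ[X]) χ := by
    rw [Polynomial.irreducible_X.coprime_iff_not_dvd, X_dvd_iff]
    exact h0
  obtain ⟨a, b, hab⟩ := h3.pow_left (m := d)
  have h4 := congrArg (fun S => aeval φ S v) hab
  simp only [map_add, map_mul, map_one, LinearMap.add_apply, Module.End.mul_apply,
    Module.End.one_apply, map_pow, aeval_X] at h4
  rw [h1, h2, map_zero, map_zero, add_zero] at h4
  exact h4.symm

/-- If `χ (φ) t = 0` and `F φ` acts on `t` as `μ`, up to nilpotents, then `t` is killed by a power of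
the value of `rev χ μ` at `F`. -/
theorem rev_nil (hc : Commute F φ) (μ : ℚ) {χ : ℚ[X]} (h0 : χ.coeff 0 ≠ 0) :
    ∀ (k : ℕ) (t : M), aeval φ χ t = 0 → ((F * φ - μ • (1 : Module.End ℚ M)) ^ k) t = 0 →
      aeval F (rev χ μ ^ k) t = 0 := by
  have hFφ : Commute (F * φ) φ := hc.mul_left (Commute.refl φ)
  have hFF : Commute F (F * φ) := (Commute.refl F).mul_right hc
  set N : Module.End ℚ M := F * φ - μ • (1 : Module.End ℚ M) with hN
  have hNφ : Commute N φ := hFφ.sub_left (by
    refine Commute.smul_left ?_ μ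
    exact Commute.one_left φ)
  have hcaev : ∀ (S S' : ℚ[X]), Commute (aeval F S) (aeval φ S') := by
    intro S S'
    rw [aeval_eq_sum_range, aeval_eq_sum_range]
    refine Commute.sum_left _ _ _ fun i _ => Commute.sum_right _ _ _ fun j _ => ?_
    exact ((hc.pow_pow i j).smul_left _).smul_right _
  -- the geometric sums
  set g : ℕ → Module.End ℚ M := fun n =>
    ∑ i ∈ Finset.range n, (F * φ) ^ i * (μ • (1 : Module.End ℚ M)) ^ (n - 1 - i) with hg
  have hgeo : ∀ n, (F * φ) ^ n = μ ^ n • (1 : Module.End ℚ M) + g n * N := by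
    intro n
    have h1 : Commute (F * φ) (μ • (1 : Module.End ℚ M)) :=
      (Commute.one_right (F * φ)).smul_right μ
    have h2 := h1.geom_sum₂_mul n
    rw [hN]
    show _ = _ + (∑ i ∈ Finset.range n, (F * φ) ^ i * (μ • (1 : Module.End ℚ M)) ^ (n - 1 - i)) *
      (F * φ - μ • (1 : Module.End ℚ M))
    rw [h2, _root_.smul_pow, one_pow]
    abel
  have hgF : ∀ n, Commute F (g n) := by
    intro n
    refine Commute.sum_right _ _ _ fun i _ => ?_
    exact (hFF.pow_right i).mul_right (((Commute.one_right F).smul_right μ).pow_right _)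
  set d := χ.natDegree with hd
  set G : Module.End ℚ M := ∑ l ∈ Finset.range (d + 1), (χ.coeff l * μ ^ l) • (g (d - l) * φ ^ l)
    with hG
  have hGF : Commute F G := by
    refine Commute.sum_right _ _ _ fun l _ => ?_
    exact ((hgF _).mul_right (hc.pow_right l)).smul_right _
  have hGF' : ∀ S : ℚ[X], Commute (aeval F S) G := by
    intro S
    rw [aeval_eq_sum_range]
    exact Commute.sum_left _ _ _ fun i _ => (hGF.pow_left i).smul_left _
  have hkey : aeval F (rev χ μ) * φ ^ d = μ ^ d • aeval φ χ + G * N := by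
    rw [rev, map_sum, Finset.sum_mul, aeval_eq_sum_range, Finset.smul_sum, hG, Finset.sum_mul,
      ← Finset.sum_add_distrib]
    refine Finset.sum_congr rfl fun l hl => ?_
    have hl' : l ≤ d := by
      have := Finset.mem_range.1 hl
      omega
    have h1 : F ^ (d - l) * φ ^ d = (F * φ) ^ (d - l) * φ ^ l := by
      rw [hc.mul_pow, mul_assoc, ← pow_add]
      congr 2
      omega
    rw [map_mul, aeval_C, map_pow, aeval_X, mul_assoc, h1, hgeo, add_mul, mul_add,
      Algebra.algebraMap_eq_smul_one, smul_mul_assoc, one_mul, smul_mul_assoc, one_mul,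
      smul_mul_assoc, one_mul, smul_smul, smul_mul_assoc, smul_smul, mul_assoc (g _) N,
      hNφ.pow_right l |>.eq, ← mul_assoc]
    congr 2
    have h2 : μ ^ d = μ ^ l * μ ^ (d - l) := by
      rw [← pow_add]
      congr 1
      omega
    rw [h2]
    ring
  intro k
  induction k with
  | zero =>
    intro t _ ht
    rw [pow_zero, Module.End.one_apply] at ht
    rw [ht, map_zero]
  | succ k ih =>
    intro t hχ ht
    have h1 : aeval φ χ (N t) = 0 := by
      have h2 : Commute N (aeval φ χ) := by
        rw [aeval_eq_sum_range]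
        exact Commute.sum_right _ _ _ fun l _ => (hNφ.pow_right l).smul_right _
      rw [← Module.End.mul_apply, ← h2.eq, Module.End.mul_apply, hχ, map_zero]
    have h2 := ih (N t) h1 (by rw [← Module.End.mul_apply, ← pow_succ]; exact ht)
    have h3 : (φ ^ d) (aeval F (rev χ μ ^ (k + 1)) t) = 0 := by
      have h4 : Commute (φ ^ d) (aeval F (rev χ μ ^ (k + 1))) := by
        have h5 := hcaev (rev χ μ ^ (k + 1)) (X ^ d)
        rw [map_pow (aeval φ), aeval_X] at h5
        exact h5.symm
      rw [← Module.End.mul_apply, h4.eq, pow_succ, map_mul, mul_assoc, hkey,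
        Module.End.mul_apply, LinearMap.add_apply, LinearMap.smul_apply, hχ, smul_zero, zero_add,
        ← Module.End.mul_apply, ← mul_assoc, (hGF' _).eq, Module.End.mul_apply,
        Module.End.mul_apply, h2, map_zero]
    refine inj_of_coprime (φ := φ) h0 ?_ h3
    rw [← Module.End.mul_apply, ← (hcaev _ _).eq, Module.End.mul_apply, hχ, map_zero]

end Pool.Agent.N876.CG
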