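import Mathlib
import Pool.Agent.N876.CG.Step

/-!
# Products of varieties without resonances
-/

set_option autoImplicit false
set_option linter.unusedSectionVars false

open CategoryTheory AlgebraicGeometry
open scoped TensorProduct

universe u

namespace Pool.Agent.N876.CG

open Module Polynomial Pool.Agent.H914 Pool.Agent.H914.VarClass Pool.Agent.H914.VarClass.Obj
  Pool.Agent.W492.BB Pool.Agent.W550.Corr Pool.Agent.W484.TB Pool.Agent.W484.CH
  Pool.Agent.Y154.BQ

section degs

variable {k : Type u} [Field k] {𝒱 : VarClass k} {C : TheoryData.{u, 0, 0} 𝒱 ℚ} [hC : IsChow C]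
  {A Z : 𝒱.Obj} {J : Type} [Fintype J] {deg : J → ℕ} {D E : J → C.A A}

/-- vanishing degree by degree -/
theorem vanish_deg (h : IsDual A Z deg D E) {T : CorrData C} (hT : IsCorrTheory T)
    (hK : HasKunneth T A Z deg D) (n : ℤ) :
    T.gr (A.prod Z) n = ⊥ ↔ ∀ j, T.gr Z (n - deg j) = ⊥ := by
  classical
  constructor
  · intro hv j
    rw [Submodule.eq_bot_iff]
    intro z hz
    have h1 := act_ext_mem hT h j hz
    rw [sub_add_cancel, hv, Submodule.mem_bot] at h1
    have h2 := act_pair_ext hT h j j z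
    rw [h1, map_zero, if_pos rfl] at h2
    exact h2.symm
  · intro hv
    rw [Submodule.eq_bot_iff]
    intro m hm
    obtain ⟨z, ⟨hz, hmz⟩, -⟩ := hK n m hm
    rw [hmz]
    refine Finset.sum_eq_zero fun j _ => ?_
    have h1 : z j ∈ T.gr Z (n - deg j) := hz j
    rw [hv j, Submodule.mem_bot] at h1
    change T.act (extBy C Z (D j)) (z j) = 0
    rw [h1, map_zero]

end degs

section geo

variable {k : Type u} [Field k] {𝒱 : VarClass k} {C : TheoryData.{u, 0, 0} 𝒱 ℚ} {K : Type}
  [Field K] [CharZero K] {H : WeilTheoryData.{u, 0, 0} C K} [hC : IsChow C] [hH : IsWeil H]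

/-- a divisor with nonzero top power -/
def Big (H : WeilTheoryData.{u, 0, 0} C K) (A : 𝒱.Obj) : Prop :=
  ∃ y : C.A A, C.Deg 1 y ∧ H.cl y ^ A.dim ≠ 0

theorem pull_fst_ne (hS : IsStandard H) {A : 𝒱.Obj} (Z : 𝒱.Obj) {y : C.A A} (hy : H.cl y ≠ 0) :
    C.pull (fst A Z) y ≠ 0 := by
  intro h0
  have := hS.nontrivial Z
  have h1 : H.pull (fst A Z) (H.cl y) = 0 := by rw [← H.cl_pull, h0, map_zero]
  have h2 : kt H A Z (H.cl y ⊗ₜ 1) = 0 := by
    rw [kt_tmul, TheoryData.ext, h1, zero_mul]
  have h3 := (injective_iff_map_eq_zero _).1 (kt_injective hS) _ h2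
  have hfl : Function.Injective ((LinearMap.toSpanSingleton K (H.A A) (H.cl y)).rTensor (H.A Z)) := by
    apply Module.Flat.rTensor_preserves_injective_linearMap
    intro a b hab
    rw [LinearMap.toSpanSingleton_apply, LinearMap.toSpanSingleton_apply, ← sub_eq_zero,
      ← sub_smul] at hab
    exact sub_eq_zero.1 ((smul_eq_zero.1 hab).resolve_right hy)
  have h4 : (LinearMap.toSpanSingleton K (H.A A) (H.cl y)).rTensor (H.A Z) ((1 : K) ⊗ₜ 1) = 0 := by
    rw [LinearMap.rTensor_tmul, LinearMap.toSpanSingleton_apply, one_smul, h3]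
  have h5 := (injective_iff_map_eq_zero _).1 hfl _ h4
  have h6 := congrArg (TensorProduct.lid K (H.A Z)) h5
  rw [TensorProduct.lid_tmul, map_zero, one_smul] at h6
  exact one_ne_zero h6

/-- every codimension occurs -/
theorem exists_deg_big {A : 𝒱.Obj} (hbig : Big H A) {J : Type} [Fintype J]
    {deg : J → ℕ} {D : J → C.A A}
    (hN : ∀ n, AK H A n ≤ Submodule.span K {c | ∃ j, deg j = n ∧ c = H.cl (D j)})
    {l : ℕ} (hl : l ≤ A.dim) : ∃ j, deg j = l := by
  obtain ⟨y, hy, hy0⟩ := hbig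
  have h1 : ∀ l : ℕ, y ^ l ∈ C.gr A l := by
    intro l
    induction l with
    | zero => rw [pow_zero]; simpa using C.one_mem A
    | succ l ih =>
      rw [pow_succ]
      have h2 := C.mul_mem ih hy
      push_cast
      exact h2
  have h2 : H.cl (y ^ l) ≠ 0 := by
    intro h0
    apply hy0
    rw [map_pow] at h0
    obtain ⟨d, hd⟩ := Nat.exists_eq_add_of_le hl
    rw [hd, pow_add, h0, zero_mul]
  by_contra hcon
  push Not at hcon
  have h3 : H.cl (y ^ l) ∈ AK H A l := Submodule.subset_span ⟨_, h1 l, rfl⟩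
  have h4 := hN l h3
  have h5 : {c | ∃ j, deg j = l ∧ c = H.cl (D j)} = ∅ := by
    ext c
    simp only [Set.mem_setOf_eq, Set.mem_empty_iff_false, iff_false, not_exists, not_and]
    exact fun j hj => absurd hj (hcon j)
  rw [h5, Submodule.span_empty, Submodule.mem_bot] at h4
  exact h2 h4

/-- the classes of a dual system are linearly independent -/
theorem linearIndependent_of_dual (hS : IsStandard H) {A Z : 𝒱.Obj} {J : Type} [Fintype J]
    {deg : J → ℕ} {D E : J → C.A A} (h : IsDual A Z deg D E) :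
    LinearIndependent K (fun j => H.cl (D j)) := by
  classical
  rw [Fintype.linearIndependent_iff]
  intro c hc i
  have := hS.nontrivial Z
  have h1 : H.push (snd A Z) (H.pull (fst A Z) ((∑ j, c j • H.cl (D j)) * H.cl (E i))) = 0 := by
    rw [hc, zero_mul, map_zero, map_zero]
  rw [Finset.sum_mul, map_sum, map_sum, Finset.sum_eq_single i] at h1
  · rw [smul_mul_assoc, map_smul, map_smul, ← map_mul, ← H.cl_pull, ← H.cl_push, h.eq i,
      map_one] at h1
    exact (smul_eq_zero.1 h1).resolve_right one_ne_zero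
  · intro j _ hj
    rw [smul_mul_assoc, map_smul, map_smul, ← map_mul, ← H.cl_pull, ← H.cl_push, h.ne j i hj,
      map_zero, smul_zero]
  · intro h0
    exact absurd (Finset.mem_univ i) h0

/-- The product `X i₁ × (X i₂ × (⋯ × Z))`. -/
noncomputable def tw {ι : Type} (X : ι → 𝒱.Obj) (Z : 𝒱.Obj) : List ι → 𝒱.Obj
  | [] => Z
  | i :: L => (X i).prod (tw X Z L)

/-- the sum of the dimensions -/
def dims {ι : Type} (X : ι → 𝒱.Obj) : List ι → ℕ
  | [] => 0
  | i :: L => (X i).dim + dims X L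

/-- the hypotheses -/
structure Cs (H : WeilTheoryData.{u, 0, 0} C K) (F : ∀ X : 𝒱.Obj, X ⟶ X) (Q : ℕ) {ι : Type}
    (X : ι → 𝒱.Obj) (Z : 𝒱.Obj) (S : ι → Set K) : Prop where
  std : IsStandard H
  one_lt : 1 < Q
  frob : ∀ X, IsFrobenius C (F X) Q
  prod : ∀ X Y, F (X.prod Y) = prodMap (F X) (F Y)
  cg : ∀ i, Cg H (F (X i)) (S i)
  int : ∀ i, ∀ α ∈ S i, IsIntegral ℚ α
  intZ : ∀ β, (Pool.Agent.W484.CH.frob H (F Z)).HasEigenvalue β → IsIntegral ℚ β
  res : FL.NoResF (Q : K) S {β | (Pool.Agent.W484.CH.frob H (F Z)).HasEigenvalue β}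
  res1 : FL.NoResF (Q : K) S {1}
  nil : ∀ L : List ι, Nilpotence H (tw X Z L)

variable {F : ∀ X : 𝒱.Obj, X ⟶ X} {Q : ℕ} {ι : Type} {X : ι → 𝒱.Obj} {Z : 𝒱.Obj}
    {S : ι → Set K}

/-- the shape of the eigenvalues -/
def Sh (S : ι → Set K) (SZ : Set K) (q : K) (L : List ι) (γ : K) : Prop :=
  ∃ (I : Finset ι) (α : ι → K) (β : K) (e : ℕ), (∀ i ∈ I, i ∈ L) ∧ (∀ i ∈ I, α i ∈ S i) ∧
    β ∈ SZ ∧ γ = (∏ i ∈ I, α i) * q ^ e * β

variable [IsAlgClosed K]

theorem Cs.eig_tw (h : Cs H F Q X Z S) (L : List ι) (hL : L.Nodup) :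
    ∀ γ, (Pool.Agent.W484.CH.frob H (F (tw X Z L))).HasEigenvalue γ →
      Sh S {β | (Pool.Agent.W484.CH.frob H (F Z)).HasEigenvalue β} (Q : K) L γ := by
  classical
  induction L with
  | nil =>
    intro γ hγ
    exact ⟨∅, fun _ => 0, γ, 0, by simp, by simp, hγ, by rw [Finset.prod_empty, pow_zero, one_mul,
      one_mul]⟩
  | cons i L ih =>
    rw [List.nodup_cons] at hL
    intro γ hγ
    have h1 : F (tw X Z (i :: L)) = prodMap (F (X i)) (F (tw X Z L)) := h.prod _ _
    rw [h1] at hγ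
    obtain ⟨α, β', hα, hβ', rfl⟩ := eig_prodMap h.std hγ
    obtain ⟨I, α', β, e, hI, hα', hβ, rfl⟩ := ih hL.2 β' hβ'
    have hiI : i ∉ I := fun hi => hL.1 (hI i hi)
    rcases eig_cg h.std (h.frob (X i)) (h.cg i) hα with hαS | ⟨j, rfl⟩
    · refine ⟨insert i I, Function.update α' i α, β, e, ?_, ?_, hβ, ?_⟩
      · intro i' hi'
        rcases Finset.mem_insert.1 hi' with rfl | hi'
        · exact List.mem_cons_self
        · exact List.mem_cons_of_mem _ (hI i' hi')
      · intro i' hi'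
        rcases Finset.mem_insert.1 hi' with rfl | hi'
        · rw [Function.update_self]; exact hαS
        · rw [Function.update_of_ne (ne_of_mem_of_not_mem hi' hiI)]
          exact hα' i' hi'
      · rw [Finset.prod_insert hiI, Function.update_self]
        rw [Finset.prod_congr rfl fun i' hi' =>
          Function.update_of_ne (ne_of_mem_of_not_mem hi' hiI) α α']
        ring
    · refine ⟨I, α', β, e + j, fun i' hi' => List.mem_cons_of_mem _ (hI i' hi'), hα', hβ, ?_⟩
      rw [pow_add]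
      ring

theorem Cs.int_tw (h : Cs H F Q X Z S) {L : List ι} (hL : L.Nodup) :
    ∀ γ, (Pool.Agent.W484.CH.frob H (F (tw X Z L))).HasEigenvalue γ → IsIntegral ℚ γ := by
  intro γ hγ
  obtain ⟨I, α, β, e, hI, hα, hβ, rfl⟩ := h.eig_tw L hL γ hγ
  refine ((IsIntegral.prod _ fun i hi => h.int i _ (hα i hi)).mul ?_).mul (h.intZ β hβ)
  exact (isIntegral_natCast (R := ℚ) (a := Q) (B := K)).pow e

/-- **one step** -/
theorem Cs.step (h : Cs H F Q X Z S) {i : ι} {L : List ι} (hi : i ∉ L) (hL : L.Nodup) :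
    ∃ (J : Type) (_ : Fintype J) (deg : J → ℕ) (D E : J → C.A (X i)),
      IsDual (X i) (tw X Z L) deg D E ∧
      (∀ n, AK H (X i) n ≤ Submodule.span K {c | ∃ j, deg j = n ∧ c = H.cl (D j)}) ∧
      ∀ T : CorrData C, IsCorrTheory T → (∀ X, ActsAsPower T (F X) Q) →
        HasKunneth T (X i) (tw X Z L) deg D := by
  classical
  obtain ⟨J, hJ, deg, D, E, h1, h2, h3⟩ := kun_step (πA := F (X i)) (πZ := F (tw X Z L)) h.std
    (h.frob _) h.one_lt (h.cg i) (h.int i)
    (h.int_tw hL) (fun α hα w hw => by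
      refine h.res1 {i} (Finset.singleton_nonempty i) (fun _ => α) ?_ 1 rfl 0 1 w one_pos ?_
      · intro i' hi'
        rw [Finset.mem_singleton.1 hi']
        exact hα
      · rw [Finset.prod_singleton, pow_zero, mul_one, mul_one, hw, pow_one, one_mul])
    (fun α hα γ hγ e' w heq => by
      obtain ⟨I, α', β, e, hI, hα', hβ, rfl⟩ := h.eig_tw L hL γ hγ
      have hiI : i ∉ I := fun h0 => hi (hI i h0)
      refine h.res (insert i I) (Finset.insert_nonempty i I) (Function.update α' i α) ?_ β hβ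
        (e + e') 1 w one_pos ?_
      · intro i' hi'
        rcases Finset.mem_insert.1 hi' with rfl | hi'
        · rw [Function.update_self]; exact hα
        · rw [Function.update_of_ne (ne_of_mem_of_not_mem hi' hiI)]
          exact hα' i' hi'
      · rw [Finset.prod_insert hiI, Function.update_self,
          Finset.prod_congr rfl fun i' hi' =>
            Function.update_of_ne (ne_of_mem_of_not_mem hi' hiI) α α', pow_one, one_mul, ← heq,
            pow_add]
        ring)
    (h.nil (i :: L))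
  refine ⟨J, hJ, deg, D, E, h1, h2, fun T hT hF => h3 T hT ?_⟩
  rw [← h.prod]
  exact hF _

theorem Cs.chow_step (h : Cs H F Q X Z S) {i : ι} {L : List ι} (hi : i ∉ L) (hL : L.Nodup) :
    ∃ (J : Type) (_ : Fintype J) (deg : J → ℕ) (D E : J → C.A (X i)),
      IsDual (X i) (tw X Z L) deg D E ∧
      (∀ n, AK H (X i) n ≤ Submodule.span K {c | ∃ j, deg j = n ∧ c = H.cl (D j)}) ∧
      HasKunneth (chowData C) (X i) (tw X Z L) deg D := by
  obtain ⟨J, hJ, deg, D, E, h1, h2, h3⟩ := h.step hi hL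
  exact ⟨J, hJ, deg, D, E, h1, h2, h3 _ chowData_isCorrTheory
    fun X => chowData_actsAsPower (h.frob X)⟩

/-- **The pairings.** -/
theorem Cs.perfect_tw (h : Cs H F Q X Z S) (hbig : ∀ i, Big H (X i)) {L : List ι} (hL : L.Nodup)
    (n : ℤ) : PerfectIn C (tw X Z L) n ↔
      ∀ m : ℤ, n - dims X L ≤ m → m ≤ n → PerfectIn C Z m := by
  induction L generalizing n with
  | nil =>
    constructor
    · intro h1 m h2 h3
      have h4 : m = n := by
        simp only [dims, Nat.cast_zero, sub_zero] at h2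
        omega
      rw [h4]
      exact h1
    · intro h1
      exact h1 n (by simp [dims]) le_rfl
  | cons i L ih =>
    rw [List.nodup_cons] at hL
    obtain ⟨J, hJ, deg, D, E, h1, h2, h3⟩ := h.chow_step hL.1 hL.2
    have h4 : PerfectIn C (tw X Z (i :: L)) n ↔ ∀ j, PerfectIn C (tw X Z L) (n - deg j) :=
      perfectIn_prod_iff h.std h1 h3 n
    rw [h4]
    constructor
    · intro hp m hm1 hm2
      have hm3 : n - ((X i).dim + dims X L : ℕ) ≤ m := hm1
      push_cast at hm3
      -- choose a codimension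
      obtain ⟨l, hl1, hl2, hl3⟩ : ∃ l : ℕ, l ≤ (X i).dim ∧ n - l - dims X L ≤ m ∧ m ≤ n - l := by
        rcases le_total ((n - m).toNat) (X i).dim with h5 | h5
        · exact ⟨(n - m).toNat, h5, by omega, by omega⟩
        · exact ⟨(X i).dim, le_rfl, by omega, by omega⟩
      obtain ⟨j, hj⟩ := exists_deg_big (hbig i) h2 hl1
      have h5 := (ih hL.2 (n - deg j)).1 (hp j)
      rw [hj] at h5
      exact h5 m hl2 hl3
    · intro hp j
      rw [ih hL.2]
      intro m hm1 hm2
      have h5 := h1.le j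
      refine hp m ?_ (by omega)
      change n - ((X i).dim + dims X L : ℕ) ≤ m
      push_cast
      omega

/-- **Vanishing.** -/
theorem Cs.vanish_tw (h : Cs H F Q X Z S) (hbig : ∀ i, Big H (X i)) {L : List ι} (hL : L.Nodup)
    {T : CorrData C} (hT : IsCorrTheory T) (hF : ∀ X, ActsAsPower T (F X) Q) (n : ℤ) :
    T.gr (tw X Z L) n = ⊥ ↔ ∀ m : ℤ, n - dims X L ≤ m → m ≤ n → T.gr Z m = ⊥ := by
  induction L generalizing n with
  | nil =>
    constructor
    · intro h1 m h2 h3
      have h4 : m = n := by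
        simp only [dims, Nat.cast_zero, sub_zero] at h2
        omega
      rw [h4]
      exact h1
    · intro h1
      exact h1 n (by simp [dims]) le_rfl
  | cons i L ih =>
    rw [List.nodup_cons] at hL
    obtain ⟨J, hJ, deg, D, E, h1, h2, h3⟩ := h.step hL.1 hL.2
    have h4 : T.gr (tw X Z (i :: L)) n = ⊥ ↔ ∀ j, T.gr (tw X Z L) (n - deg j) = ⊥ :=
      vanish_deg h1 hT (h3 T hT hF) n
    rw [h4]
    constructor
    · intro hp m hm1 hm2
      have hm3 : n - ((X i).dim + dims X L : ℕ) ≤ m := hm1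
      push_cast at hm3
      obtain ⟨l, hl1, hl2, hl3⟩ : ∃ l : ℕ, l ≤ (X i).dim ∧ n - l - dims X L ≤ m ∧ m ≤ n - l := by
        rcases le_total ((n - m).toNat) (X i).dim with h5 | h5
        · exact ⟨(n - m).toNat, h5, by omega, by omega⟩
        · exact ⟨(X i).dim, le_rfl, by omega, by omega⟩
      obtain ⟨j, hj⟩ := exists_deg_big (hbig i) h2 hl1
      have h5 := (ih hL.2 (n - deg j)).1 (hp j)
      rw [hj] at h5
      exact h5 m hl2 hl3
    · intro hp j
      rw [ih hL.2]
      intro m hm1 hm2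
      have h5 := h1.le j
      refine hp m ?_ (by omega)
      change n - ((X i).dim + dims X L : ℕ) ≤ m
      push_cast
      omega

/-- **Rational and numerical equivalence.** -/
theorem Cs.ratEqNum_tw (h : Cs H F Q X Z S) {L : List ι} (hL : L.Nodup) :
    RatEqNum H (tw X Z L) ↔ RatEqNum H Z := by
  induction L with
  | nil => exact Iff.rfl
  | cons i L ih =>
    rw [List.nodup_cons] at hL
    obtain ⟨J, hJ, deg, D, E, h1, h2, h3⟩ := h.chow_step hL.1 hL.2
    rw [← ih hL.2]
    exact ratEqNum_iff h1 h3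

end geo

end Pool.Agent.N876.CG
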