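import Mathlib
import Pool.Agent.N876.CG.Rel
import Pool.Agent.N876.CG.Rev
import Pool.Agent.N876.CG.Tower

/-!
# Theories relative to a scheme: products of varieties without resonances
-/

set_option autoImplicit false
set_option linter.unusedSectionVars false

open CategoryTheory AlgebraicGeometry
open scoped TensorProduct

universe u

namespace Pool.Agent.N876.CG

open Module Polynomial Pool.Agent.H914 Pool.Agent.H914.VarClass Pool.Agent.H914.VarClass.Obj
  Pool.Agent.W492.BB Pool.Agent.W550.Corr Pool.Agent.W484.TB Pool.Agent.W484.CH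

section geo

variable {k : Type u} [Field k] {𝒱 : VarClass k} {C : TheoryData.{u, 0, 0} 𝒱 ℚ} {K : Type}
  [Field K] [CharZero K] {H : WeilTheoryData.{u, 0, 0} C K} [hC : IsChow C] [hH : IsWeil H]

/-- A theory relative to a scheme `U`: `φ` is the Frobenius endomorphism of `U`, which satisfies the
polynomial `χ`, and the Frobenius endomorphism of `X × U` acts as `Q ^ n` on `T^n(X)`, up to
nilpotents. -/
structure RelTheory (T : CorrData C) (φ : ∀ X : 𝒱.Obj, Module.End ℚ (T.M X))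
    (F : ∀ X : 𝒱.Obj, X ⟶ X) (Q : ℕ) (χ : ℚ[X]) : Prop where
  corr : IsCorrTheory T
  comm : ∀ {X Y : 𝒱.Obj} (Γ : C.A (X.prod Y)) (t : T.M X), φ Y (T.act Γ t) = T.act Γ (φ X t)
  power : ∀ (X : 𝒱.Obj) (n : ℤ) (t : T.M X), t ∈ T.gr X n → ∃ k : ℕ,
    ((T.act (C.cograph (F X)) * φ X - ((Q : ℚ) ^ n) • (1 : Module.End ℚ (T.M X))) ^ k) t = 0
  poly : ∀ (X : 𝒱.Obj) (n : ℤ) (t : T.M X), t ∈ T.gr X n → aeval (φ X) χ t = 0

theorem eig_ne_zero {X : 𝒱.Obj} {π : X ⟶ X} {Q : ℕ} (hπ : IsFrobenius C π Q) (hQ : Q ≠ 0) {α : K}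
    (h : (frob H π).HasEigenvalue α) : α ≠ 0 := by
  rintro rfl
  obtain ⟨v, hv⟩ := h.exists_hasEigenvector
  apply hv.2
  apply H.nondeg
  intro b
  have h1 := tr_frob hπ (v * b)
  have h2 : H.pull π v = 0 := by
    have h3 : frob H π v = (0 : K) • v := hv.apply_eq_smul
    rw [zero_smul] at h3
    exact h3
  rw [map_mul, h2, zero_mul, map_zero] at h1
  exact (mul_eq_zero.1 h1.symm).resolve_left (pow_ne_zero _ (by exact_mod_cast hQ))

variable {A Z : 𝒱.Obj} {F : ∀ X : 𝒱.Obj, X ⟶ X} {Q : ℕ}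

variable [IsAlgClosed K]

/-- **The Künneth formula.** -/
theorem rel_step (hS : IsStandard H) (hπA : IsFrobenius C (F A) Q) (hπZ : IsFrobenius C (F Z) Q)
    (hF : F (A.prod Z) = prodMap (F A) (F Z)) (hQ : 1 < Q) {S : Set K}
    (hcv : Cg H (F A) S) (hSint : ∀ α ∈ S, IsIntegral ℚ α) (hS0 : ∀ α ∈ S, α ≠ 0)
    (hZint : ∀ β, (frob H (F Z)).HasEigenvalue β → IsIntegral ℚ β)
    (hres1 : ∀ α ∈ S, ∀ w : ℕ, α ≠ (Q : K) ^ w) (B : Set K)
    (hres : ∀ α ∈ S, ∀ β, (frob H (F Z)).HasEigenvalue β → ∀ ρ ∈ B,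
      ∀ e w : ℕ, α * (β * ρ) * (Q : K) ^ e ≠ (Q : K) ^ w) :
    ∃ (J : Type) (_ : Fintype J) (deg : J → ℕ) (D E : J → C.A A), IsDual A Z deg D E ∧
      (∀ n, AK H A n ≤ Submodule.span K {c | ∃ j, deg j = n ∧ c = H.cl (D j)}) ∧
      ∀ (T : CorrData C) (φ : ∀ X : 𝒱.Obj, Module.End ℚ (T.M X)) (χ : ℚ[X]), χ.coeff 0 ≠ 0 →
        (∀ ρ : K, aeval ρ χ = 0 → ρ ∈ B) → RelTheory T φ F Q χ → NilT H T (A.prod Z) →
        HasKunneth T A Z deg D := by
  have hfA := hS.finite A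
  have hQ0 : Q ≠ 0 := by omega
  have hQK : (Q : K) ≠ 0 := by exact_mod_cast hQ0
  obtain ⟨J, hJ, deg, D, E, hdual, hN⟩ := exists_dual hS (nondeg_of hfA hπA hQ hcv hres1) Z
  refine ⟨J, hJ, deg, D, E, hdual, hN, fun T φ χ hχ0 hχB hT hnil => ?_⟩
  refine hasKunneth_of hdual hT.corr fun i m hm => ?_
  obtain ⟨P, hP, hmix⟩ := exists_kill (πA := F A) (πZ := F Z) hS hπA hcv hSint hZint
    (rev χ ((Q : ℚ) ^ i)) (by
      intro α hα β hβ h0
      have hα0 := hS0 α hα
      have hβ0 := eig_ne_zero hπZ hQ0 hβ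
      rw [aeval_rev χ _ (mul_ne_zero hα0 hβ0)] at h0
      have h1 := (mul_eq_zero.1 h0).resolve_left (pow_ne_zero _ (mul_ne_zero hα0 hβ0))
      set ρ : K := (((Q : ℚ) ^ i : ℚ) : K) / (α * β) with hρ
      have h2 : α * (β * ρ) = (Q : K) ^ i := by
        rw [hρ]
        push_cast
        field_simp
      rcases Int.le_total 0 i with hi | hi
      · obtain ⟨n, rfl⟩ := Int.eq_ofNat_of_zero_le hi
        refine hres α hα β hβ ρ (hχB ρ h1) 0 n ?_
        rw [pow_zero, mul_one, h2]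
        exact zpow_natCast _ _
      · obtain ⟨n, hn⟩ := Int.eq_ofNat_of_zero_le (neg_nonneg.2 hi)
        refine hres α hα β hβ ρ (hχB ρ h1) n 0 ?_
        have h3 : i = -(n : ℤ) := by omega
        rw [h2, h3, pow_zero, zpow_neg, zpow_natCast, inv_mul_cancel₀ (pow_ne_zero _ hQK)])
  obtain ⟨l, hl⟩ := hT.power (A.prod Z) i m hm
  have hc : Commute (T.act (C.cograph (F (A.prod Z)))) (φ (A.prod Z)) := by
    refine LinearMap.ext fun t => ?_
    rw [Module.End.mul_apply, Module.End.mul_apply, hT.comm]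
  have h1 := rev_nil hc ((Q : ℚ) ^ i) hχ0 l m (hT.poly _ i m hm) hl
  rw [hF] at h1
  refine rel_core hπA (F Z) hdual hT.corr hnil P _ hP ?_ h1
  intro w
  apply act_proj_mixA hdual hN
  rw [act_cl_polyC]
  exact hmix w

/-- the hypotheses -/
structure Cr (H : WeilTheoryData.{u, 0, 0} C K) (F : ∀ X : 𝒱.Obj, X ⟶ X) (Q : ℕ) {ι : Type}
    (X : ι → 𝒱.Obj) (Z : 𝒱.Obj) (S : ι → Set K) (B : Set K) : Prop where
  std : IsStandard H
  one_lt : 1 < Q
  frob : ∀ X, IsFrobenius C (F X) Q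
  prod : ∀ X Y, F (X.prod Y) = prodMap (F X) (F Y)
  cg : ∀ i, Cg H (F (X i)) (S i)
  int : ∀ i, ∀ α ∈ S i, IsIntegral ℚ α
  ne : ∀ i, ∀ α ∈ S i, α ≠ 0
  intZ : ∀ β, (Pool.Agent.W484.CH.frob H (F Z)).HasEigenvalue β → IsIntegral ℚ β
  res : FL.NoResF (Q : K) S
    {γ | ∃ β ρ, (Pool.Agent.W484.CH.frob H (F Z)).HasEigenvalue β ∧ ρ ∈ B ∧ γ = β * ρ}
  res1 : FL.NoResF (Q : K) S {1}

variable {ι : Type} {X : ι → 𝒱.Obj} {S : ι → Set K} {B : Set K}

theorem Cr.eig_tw (h : Cr H F Q X Z S B) (L : List ι) (hL : L.Nodup) :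
    ∀ γ, (Pool.Agent.W484.CH.frob H (F (tw X Z L))).HasEigenvalue γ →
      Sh S {β | (Pool.Agent.W484.CH.frob H (F Z)).HasEigenvalue β} (Q : K) L γ := by
  classical
  induction L with
  | nil =>
    intro γ hγ
    exact ⟨∅, fun _ => 0, γ, 0, by simp, by simp, hγ, by rw [Finset.prod_empty, pow_zero, one_mul,
      one_mul]⟩
  | cons i L ih =>
    rw [List.nodup_cons] at hL
    intro γ hγ
    have h1 : F (tw X Z (i :: L)) = prodMap (F (X i)) (F (tw X Z L)) := h.prod _ _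
    rw [h1] at hγ
    obtain ⟨α, β', hα, hβ', rfl⟩ := eig_prodMap h.std hγ
    obtain ⟨I, α', β, e, hI, hα', hβ, rfl⟩ := ih hL.2 β' hβ'
    have hiI : i ∉ I := fun hi => hL.1 (hI i hi)
    rcases eig_cg h.std (h.frob (X i)) (h.cg i) hα with hαS | ⟨j, rfl⟩
    · refine ⟨insert i I, Function.update α' i α, β, e, ?_, ?_, hβ, ?_⟩
      · intro i' hi'
        rcases Finset.mem_insert.1 hi' with rfl | hi'
        · exact List.mem_cons_self
        · exact List.mem_cons_of_mem _ (hI i' hi')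
      · intro i' hi'
        rcases Finset.mem_insert.1 hi' with rfl | hi'
        · rw [Function.update_self]; exact hαS
        · rw [Function.update_of_ne (ne_of_mem_of_not_mem hi' hiI)]
          exact hα' i' hi'
      · rw [Finset.prod_insert hiI, Function.update_self]
        rw [Finset.prod_congr rfl fun i' hi' =>
          Function.update_of_ne (ne_of_mem_of_not_mem hi' hiI) α α']
        ring
    · refine ⟨I, α', β, e + j, fun i' hi' => List.mem_cons_of_mem _ (hI i' hi'), hα', hβ, ?_⟩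
      rw [pow_add]
      ring

theorem Cr.int_tw (h : Cr H F Q X Z S B) {L : List ι} (hL : L.Nodup) :
    ∀ γ, (Pool.Agent.W484.CH.frob H (F (tw X Z L))).HasEigenvalue γ → IsIntegral ℚ γ := by
  intro γ hγ
  obtain ⟨I, α, β, e, hI, hα, hβ, rfl⟩ := h.eig_tw L hL γ hγ
  refine ((IsIntegral.prod _ fun i hi => h.int i _ (hα i hi)).mul ?_).mul (h.intZ β hβ)
  exact (isIntegral_natCast (R := ℚ) (a := Q) (B := K)).pow e

/-- **one step** -/
theorem Cr.step (h : Cr H F Q X Z S B) {i : ι} {L : List ι} (hi : i ∉ L) (hL : L.Nodup) :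
    ∃ (J : Type) (_ : Fintype J) (deg : J → ℕ) (D E : J → C.A (X i)),
      IsDual (X i) (tw X Z L) deg D E ∧
      (∀ n, AK H (X i) n ≤ Submodule.span K {c | ∃ j, deg j = n ∧ c = H.cl (D j)}) ∧
      ∀ (T : CorrData C) (φ : ∀ X : 𝒱.Obj, Module.End ℚ (T.M X)) (χ : ℚ[X]), χ.coeff 0 ≠ 0 →
        (∀ ρ : K, aeval ρ χ = 0 → ρ ∈ B) → RelTheory T φ F Q χ →
        NilT H T ((X i).prod (tw X Z L)) → HasKunneth T (X i) (tw X Z L) deg D := by
  classical
  refine rel_step h.std (h.frob _) (h.frob _) (h.prod _ _) h.one_lt (h.cg i) (h.int i) (h.ne i)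
    (h.int_tw hL) (fun α hα w hw => by
      refine h.res1 {i} (Finset.singleton_nonempty i) (fun _ => α) ?_ 1 rfl 0 1 w one_pos ?_
      · intro i' hi'
        rw [Finset.mem_singleton.1 hi']
        exact hα
      · rw [Finset.prod_singleton, pow_zero, mul_one, mul_one, hw, pow_one, one_mul]) B
    (fun α hα γ hγ ρ hρ e' w heq => by
      obtain ⟨I, α', β, e, hI, hα', hβ, rfl⟩ := h.eig_tw L hL γ hγ
      have hiI : i ∉ I := fun h0 => hi (hI i h0)
      refine h.res (insert i I) (Finset.insert_nonempty i I) (Function.update α' i α) ?_ (β * ρ)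
        ⟨β, ρ, hβ, hρ, rfl⟩ (e + e') 1 w one_pos ?_
      · intro i' hi'
        rcases Finset.mem_insert.1 hi' with rfl | hi'
        · rw [Function.update_self]; exact hα
        · rw [Function.update_of_ne (ne_of_mem_of_not_mem hi' hiI)]
          exact hα' i' hi'
      · rw [Finset.prod_insert hiI, Function.update_self,
          Finset.prod_congr rfl fun i' hi' =>
            Function.update_of_ne (ne_of_mem_of_not_mem hi' hiI) α α', pow_one, one_mul, ← heq,
            pow_add]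
        ring)

/-- the arithmetic of the degrees -/
theorem exists_codim {a b : ℕ} {n m : ℤ} (h1 : n - (a + b : ℕ) ≤ m) (h2 : m ≤ n) :
    ∃ l : ℕ, l ≤ a ∧ n - l - b ≤ m ∧ m ≤ n - l := by
  push_cast at h1
  rcases le_total ((n - m).toNat) a with h5 | h5
  · exact ⟨(n - m).toNat, h5, by omega, by omega⟩
  · exact ⟨a, le_rfl, by omega, by omega⟩

/-- a property of theories which can be read off degree by degree -/
theorem Cr.induct (h : Cr H F Q X Z S B) (hbig : ∀ i, Big H (X i)) (p : 𝒱.Obj → ℤ → Prop)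
    (T : CorrData C) (φ : ∀ X : 𝒱.Obj, Module.End ℚ (T.M X)) (χ : ℚ[X]) (hχ0 : χ.coeff 0 ≠ 0)
    (hχB : ∀ ρ : K, aeval ρ χ = 0 → ρ ∈ B) (hT : RelTheory T φ F Q χ)
    (hnil : ∀ L, NilT H T (tw X Z L))
    (hp : ∀ (i : ι) (V : 𝒱.Obj) (J : Type) (_ : Fintype J) (deg : J → ℕ) (D E : J → C.A (X i)),
      IsDual (X i) V deg D E → HasKunneth T (X i) V deg D → ∀ n : ℤ,
        (p ((X i).prod V) n ↔ ∀ j, p V (n - deg j)))
    {L : List ι} (hL : L.Nodup) (n : ℤ) : p (tw X Z L) n ↔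
      ∀ m : ℤ, n - dims X L ≤ m → m ≤ n → p Z m := by
  induction L generalizing n with
  | nil =>
    constructor
    · intro h1 m h2 h3
      have h4 : m = n := by
        simp only [dims, Nat.cast_zero, sub_zero] at h2
        omega
      rw [h4]
      exact h1
    · intro h1
      exact h1 n (by simp [dims]) le_rfl
  | cons i L ih =>
    rw [List.nodup_cons] at hL
    obtain ⟨J, hJ, deg, D, E, h1, h2, h3⟩ := h.step hL.1 hL.2
    have h4 : p (tw X Z (i :: L)) n ↔ ∀ j, p (tw X Z L) (n - deg j) :=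
      hp i _ J hJ deg D E h1 (h3 T φ χ hχ0 hχB hT (hnil (i :: L))) n
    rw [h4]
    constructor
    · intro hp m hm1 hm2
      obtain ⟨l, hl1, hl2, hl3⟩ := exists_codim (a := (X i).dim) (b := dims X L) hm1 hm2
      obtain ⟨j, hj⟩ := exists_deg_big (hbig i) h2 hl1
      have h5 := (ih hL.2 (n - deg j)).1 (hp j)
      rw [hj] at h5
      exact h5 m hl2 hl3
    · intro hp j
      rw [ih hL.2]
      intro m hm1 hm2
      have h5 := h1.le j
      refine hp m ?_ (by omega)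
      change n - ((X i).dim + dims X L : ℕ) ≤ m
      push_cast
      omega

end geo

end Pool.Agent.N876.CG
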