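import Mathlib
import Pool.Agent.N876.CG.RelT

/-!
# Regulators and semisimplicity, degree by degree
-/

set_option autoImplicit false
set_option linter.unusedSectionVars false

open CategoryTheory AlgebraicGeometry
open scoped TensorProduct

universe u

namespace Pool.Agent.N876.CG

open Module Polynomial Pool.Agent.H914 Pool.Agent.H914.VarClass Pool.Agent.H914.VarClass.Obj
  Pool.Agent.W492.BB Pool.Agent.W550.Corr Pool.Agent.W484.TB Pool.Agent.W484.CH

section degs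

variable {k : Type u} [Field k] {𝒱 : VarClass k} {C : TheoryData.{u, 0, 0} 𝒱 ℚ} [hC : IsChow C]
  {A Z : 𝒱.Obj} {J : Type} [Fintype J] {deg : J → ℕ} {D E : J → C.A A}

/-- a natural transformation of theories -/
structure Nat' (T R : CorrData C) (reg : ∀ X : 𝒱.Obj, T.M X →ₗ[ℚ] R.M X) : Prop where
  mem : ∀ {X : 𝒱.Obj} {n : ℤ} {t : T.M X}, t ∈ T.gr X n → reg X t ∈ R.gr X n
  comm : ∀ {X Y : 𝒱.Obj} (Γ : C.A (X.prod Y)) (t : T.M X), reg Y (T.act Γ t) = R.act Γ (reg X t)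

variable {T R : CorrData C} {reg : ∀ X : 𝒱.Obj, T.M X →ₗ[ℚ] R.M X}

/-- **Surjectivity.** -/
theorem surj_deg (h : IsDual A Z deg D E) (hT : IsCorrTheory T) (hR : IsCorrTheory R)
    (hreg : Nat' T R reg) (hK : HasKunneth R A Z deg D) (n : ℤ) :
    (∀ r ∈ R.gr (A.prod Z) n, ∃ t ∈ T.gr (A.prod Z) n, reg _ t = r) ↔
      ∀ j, ∀ r ∈ R.gr Z (n - deg j), ∃ t ∈ T.gr Z (n - deg j), reg _ t = r := by
  classical
  constructor
  · intro hs j r hr
    have h1 := act_ext_mem hR h j hr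
    rw [sub_add_cancel] at h1
    obtain ⟨t, ht, htr⟩ := hs _ h1
    refine ⟨T.act (pairBy C Z (E j)) t, ?_, ?_⟩
    · have h2 := act_pair_mem hT h j ht
      rwa [← sub_eq_add_neg] at h2
    · rw [hreg.comm, htr, act_pair_ext hR h, if_pos rfl]
  · intro hs r hr
    obtain ⟨z, ⟨hz, hrz⟩, -⟩ := hK n r hr
    choose t ht htr using fun j => hs j (z j) (hz j)
    refine ⟨∑ j, T.act (extBy C Z (D j)) (t j), Submodule.sum_mem _ fun j _ => ?_, ?_⟩
    · have h1 := act_ext_mem hT h j (ht j)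
      rwa [sub_add_cancel] at h1
    · rw [map_sum, hrz]
      exact Finset.sum_congr rfl fun j _ => by rw [hreg.comm, htr]

/-- **Injectivity.** -/
theorem inj_deg (h : IsDual A Z deg D E) (hT : IsCorrTheory T)
    (hreg : Nat' T R reg) (hK : HasKunneth T A Z deg D) (n : ℤ) :
    (∀ t ∈ T.gr (A.prod Z) n, reg _ t = 0 → t = 0) ↔
      ∀ j, ∀ t ∈ T.gr Z (n - deg j), reg _ t = 0 → t = 0 := by
  classical
  constructor
  · intro hs j t ht h0
    have h1 := act_ext_mem hT h j ht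
    rw [sub_add_cancel] at h1
    have h2 := hs _ h1 (by rw [hreg.comm, h0, map_zero])
    have h3 := act_pair_ext hT h j j t
    rw [h2, map_zero, if_pos rfl] at h3
    exact h3.symm
  · intro hs t ht h0
    obtain ⟨z, ⟨hz, htz⟩, -⟩ := hK n t ht
    have h1 : ∀ j, z j = T.act (pairBy C Z (E j)) t := by
      intro j
      rw [htz]
      exact (pair_ext_sum hT h j z).symm
    rw [htz]
    refine Finset.sum_eq_zero fun j _ => ?_
    have h2 : z j = 0 := hs j (z j) (hz j) (by rw [h1, hreg.comm, h0, map_zero])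
    change T.act (extBy C Z (D j)) (z j) = 0
    rw [h2, map_zero]

/-- **Semisimplicity.** -/
theorem ss_deg {Q : ℕ} (hQ : Q ≠ 0) {πA : A ⟶ A} {πZ : Z ⟶ Z} (hπA : IsFrobenius C πA Q)
    (φ : ∀ X : 𝒱.Obj, Module.End ℚ (T.M X))
    (hφ : ∀ {X Y : 𝒱.Obj} (Γ : C.A (X.prod Y)) (t : T.M X), φ Y (T.act Γ t) = T.act Γ (φ X t))
    (h : IsDual A Z deg D E) (hT : IsCorrTheory T) (hK : HasKunneth T A Z deg D) (n : ℤ) :
    (∀ t ∈ T.gr (A.prod Z) n, T.act (C.cograph (prodMap πA πZ)) (φ _ t) = (Q : ℚ) ^ n • t) ↔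
      ∀ j, ∀ t ∈ T.gr Z (n - deg j), T.act (C.cograph πZ) (φ _ t) = (Q : ℚ) ^ (n - deg j) • t := by
  classical
  have hQ' : (Q : ℚ) ≠ 0 := by exact_mod_cast hQ
  have hpow : ∀ j, (Q : ℚ) ^ deg j * (Q : ℚ) ^ (n - deg j) = (Q : ℚ) ^ n := by
    intro j
    rw [← zpow_natCast, ← zpow_add₀ hQ']
    congr 1
    ring
  constructor
  · intro hs j t ht
    have h1 := act_ext_mem hT h j ht
    rw [sub_add_cancel] at h1
    have h2 := hs _ h1
    rw [hφ, frob_ext hT hπA πZ h j] at h2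
    have h3 := congrArg (T.act (pairBy C Z (E j))) h2
    rw [map_smul, map_smul, map_smul, act_pair_ext hT h, act_pair_ext hT h, if_pos rfl,
      if_pos rfl, ← hpow j, mul_smul] at h3
    exact smul_right_injective _ (pow_ne_zero (deg j) hQ') h3
  · intro hs t ht
    obtain ⟨z, ⟨hz, htz⟩, -⟩ := hK n t ht
    change t = ∑ j, T.act (extBy C Z (D j)) (z j) at htz
    rw [htz, map_sum, map_sum, Finset.smul_sum]
    refine Finset.sum_congr rfl fun j _ => ?_
    rw [hφ, frob_ext hT hπA πZ h j, hs j (z j) (hz j), smul_smul, hpow, map_smul]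

end degs

end Pool.Agent.N876.CG
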