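import Mathlib
import Pool.Agent.N876.CG.RelApp

/-!
# Integral forms of theories: finite generation and exponents
-/

set_option autoImplicit false
set_option linter.unusedSectionVars false

open CategoryTheory AlgebraicGeometry

universe u

namespace Pool.Agent.N876.CG

open Module Polynomial Pool.Agent.H914 Pool.Agent.H914.VarClass Pool.Agent.H914.VarClass.Obj
  Pool.Agent.W492.BB Pool.Agent.W550.Corr Pool.Agent.W484.TB Pool.Agent.W484.CH

/-- the group is killed by a positive integer -/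
def HasExp (G : Type) [AddCommGroup G] : Prop := ∃ N : ℕ, 0 < N ∧ ∀ x : G, N • x = 0

theorem fg_of_smul {G : Type} [AddCommGroup G] (N : ℕ) (hker : Finite (nsmulAddMonoidHom N : G →+ G).ker)
    (S : Submodule ℤ G) (hS : S.FG) (h : ∀ x : G, N • x ∈ S) : AddGroup.FG G := by
  have : IsNoetherian ℤ S := isNoetherian_of_fg_of_noetherian _ hS
  let f : G →ₗ[ℤ] S :=
    { toFun := fun x => ⟨N • x, h x⟩
      map_add' := fun x y => Subtype.ext (nsmul_add x y N)
      map_smul' := fun a x => Subtype.ext (smul_comm N a x) }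
  have hk : Finite (LinearMap.ker f) := by
    refine Finite.of_injective (fun x => (⟨x.1, by
      have h1 := congrArg Subtype.val (LinearMap.mem_ker.1 x.2)
      exact h1⟩ : (nsmulAddMonoidHom N : G →+ G).ker)) fun x y hxy => ?_
    have h2 := congrArg (fun z : (nsmulAddMonoidHom N : G →+ G).ker => (z : G)) hxy
    exact Subtype.ext h2
  have h1 : IsNoetherian ℤ G := by
    refine isNoetherian_of_range_eq_ker (LinearMap.ker f).subtype f ?_
    rw [Submodule.range_subtype]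
  have h2 : Module.Finite ℤ G := inferInstance
  exact Module.Finite.iff_addGroup_fg.1 h2

variable {k : Type u} [Field k] {𝒱 : VarClass k} {C : TheoryData.{u, 0, 0} 𝒱 ℚ}

/-- Groups `G X n` with maps `r` to the theory `T` with finite kernels, and quotients `Q X n`,
on which multiples of all correspondences act. -/
structure Integ (T : CorrData C) (G Q : 𝒱.Obj → ℤ → Type) [∀ X n, AddCommGroup (G X n)]
    [∀ X n, AddCommGroup (Q X n)] (π : ∀ X n, G X n →+ Q X n) (r : ∀ X n, G X n → T.M X) :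
    Prop where
  add : ∀ X n x y, r X n (x + y) = r X n x + r X n y
  surj : ∀ X n, Function.Surjective (π X n)
  mem : ∀ X n x, r X n x ∈ T.gr X n
  kernel : ∀ X n, {x | r X n x = 0}.Finite
  corr : ∀ {X Y : 𝒱.Obj} {j : ℤ} {c : C.A (X.prod Y)}, C.Deg (X.dim + j) c → ∀ n m : ℤ,
    m = n + j → ∃ (M : ℕ) (F : G X n →+ G Y m) (F' : Q X n →+ Q Y m), 0 < M ∧
      (∀ x, π Y m (F x) = F' (π X n x)) ∧ ∀ x, r Y m (F x) = M • T.act c (r X n x)

variable {T : CorrData C} {G Q : 𝒱.Obj → ℤ → Type} [∀ X n, AddCommGroup (G X n)]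
    [∀ X n, AddCommGroup (Q X n)] {π : ∀ X n, G X n →+ Q X n} {r : ∀ X n, G X n → T.M X}

theorem Integ.smul (hI : Integ T G Q π r) {X : 𝒱.Obj} {n : ℤ} (N : ℕ) (x : G X n) :
    r X n (N • x) = N • r X n x := by
  have h1 : ∀ x, r X n x = (AddMonoidHom.mk' (r X n) (hI.add X n)) x := fun x => rfl
  rw [h1, h1, map_nsmul]

theorem Integ.zero (hI : Integ T G Q π r) {X : 𝒱.Obj} {n : ℤ} : r X n 0 = 0 := by
  have h1 : ∀ x, r X n x = (AddMonoidHom.mk' (r X n) (hI.add X n)) x := fun x => rfl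
  rw [h1, map_zero]

theorem Integ.neg (hI : Integ T G Q π r) {X : 𝒱.Obj} {n : ℤ} (x : G X n) :
    r X n (-x) = -r X n x := by
  have h1 : ∀ x, r X n x = (AddMonoidHom.mk' (r X n) (hI.add X n)) x := fun x => rfl
  rw [h1, h1, map_neg]

theorem Integ.sum (hI : Integ T G Q π r) {X : 𝒱.Obj} {n : ℤ} {J : Type} (s : Finset J)
    (f : J → G X n) : r X n (∑ j ∈ s, f j) = ∑ j ∈ s, r X n (f j) := by
  have h1 : ∀ x, r X n x = (AddMonoidHom.mk' (r X n) (hI.add X n)) x := fun x => rfl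
  rw [h1, map_sum]
  rfl

/-- the torsion is killed by an integer -/
theorem Integ.exp (hI : Integ T G Q π r) (X : 𝒱.Obj) (n : ℤ) :
    ∃ N : ℕ, 0 < N ∧ ∀ x, r X n x = 0 → N • x = 0 := by
  let K : AddSubgroup (G X n) := (AddMonoidHom.mk' (r X n) (hI.add X n)).ker
  have hK : Finite K := (hI.kernel X n).to_subtype
  refine ⟨Nat.card K, Nat.card_pos, fun x hx => ?_⟩
  have h1 : Nat.card K • (⟨x, hx⟩ : K) = 0 := card_nsmul_eq_zero'
  exact congrArg Subtype.val h1

/-- kernels of multiplications -/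
theorem Integ.ker (hI : Integ T G Q π r) (X : 𝒱.Obj) (n : ℤ) {N : ℕ} (hN : 0 < N) :
    Finite (nsmulAddMonoidHom N : G X n →+ G X n).ker := by
  have hf := (hI.kernel X n).to_subtype
  refine Finite.of_injective (β := {x | r X n x = 0}) (fun x => ⟨x.1, ?_⟩) fun x y hxy => ?_
  · have h1 : N • x.1 = 0 := x.2
    have h2 := hI.smul N x.1
    rw [h1, hI.zero, ← Nat.cast_smul_eq_nsmul ℚ] at h2
    exact (smul_eq_zero.1 h2.symm).resolve_left (by exact_mod_cast hN.ne')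
  · exact Subtype.ext (congrArg (fun z : {x | r X n x = 0} => (z : G X n)) hxy)

variable [hC : IsChow C] {A Z : 𝒱.Obj} {J : Type} [Fintype J] {deg : J → ℕ} {D E : J → C.A A}

/-- the composition `E_j^* (D_j × x)` -/
theorem Integ.down (hI : Integ T G Q π r) (h : IsDual A Z deg D E) (hT : IsCorrTheory T) (n : ℤ)
    (j : J) : ∃ (N : ℕ) (F₁ : G Z (n - deg j) →+ G (A.prod Z) n)
      (F₁' : Q Z (n - deg j) →+ Q (A.prod Z) n) (F₂ : G (A.prod Z) n →+ G Z (n - deg j))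
      (F₂' : Q (A.prod Z) n →+ Q Z (n - deg j)), 0 < N ∧
      (∀ x, N • x = F₂ (F₁ x)) ∧ ∀ x, N • x = F₂' (F₁' x) := by
  obtain ⟨M₁, F₁, F₁', hM₁, h1, h2⟩ := hI.corr (extBy_mem (Z := Z) (h.left j)) (n - deg j) n (by ring)
  obtain ⟨M₂, F₂, F₂', hM₂, h3, h4⟩ := hI.corr (pairBy_mem (Z := Z) (h.right j)) n (n - deg j) (by ring)
  obtain ⟨N, hN, hN'⟩ := hI.exp Z (n - deg j)
  have hG : ∀ x, (N * (M₁ * M₂)) • x = ((nsmulAddMonoidHom N).comp F₂) (F₁ x) := by
    intro x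
    have h5 : r Z (n - deg j) (F₂ (F₁ x) + -((M₁ * M₂) • x)) = 0 := by
      rw [hI.add, hI.neg, hI.smul, h4, h2, map_nsmul, act_pair_ext hT h, if_pos rfl, smul_smul,
        mul_comm M₂ M₁, add_neg_cancel]
    have h6 := hN' _ h5
    rw [nsmul_add, smul_neg, ← sub_eq_add_neg, sub_eq_zero, smul_smul] at h6
    exact h6.symm
  refine ⟨N * (M₁ * M₂), F₁, F₁', (nsmulAddMonoidHom N).comp F₂, (nsmulAddMonoidHom N).comp F₂',
    by positivity, hG, fun x => ?_⟩
  obtain ⟨y, rfl⟩ := hI.surj Z (n - deg j) x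
  rw [← map_nsmul, hG]
  change π _ _ (N • F₂ (F₁ y)) = N • F₂' (F₁' (π _ _ y))
  rw [map_nsmul, h3, h1]

/-- the decomposition of a multiple of an element of `G (A × Z) n` -/
theorem Integ.up (hI : Integ T G Q π r) (h : IsDual A Z deg D E) (hT : IsCorrTheory T)
    (hK : HasKunneth T A Z deg D) (n : ℤ) :
    ∃ (N : ℕ) (F₁ : ∀ j, G Z (n - deg j) →+ G (A.prod Z) n)
      (F₁' : ∀ j, Q Z (n - deg j) →+ Q (A.prod Z) n)
      (F₂ : ∀ j, G (A.prod Z) n →+ G Z (n - deg j))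
      (F₂' : ∀ j, Q (A.prod Z) n →+ Q Z (n - deg j)), 0 < N ∧
      (∀ x, N • x = ∑ j, F₁ j (F₂ j x)) ∧ (∀ x, N • x = ∑ j, F₁' j (F₂' j x)) ∧
      ∀ j, ∃ M : ℕ, ∀ y, r _ _ (F₁ j y) = M • T.act (extBy C Z (D j)) (r _ _ y) := by
  classical
  choose M₁ F₁ F₁' hM₁ h1 h2 using fun j =>
    hI.corr (extBy_mem (Z := Z) (h.left j)) (n - deg j) n (by ring)
  choose M₂ F₂ F₂' hM₂ h3 h4 using fun j =>
    hI.corr (pairBy_mem (Z := Z) (h.right j)) n (n - deg j) (by ring)
  obtain ⟨N, hN, hN'⟩ := hI.exp (A.prod Z) n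
  set P := ∏ j, (M₁ j * M₂ j) with hP
  have hPj : ∀ j, ∃ c, P = c * (M₁ j * M₂ j) := fun j => by
    obtain ⟨c, hc⟩ := Finset.dvd_prod_of_mem (fun j => M₁ j * M₂ j) (Finset.mem_univ j)
    exact ⟨c, by rw [hP, hc, mul_comm]⟩
  choose c hc using hPj
  have hG : ∀ x, (N * P) • x =
      ∑ j, ((nsmulAddMonoidHom (N * c j)).comp (F₁ j)) (F₂ j x) := by
    intro x
    obtain ⟨z, ⟨hz, hrz⟩, -⟩ := hK n (r _ n x) (hI.mem _ n x)
    have hzj : ∀ j, z j = T.act (pairBy C Z (E j)) (r _ n x) := by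
      intro j
      rw [hrz]
      exact (pair_ext_sum hT h j z).symm
    have h5 : r (A.prod Z) n ((∑ j, (c j) • F₁ j (F₂ j x)) + -(P • x)) = 0 := by
      rw [hI.add, hI.neg, hI.smul, hI.sum]
      have h6 : ∀ j, r (A.prod Z) n (c j • F₁ j (F₂ j x)) =
          P • T.act (extBy C Z (D j)) (z j) := by
        intro j
        rw [hI.smul, h2, h4, map_nsmul, ← hzj, smul_smul, smul_smul, mul_assoc, ← hc j]
      rw [Finset.sum_congr rfl fun j _ => h6 j, ← Finset.smul_sum, ← hrz, add_neg_cancel]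
    have h6 := hN' _ h5
    rw [nsmul_add, smul_neg, ← sub_eq_add_neg, sub_eq_zero, smul_smul, Finset.smul_sum] at h6
    rw [← h6]
    refine Finset.sum_congr rfl fun j _ => ?_
    rw [smul_smul]
    rfl
  refine ⟨N * P, fun j => (nsmulAddMonoidHom (N * c j)).comp (F₁ j),
    fun j => (nsmulAddMonoidHom (N * c j)).comp (F₁' j), F₂, F₂', ?_, hG, fun x => ?_, fun j =>
      ⟨N * c j * M₁ j, fun y => ?_⟩⟩
  · refine Nat.mul_pos hN (Finset.prod_pos fun j _ => Nat.mul_pos (hM₁ j) (hM₂ j))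
  · obtain ⟨y, rfl⟩ := hI.surj (A.prod Z) n x
    rw [← map_nsmul, hG, map_sum]
    refine Finset.sum_congr rfl fun j _ => ?_
    change π _ _ ((N * c j) • F₁ j (F₂ j y)) = (N * c j) • F₁' j (F₂' j (π _ _ y))
    rw [map_nsmul, h1, h3]
  · change r _ _ ((N * c j) • F₁ j y) = _
    rw [hI.smul, h2, smul_smul]

/-- **Exponents.** -/
theorem exp_deg (hI : Integ T G Q π r) (h : IsDual A Z deg D E) (hT : IsCorrTheory T)
    (hK : HasKunneth T A Z deg D) (n : ℤ) :
    HasExp (Q (A.prod Z) n) ↔ ∀ j, HasExp (Q Z (n - deg j)) := by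
  constructor
  · rintro ⟨M, hM, hx⟩ j
    obtain ⟨N, F₁, F₁', F₂, F₂', hN, -, h2⟩ := hI.down h hT n j
    refine ⟨M * N, Nat.mul_pos hM hN, fun x => ?_⟩
    rw [mul_smul, h2, ← map_nsmul, hx, map_zero]
  · intro hj
    choose M hM hx using hj
    obtain ⟨N, F₁, F₁', F₂, F₂', hN, -, h2, -⟩ := hI.up h hT hK n
    refine ⟨(∏ j, M j) * N, Nat.mul_pos (Finset.prod_pos fun j _ => hM j) hN, fun x => ?_⟩
    rw [mul_smul, h2, Finset.smul_sum]
    refine Finset.sum_eq_zero fun j _ => ?_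
    obtain ⟨c, hc⟩ := Finset.dvd_prod_of_mem M (Finset.mem_univ j)
    rw [hc, mul_comm, mul_smul, ← map_nsmul, hx, map_zero, smul_zero]

/-- **Finite generation.** -/
theorem fg_deg (hI : Integ T G Q π r) (h : IsDual A Z deg D E) (hT : IsCorrTheory T)
    (hK : HasKunneth T A Z deg D) (n : ℤ) :
    AddGroup.FG (G (A.prod Z) n) ↔ ∀ j, AddGroup.FG (G Z (n - deg j)) := by
  constructor
  · intro hfg j
    obtain ⟨N, F₁, F₁', F₂, F₂', hN, h1, -⟩ := hI.down h hT n j
    have hfin : Module.Finite ℤ (G (A.prod Z) n) := Module.Finite.iff_addGroup_fg.2 hfg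
    refine fg_of_smul N (hI.ker _ _ hN) (LinearMap.range F₂.toIntLinearMap) ?_ fun x => ?_
    · rw [LinearMap.range_eq_map]
      exact Submodule.FG.map _ hfin.fg_top
    · rw [h1]
      exact ⟨F₁ x, rfl⟩
  · intro hj
    obtain ⟨N, F₁, F₁', F₂, F₂', hN, h1, -, -⟩ := hI.up h hT hK n
    refine fg_of_smul N (hI.ker _ _ hN) (⨆ j, LinearMap.range (F₁ j).toIntLinearMap) ?_ fun x => ?_
    · refine Submodule.fg_iSup _ fun j => ?_
      have hfin : Module.Finite ℤ (G Z (n - deg j)) := Module.Finite.iff_addGroup_fg.2 (hj j)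
      rw [LinearMap.range_eq_map]
      exact Submodule.FG.map _ hfin.fg_top
    · rw [h1]
      exact Submodule.sum_mem _ fun j _ =>
        (le_iSup (fun j => LinearMap.range (F₁ j).toIntLinearMap) j) ⟨F₂ j x, rfl⟩

end Pool.Agent.N876.CG
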