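import Mathlib
import Pool.Agent.N876.CG.ExpG

/-!
# Decompositions of integral theories up to finite groups
-/

set_option autoImplicit false
set_option linter.unusedSectionVars false

open CategoryTheory AlgebraicGeometry

universe u

namespace Pool.Agent.N876.CG

open Module Polynomial Pool.Agent.H914 Pool.Agent.H914.VarClass Pool.Agent.H914.VarClass.Obj
  Pool.Agent.W492.BB Pool.Agent.W550.Corr Pool.Agent.W484.TB Pool.Agent.W484.CH

/-- there is a homomorphism with finite kernel and cokernel -/
def Isog (A B : Type) [AddCommGroup A] [AddCommGroup B] : Prop :=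
  ∃ f : A →+ B, Finite f.ker ∧ Finite (B ⧸ f.range)

section grp

variable {A B C : Type} [AddCommGroup A] [AddCommGroup B] [AddCommGroup C]

theorem Isog.refl : Isog A A := by
  refine ⟨AddMonoidHom.id A, ?_, ?_⟩
  · refine Finite.of_injective (β := PUnit.{1}) (fun _ => PUnit.unit) fun x y _ => ?_
    have hx : (x : A) = 0 := x.2
    have hy : (y : A) = 0 := y.2
    exact Subtype.ext (hx.trans hy.symm)
  · have h1 : (AddMonoidHom.id A).range = ⊤ := AddMonoidHom.range_eq_top.2 fun x => ⟨x, rfl⟩
    rw [h1]
    have := QuotientAddGroup.subsingleton_quotient_top (G := A)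
    exact Finite.of_subsingleton

theorem finite_of_extension {G : Type} [AddCommGroup G] (S : AddSubgroup G) (h1 : Finite S)
    (h2 : Finite (G ⧸ S)) : Finite G := by
  have h3 := AddSubgroup.addGroupEquivQuotientProdAddSubgroup (s := S)
  exact Finite.of_equiv _ h3.symm

theorem finite_comp_ker {f : A →+ B} {g : B →+ C} (hf : Finite f.ker) (hg : Finite g.ker) :
    Finite (g.comp f).ker := by
  let φ : (g.comp f).ker →+ g.ker := (f.comp (g.comp f).ker.subtype).codRestrict g.ker
    fun x => x.2
  have h1 : Finite φ.ker := by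
    refine Finite.of_injective (β := f.ker) (fun x => ⟨x.1.1, ?_⟩) fun x y hxy => ?_
    · have h2 : φ x.1 = 0 := x.2
      exact congrArg Subtype.val h2
    · have h3 := congrArg (fun z : f.ker => (z : A)) hxy
      exact Subtype.ext (Subtype.ext h3)
  refine finite_of_extension φ.ker h1 ?_
  exact Finite.of_injective (QuotientAddGroup.kerLift φ) (QuotientAddGroup.kerLift_injective φ)

theorem finite_comp_coker {f : A →+ B} {g : B →+ C} (hf : Finite (B ⧸ f.range))
    (hg : Finite (C ⧸ g.range)) : Finite (C ⧸ (g.comp f).range) := by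
  let S : AddSubgroup (C ⧸ (g.comp f).range) :=
    g.range.map (QuotientAddGroup.mk' (g.comp f).range)
  have hle : (g.comp f).range ≤ g.range := by
    rintro _ ⟨x, rfl⟩
    exact ⟨f x, rfl⟩
  refine finite_of_extension S ?_ ?_
  · let ψ : B →+ S := ((QuotientAddGroup.mk' (g.comp f).range).comp g).codRestrict S
      fun x => ⟨g x, ⟨x, rfl⟩, rfl⟩
    have hψ : Function.Surjective ψ := by
      rintro ⟨_, ⟨_, ⟨x, rfl⟩, rfl⟩⟩
      exact ⟨x, rfl⟩
    have h1 : f.range ≤ ψ.ker := by
      rintro _ ⟨x, rfl⟩
      refine Subtype.ext ?_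
      change (QuotientAddGroup.mk' (g.comp f).range) (g (f x)) = 0
      rw [← AddMonoidHom.mem_ker, QuotientAddGroup.ker_mk']
      exact ⟨x, rfl⟩
    refine Finite.of_surjective (QuotientAddGroup.lift f.range ψ h1) ?_
    intro s
    obtain ⟨x, rfl⟩ := hψ s
    exact ⟨QuotientAddGroup.mk x, rfl⟩
  · have h2 := QuotientAddGroup.quotientQuotientEquivQuotient (g.comp f).range g.range hle
    exact Finite.of_equiv _ h2.symm.toEquiv

theorem Isog.trans (h : Isog A B) (h' : Isog B C) : Isog A C := by
  obtain ⟨f, h1, h2⟩ := h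
  obtain ⟨g, h3, h4⟩ := h'
  exact ⟨g.comp f, finite_comp_ker h1 h3, finite_comp_coker h2 h4⟩

theorem Isog.of_equiv (e : A ≃+ B) : Isog A B := by
  refine ⟨e.toAddMonoidHom, ?_, ?_⟩
  · refine Finite.of_injective (β := PUnit.{1}) (fun _ => PUnit.unit) fun x y _ => ?_
    have hx : e (x : A) = 0 := x.2
    have hy : e (y : A) = 0 := y.2
    exact Subtype.ext (e.injective (hx.trans hy.symm))
  · have h1 : e.toAddMonoidHom.range = ⊤ := AddMonoidHom.range_eq_top.2 e.surjective
    rw [h1]
    have := QuotientAddGroup.subsingleton_quotient_top (G := B)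
    exact Finite.of_subsingleton

/-- products of isogenies -/
theorem Isog.pi {J : Type} [Finite J] {A B : J → Type} [∀ j, AddCommGroup (A j)]
    [∀ j, AddCommGroup (B j)] (h : ∀ j, Isog (A j) (B j)) : Isog (∀ j, A j) (∀ j, B j) := by
  choose f h1 h2 using h
  let F : (∀ j, A j) →+ (∀ j, B j) :=
    { toFun := fun x j => f j (x j)
      map_zero' := funext fun j => map_zero (f j)
      map_add' := fun x y => funext fun j => map_add (f j) (x j) (y j) }
  refine ⟨F, ?_, ?_⟩
  · refine Finite.of_injective (β := ∀ j, (f j).ker)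
      (fun x j => ⟨x.1 j, congrFun (AddMonoidHom.mem_ker.1 x.2) j⟩) fun x y hxy => ?_
    refine Subtype.ext (funext fun j => ?_)
    exact congrArg Subtype.val (congrFun hxy j)
  · let Q : (∀ j, B j) →+ (∀ j, B j ⧸ (f j).range) :=
      { toFun := fun x j => QuotientAddGroup.mk (x j)
        map_zero' := rfl
        map_add' := fun x y => rfl }
    have h3 : Q.ker ≤ F.range := by
      intro x hx
      have h4 : ∀ j, ∃ y, f j y = x j := by
        intro j
        have h5 : (QuotientAddGroup.mk (x j) : B j ⧸ (f j).range) = 0 := congrFun hx j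
        exact (QuotientAddGroup.eq_zero_iff _).1 h5
      choose y hy using h4
      exact ⟨y, funext hy⟩
    have h5 : F.range ≤ Q.ker := by
      rintro _ ⟨y, rfl⟩
      refine funext fun j => ?_
      exact (QuotientAddGroup.eq_zero_iff _).2 ⟨y j, rfl⟩
    have h6 : F.range = Q.ker := le_antisymm h5 h3
    rw [h6]
    exact Finite.of_injective (QuotientAddGroup.kerLift Q) (QuotientAddGroup.kerLift_injective Q)

theorem Isog.finite_iff (h : Isog A B) : Finite A ↔ Finite B := by
  obtain ⟨f, h1, h2⟩ := h
  constructor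
  · intro hA
    refine finite_of_extension f.range ?_ h2
    exact Finite.of_surjective f.rangeRestrict f.rangeRestrict_surjective
  · intro hB
    refine finite_of_extension f.ker h1 ?_
    exact Finite.of_injective (QuotientAddGroup.kerLift f) (QuotientAddGroup.kerLift_injective f)

theorem noeth_iff : AddGroup.FG A ↔ IsNoetherian ℤ A := by
  constructor
  · intro h
    have h1 : Module.Finite ℤ A := Module.Finite.iff_addGroup_fg.2 h
    infer_instance
  · intro h
    exact Module.Finite.iff_addGroup_fg.1 inferInstance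

theorem Isog.fg_iff (h : Isog A B) : AddGroup.FG A ↔ AddGroup.FG B := by
  obtain ⟨f, h1, h2⟩ := h
  rw [noeth_iff, noeth_iff]
  have hk : Finite (LinearMap.ker f.toIntLinearMap) := h1
  have hq : Finite (B ⧸ LinearMap.range f.toIntLinearMap) := h2
  have hk' : IsNoetherian ℤ (LinearMap.ker f.toIntLinearMap) := inferInstance
  have hq' : IsNoetherian ℤ (B ⧸ LinearMap.range f.toIntLinearMap) := inferInstance
  constructor
  · intro hA
    have h3 : IsNoetherian ℤ (LinearMap.range f.toIntLinearMap) :=
      isNoetherian_of_surjective f.toIntLinearMap.rangeRestrict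
        (LinearMap.range_rangeRestrict _)
    exact isNoetherian_of_range_eq_ker (LinearMap.range f.toIntLinearMap).subtype
      (LinearMap.range f.toIntLinearMap).mkQ (by rw [Submodule.range_subtype, Submodule.ker_mkQ])
  · intro hB
    exact isNoetherian_of_range_eq_ker (LinearMap.ker f.toIntLinearMap).subtype
      f.toIntLinearMap (by rw [Submodule.range_subtype])

theorem fg_pi_iff {J : Type} [Finite J] {A : J → Type} [∀ j, AddCommGroup (A j)] :
    AddGroup.FG (∀ j, A j) ↔ ∀ j, AddGroup.FG (A j) := by
  classical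
  constructor
  · intro h j
    have h1 : Module.Finite ℤ (∀ j, A j) := Module.Finite.iff_addGroup_fg.2 h
    have h2 : Module.Finite ℤ (A j) := Module.Finite.of_surjective
      (LinearMap.proj (R := ℤ) (φ := A) j) fun x => ⟨Pi.single j x, by simp⟩
    exact Module.Finite.iff_addGroup_fg.1 h2
  · intro h
    have h1 : ∀ j, Module.Finite ℤ (A j) := fun j => Module.Finite.iff_addGroup_fg.2 (h j)
    exact Module.Finite.iff_addGroup_fg.1 inferInstance

theorem finite_pi_iff {J : Type} [Finite J] {A : J → Type} [∀ j, AddCommGroup (A j)] :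
    Finite (∀ j, A j) ↔ ∀ j, Finite (A j) := by
  classical
  constructor
  · intro h j
    exact Finite.of_surjective (fun f : ∀ j, A j => f j) fun x => ⟨Pi.single j x, by simp⟩
  · intro h
    infer_instance

end grp

end Pool.Agent.N876.CG
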