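import Mathlib
import Pool.Agent.N876.CG.IsoG
import Pool.Agent.N876.CG.RelT

/-!
# Decompositions of integral theories up to finite groups
-/

set_option autoImplicit false
set_option linter.unusedSectionVars false

open CategoryTheory AlgebraicGeometry

universe u

namespace Pool.Agent.N876.CG

open Module Polynomial Pool.Agent.H914 Pool.Agent.H914.VarClass Pool.Agent.H914.VarClass.Obj
  Pool.Agent.W492.BB Pool.Agent.W550.Corr Pool.Agent.W484.TB Pool.Agent.W484.CH

variable {k : Type u} [Field k] {𝒱 : VarClass k} {C : TheoryData.{u, 0, 0} 𝒱 ℚ}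

/-- Groups `G X n` with maps `r` to the theory `T`, on which multiples of all correspondences act. -/
structure Lift (T : CorrData C) (G : 𝒱.Obj → ℤ → Type) [∀ X n, AddCommGroup (G X n)]
    (r : ∀ X n, G X n → T.M X) : Prop where
  add : ∀ X n x y, r X n (x + y) = r X n x + r X n y
  mem : ∀ X n x, r X n x ∈ T.gr X n
  corr : ∀ {X Y : 𝒱.Obj} {j : ℤ} {c : C.A (X.prod Y)}, C.Deg (X.dim + j) c → ∀ n m : ℤ,
    m = n + j → ∃ (M : ℕ) (F : G X n →+ G Y m), 0 < M ∧
      ∀ x, r Y m (F x) = M • T.act c (r X n x)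

variable {T : CorrData C} {G : 𝒱.Obj → ℤ → Type} [∀ X n, AddCommGroup (G X n)]
  {r : ∀ X n, G X n → T.M X}

/-- the map as a homomorphism -/
def Lift.hom (hI : Lift T G r) (X : 𝒱.Obj) (n : ℤ) : G X n →+ T.M X :=
  AddMonoidHom.mk' (r X n) (hI.add X n)

theorem exp_of_finite {A B : Type} [AddCommGroup A] [AddCommGroup B] (f : A →+ B)
    (h : {x | f x = 0}.Finite) : ∃ N : ℕ, 0 < N ∧ ∀ x, f x = 0 → N • x = 0 := by
  have hK : Finite f.ker := h.to_subtype
  refine ⟨Nat.card f.ker, Nat.card_pos, fun x hx => ?_⟩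
  have h1 : Nat.card f.ker • (⟨x, hx⟩ : f.ker) = 0 := card_nsmul_eq_zero'
  exact congrArg Subtype.val h1

variable [hC : IsChow C] {A Z : 𝒱.Obj} {J : Type} [Fintype J] {deg : J → ℕ} {D E : J → C.A A}

/-- **The step.** -/
theorem Lift.isog (hI : Lift T G r) (h : IsDual A Z deg D E) (hT : IsCorrTheory T)
    (hK : HasKunneth T A Z deg D) (n : ℤ) (hfin : {x | r (A.prod Z) n x = 0}.Finite)
    (hfinZ : ∀ j, {x | r Z (n - deg j) x = 0}.Finite)
    (hdiv : ∀ N : ℕ, 0 < N → Finite (G (A.prod Z) n ⧸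
      (nsmulAddMonoidHom N : G (A.prod Z) n →+ G (A.prod Z) n).range)) :
    Isog (∀ j, G Z (n - deg j)) (G (A.prod Z) n) := by
  classical
  choose M₁ F₁ hM₁ h2 using fun j =>
    hI.corr (extBy_mem (Z := Z) (h.left j)) (n - deg j) n (by ring)
  choose M₂ F₂ hM₂ h4 using fun j =>
    hI.corr (pairBy_mem (Z := Z) (h.right j)) n (n - deg j) (by ring)
  have hr : ∀ X n x, r X n x = hI.hom X n x := fun X n x => rfl
  obtain ⟨N, hN, hN'⟩ := exp_of_finite (hI.hom (A.prod Z) n) hfin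
  set P := ∏ j, (M₁ j * M₂ j) with hP
  have hPj : ∀ j, ∃ c, P = c * (M₁ j * M₂ j) := fun j => by
    obtain ⟨c, hc⟩ := Finset.dvd_prod_of_mem (fun j => M₁ j * M₂ j) (Finset.mem_univ j)
    exact ⟨c, by rw [hP, hc, mul_comm]⟩
  choose c hc using hPj
  let Φ : (∀ j, G Z (n - deg j)) →+ G (A.prod Z) n :=
    ∑ j, (F₁ j).comp (Pi.evalAddMonoidHom (fun j => G Z (n - deg j)) j)
  have hΦ : ∀ y, Φ y = ∑ j, F₁ j (y j) := by
    intro y
    simp only [Φ, AddMonoidHom.finset_sum_apply, AddMonoidHom.comp_apply,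
      Pi.evalAddMonoidHom_apply]
  have hG : ∀ x, (N * P) • x = Φ fun j => (N * c j) • F₂ j x := by
    intro x
    obtain ⟨z, ⟨hz, hrz⟩, -⟩ := hK n (r _ n x) (hI.mem _ n x)
    have hzj : ∀ j, z j = T.act (pairBy C Z (E j)) (r _ n x) := by
      intro j
      rw [hrz]
      exact (pair_ext_sum hT h j z).symm
    have h5 : hI.hom (A.prod Z) n ((∑ j, (c j) • F₁ j (F₂ j x)) - P • x) = 0 := by
      rw [map_sub, map_sum, map_nsmul, sub_eq_zero]
      have h6 : ∀ j, hI.hom (A.prod Z) n (c j • F₁ j (F₂ j x)) =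
          P • T.act (extBy C Z (D j)) (z j) := by
        intro j
        rw [map_nsmul, ← hr, h2, h4, map_nsmul, ← hzj, smul_smul, smul_smul, mul_assoc, ← hc j]
      rw [Finset.sum_congr rfl fun j _ => h6 j, ← Finset.smul_sum, ← hrz]
      rfl
    have h6 := hN' _ h5
    rw [smul_sub, sub_eq_zero, smul_smul, Finset.smul_sum] at h6
    rw [← h6, hΦ]
    refine Finset.sum_congr rfl fun j _ => ?_
    rw [smul_smul, map_nsmul]
  refine ⟨Φ, ?_, ?_⟩
  · have h7 : ∀ y : ∀ j, G Z (n - deg j), Φ y = 0 → ∀ i, r Z (n - deg i) (y i) = 0 := by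
      intro y hy i
      have h8 := congrArg (hI.hom (A.prod Z) n) (hΦ y)
      rw [hy, map_zero, map_sum] at h8
      have h9 : ∀ j, hI.hom (A.prod Z) n (F₁ j (y j)) =
          T.act (extBy C Z (D j)) (M₁ j • r _ _ (y j)) := by
        intro j
        rw [← hr, h2, map_nsmul]
      rw [Finset.sum_congr rfl fun j _ => h9 j] at h8
      have h10 := pair_ext_sum hT h i fun j => M₁ j • r Z (n - deg j) (y j)
      rw [← h8, map_zero] at h10
      have h11 : M₁ i • r Z (n - deg i) (y i) = 0 := h10.symm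
      rw [← Nat.cast_smul_eq_nsmul ℚ] at h11
      exact (smul_eq_zero.1 h11).resolve_left (by exact_mod_cast (hM₁ i).ne')
    have hf : ∀ j, Finite {x | r Z (n - deg j) x = 0} := fun j => (hfinZ j).to_subtype
    refine Finite.of_injective (β := ∀ j, {x | r Z (n - deg j) x = 0})
      (fun y j => ⟨y.1 j, h7 y.1 y.2 j⟩) fun x y hxy => ?_
    exact Subtype.ext (funext fun j => congrArg Subtype.val (congrFun hxy j))
  · have hle : (nsmulAddMonoidHom (N * P) : G (A.prod Z) n →+ G (A.prod Z) n).range ≤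
        (QuotientAddGroup.mk' Φ.range).ker := by
      rintro _ ⟨x, rfl⟩
      rw [QuotientAddGroup.ker_mk']
      exact ⟨_, (hG x).symm⟩
    have hfq := hdiv (N * P) (Nat.mul_pos hN (Finset.prod_pos fun j _ =>
      Nat.mul_pos (hM₁ j) (hM₂ j)))
    refine Finite.of_surjective (QuotientAddGroup.lift _ (QuotientAddGroup.mk' Φ.range) hle) ?_
    intro s
    obtain ⟨x, rfl⟩ := QuotientAddGroup.mk'_surjective Φ.range s
    exact ⟨QuotientAddGroup.mk x, rfl⟩

section tower

variable {K : Type} [Field K] [CharZero K] [IsAlgClosed K] {H : WeilTheoryData.{u, 0, 0} C K}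
  [IsWeil H] {F : ∀ X : 𝒱.Obj, X ⟶ X} {Q : ℕ} {ι : Type} {X : ι → 𝒱.Obj} {S : ι → Set K}
  {B : Set K}

omit [Fintype J] in
theorem isog_cast (V : 𝒱.Obj) {w w' : J → ℤ} (h : ∀ j, w j = w' j) {B : Type} [AddCommGroup B]
    (h' : Isog (∀ j, G V (w' j)) B) : Isog (∀ j, G V (w j)) B := by
  obtain rfl : w = w' := funext h
  exact h'

/-- currying -/
def curryE {J J' : Type} {A : J × J' → Type} [∀ p, AddCommGroup (A p)] :
    (∀ p, A p) ≃+ ∀ j j', A (j, j') where
  toFun f j j' := f (j, j')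
  invFun f p := f p.1 p.2
  left_inv _ := rfl
  right_inv _ := rfl
  map_add' _ _ := rfl

/-- functions on a point -/
def unitE {A : Type} [AddCommGroup A] : (∀ _ : Unit, A) ≃+ A where
  toFun f := f ()
  invFun x _ := x
  left_inv _ := rfl
  right_inv _ := rfl
  map_add' _ _ := rfl

/-- **The decomposition of `G (tw X Z L) n` up to finite groups.** -/
theorem Cr.isog (h : Cr H F Q X Z S B) (hbig : ∀ i, Big H (X i)) {L : List ι} (hL : L.Nodup) :
    ∃ (J : Type) (_ : Fintype J) (deg : J → ℕ), (∀ j, deg j ≤ dims X L) ∧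
      (∀ l ≤ dims X L, ∃ j, deg j = l) ∧
      ∀ (T : CorrData C) (φ : ∀ X : 𝒱.Obj, Module.End ℚ (T.M X)) (χ : ℚ[X]), χ.coeff 0 ≠ 0 →
        (∀ ρ : K, aeval ρ χ = 0 → ρ ∈ B) → RelTheory T φ F Q χ →
        (∀ L : List ι, L.Nodup → NilT H T (tw X Z L)) →
        ∀ (G : 𝒱.Obj → ℤ → Type) [∀ X n, AddCommGroup (G X n)] (r : ∀ X n, G X n → T.M X),
        Lift T G r → ∀ e : ℕ, (∀ (X : 𝒱.Obj) (n : ℤ), X.dim + e < n →
          {x | r X n x = 0}.Finite ∧ ∀ N : ℕ, 0 < N → Finite (G X n ⧸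
            (nsmulAddMonoidHom N : G X n →+ G X n).range)) →
        ∀ n : ℤ, (tw X Z L).dim + e < n → ∀ w : J → ℤ, (∀ j, w j = n - deg j) →
          Isog (∀ j, G Z (w j)) (G (tw X Z L) n) := by
  classical
  induction L with
  | nil =>
    refine ⟨Unit, inferInstance, fun _ => 0, fun _ => Nat.zero_le _, fun l hl => ⟨(), ?_⟩, ?_⟩
    · simp only [dims] at hl
      change 0 = l
      omega
    · intro T φ χ _ _ _ _ G _ r _ e _ n _ w hw
      obtain rfl : w = fun _ => n := funext fun j => by rw [hw j]; simp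
      exact Isog.of_equiv unitE
  | cons i L ih =>
    rw [List.nodup_cons] at hL
    obtain ⟨J', hJ', deg', hd1, hd2, hd3⟩ := ih hL.2
    obtain ⟨J, hJ, deg, D, E, h1, h2, h3⟩ := h.step hL.1 hL.2
    refine ⟨J × J', inferInstance, fun p => deg p.1 + deg' p.2, fun p => ?_, fun l hl => ?_, ?_⟩
    · change deg p.1 + deg' p.2 ≤ (X i).dim + dims X L
      exact Nat.add_le_add (h1.le p.1) (hd1 p.2)
    · change l ≤ (X i).dim + dims X L at hl
      obtain ⟨j, hj⟩ := exists_deg_big (hbig i) h2 (l := min l (X i).dim) (min_le_right _ _)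
      obtain ⟨j', hj'⟩ := hd2 (l - min l (X i).dim) (by omega)
      exact ⟨(j, j'), by
        change deg j + deg' j' = l
        rw [hj, hj']
        omega⟩
    · intro T φ χ hχ0 hχ hT hnil G _ r hI e hfin n hn w hw
      have hK := h3 T φ χ hχ0 hχ hT (hnil (i :: L) (List.nodup_cons.2 hL))
      have hdim : ((tw X Z (i :: L)).dim : ℤ) = (X i).dim + (tw X Z L).dim := by
        change (((X i).prod (tw X Z L)).dim : ℤ) = _
        rw [Obj.dim_prod]
        push_cast
        rfl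
      have hn' : ∀ j, ((tw X Z L).dim : ℤ) + e < n - deg j := by
        intro j
        have h5 := h1.le j
        rw [hdim] at hn
        omega
      have e1 : Isog (∀ j, G (tw X Z L) (n - deg j)) (G (tw X Z (i :: L)) n) :=
        hI.isog h1 hT.corr hK n (hfin _ n hn).1 (fun j => (hfin _ _ (hn' j)).1) (hfin _ n hn).2
      have e2 : ∀ j, Isog (∀ j', G Z (w (j, j'))) (G (tw X Z L) (n - deg j)) := fun j =>
        hd3 T φ χ hχ0 hχ hT hnil G r hI e hfin (n - deg j) (hn' j) (fun j' => w (j, j'))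
          fun j' => by
            rw [hw (j, j')]
            push_cast
            ring
      exact (Isog.of_equiv curryE).trans ((Isog.pi e2).trans e1)

end tower

end Pool.Agent.N876.CG
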