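import Mathlib
import Pool.Agent.N876.CG.ExpG

/-!
# Direct sum decompositions up to finite and finitely generated groups
-/

set_option autoImplicit false
set_option linter.unusedSectionVars false

open CategoryTheory AlgebraicGeometry

universe u

namespace Pool.Agent.N876.CG

open Module Polynomial Pool.Agent.H914 Pool.Agent.H914.VarClass Pool.Agent.H914.VarClass.Obj
  Pool.Agent.W492.BB Pool.Agent.W550.Corr Pool.Agent.W484.TB Pool.Agent.W484.CH

/-- `A` is the direct sum of `B` and a finite group -/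
def PlusFinite (A B : Type) [AddCommGroup A] [AddCommGroup B] : Prop :=
  ∃ (E : Type) (_ : AddCommGroup E), Finite E ∧ Nonempty (A ≃+ B × E)

/-- `A` is the direct sum of `B` and a finitely generated group -/
def PlusFG (A B : Type) [AddCommGroup A] [AddCommGroup B] : Prop :=
  ∃ (E : Type) (_ : AddCommGroup E), AddGroup.FG E ∧ Nonempty (A ≃+ B × E)

section grp

variable {A B C : Type} [AddCommGroup A] [AddCommGroup B] [AddCommGroup C]

/-- the sum with the trivial group -/
def plusUnit : A ≃+ A × PUnit.{1} where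
  toFun a := (a, PUnit.unit)
  invFun a := a.1
  left_inv _ := rfl
  right_inv _ := rfl
  map_add' _ _ := rfl

theorem PlusFinite.refl : PlusFinite A A :=
  ⟨PUnit, inferInstance, inferInstance, ⟨plusUnit⟩⟩

theorem PlusFG.refl : PlusFG A A :=
  ⟨PUnit, inferInstance, inferInstance, ⟨plusUnit⟩⟩

/-- associativity -/
def plusAssoc {E E' : Type} [AddCommGroup E] [AddCommGroup E'] (e : A ≃+ B × E)
    (e' : B ≃+ C × E') : A ≃+ C × (E' × E) where
  toFun a := ((e' (e a).1).1, ((e' (e a).1).2, (e a).2))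
  invFun c := e.symm (e'.symm (c.1, c.2.1), c.2.2)
  left_inv a := by simp
  right_inv c := by simp
  map_add' a b := by simp

theorem PlusFinite.trans (h : PlusFinite A B) (h' : PlusFinite B C) : PlusFinite A C := by
  obtain ⟨E, _, _, ⟨e⟩⟩ := h
  obtain ⟨E', _, _, ⟨e'⟩⟩ := h'
  exact ⟨E' × E, inferInstance, inferInstance, ⟨plusAssoc e e'⟩⟩

theorem PlusFG.trans (h : PlusFG A B) (h' : PlusFG B C) : PlusFG A C := by
  obtain ⟨E, _, h1, ⟨e⟩⟩ := h
  obtain ⟨E', _, h2, ⟨e'⟩⟩ := h'
  refine ⟨E' × E, inferInstance, ?_, ⟨plusAssoc e e'⟩⟩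
  have : Module.Finite ℤ E := Module.Finite.iff_addGroup_fg.2 h1
  have : Module.Finite ℤ E' := Module.Finite.iff_addGroup_fg.2 h2
  exact Module.Finite.iff_addGroup_fg.1 inferInstance

variable {P : B →+ A} {S : A →+ B}

/-- the splitting -/
def splitEquiv (P : B →+ A) (S : A →+ B) (h : ∀ x, S (P x) = x) : A ≃+ B × S.ker where
  toFun a := (S a, ⟨a - P (S a), by rw [AddMonoidHom.mem_ker, map_sub, h, sub_self]⟩)
  invFun c := P c.1 + c.2
  left_inv a := by simp
  right_inv c := by
    have h1 : S (c.2 : A) = 0 := c.2.2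
    refine Prod.ext ?_ (Subtype.ext ?_)
    · simp [h, h1]
    · simp [h, h1]
  map_add' a b := by
    refine Prod.ext ?_ (Subtype.ext ?_)
    · simp
    · change a + b - P (S (a + b)) = a - P (S a) + (b - P (S b))
      rw [map_add, map_add]
      abel

theorem plusFinite_of (h : ∀ x, S (P x) = x) (hf : Finite S.ker) : PlusFinite A B :=
  ⟨S.ker, inferInstance, hf, ⟨splitEquiv P S h⟩⟩

theorem plusFG_of (h : ∀ x, S (P x) = x) (hf : AddGroup.FG S.ker) : PlusFG A B :=
  ⟨S.ker, inferInstance, hf, ⟨splitEquiv P S h⟩⟩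

theorem fg_of_inj {f : A →+ B} (hf : Function.Injective f) (hB : AddGroup.FG B) :
    AddGroup.FG A := by
  have h1 : Module.Finite ℤ B := Module.Finite.iff_addGroup_fg.2 hB
  have h2 : IsNoetherian ℤ A := isNoetherian_of_injective f.toIntLinearMap hf
  exact Module.Finite.iff_addGroup_fg.1 inferInstance

theorem fg_of_surj {f : A →+ B} (hf : Function.Surjective f) (hA : AddGroup.FG A) :
    AddGroup.FG B := by
  have h1 : Module.Finite ℤ A := Module.Finite.iff_addGroup_fg.2 hA
  have h2 : Module.Finite ℤ B := Module.Finite.of_surjective f.toIntLinearMap hf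
  exact Module.Finite.iff_addGroup_fg.1 h2

end grp

variable {k : Type u} [Field k] {𝒱 : VarClass k} {C : TheoryData.{u, 0, 0} 𝒱 ℚ}
variable {T : CorrData C} {G Q : 𝒱.Obj → ℤ → Type} [∀ X n, AddCommGroup (G X n)]
    [∀ X n, AddCommGroup (Q X n)] {π : ∀ X n, G X n →+ Q X n} {r : ∀ X n, G X n → T.M X}
variable [hC : IsChow C] {A Z : 𝒱.Obj} {J : Type} [Fintype J] {deg : J → ℕ} {D E : J → C.A A}

theorem Integ.sub (hI : Integ T G Q π r) {X : 𝒱.Obj} {n : ℤ} (x y : G X n) :
    r X n (x - y) = r X n x - r X n y := by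
  rw [sub_eq_add_neg, hI.add, hI.neg, ← sub_eq_add_neg]

theorem Integ.zsmul (hI : Integ T G Q π r) {X : 𝒱.Obj} {n : ℤ} (a : ℤ) (x : G X n) :
    r X n (a • x) = a • r X n x := by
  have h1 : ∀ x, r X n x = (AddMonoidHom.mk' (r X n) (hI.add X n)) x := fun x => rfl
  rw [h1, h1, map_zsmul]

/-- the kernel of the retraction is finitely generated -/
theorem Integ.ker_fg (hI : Integ T G Q π r) (h : IsDual A Z deg D E) (hT : IsCorrTheory T)
    (hK : HasKunneth T A Z deg D) (hone : ∀ j, deg j = 0 → ∃ a : ℚ, D j = a • 1) {n : ℤ}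
    (P : G Z n →+ G (A.prod Z) n) (S : G (A.prod Z) n →+ G Z n) (hSP : ∀ x, S (P x) = x)
    (hP : ∀ x, r _ _ (P x) = T.act (extBy C Z 1) (r _ _ x))
    (hlow : ∀ m < n, AddGroup.FG (G Z m)) : AddGroup.FG S.ker := by
  classical
  obtain ⟨N, F₁, F₁', F₂, F₂', hN, h1, -, h3⟩ := hI.up h hT hK n
  obtain ⟨N', hN', hN''⟩ := hI.exp (A.prod Z) n
  let R : G (A.prod Z) n →+ S.ker :=
    (AddMonoidHom.snd (G Z n) S.ker).comp (splitEquiv P S hSP).toAddMonoidHom
  have hRP : ∀ y, R (P y) = 0 := by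
    intro y
    refine Subtype.ext ?_
    change P y - P (S (P y)) = 0
    rw [hSP, sub_self]
  have hRK : ∀ x : S.ker, R x = x := by
    intro x
    refine Subtype.ext ?_
    change (x : G (A.prod Z) n) - P (S x) = x
    have h4 : S (x : G (A.prod Z) n) = 0 := x.2
    rw [h4, map_zero, sub_zero]
  have hj : ∀ j, ∃ (v : ℕ) (W : Submodule ℤ S.ker), 0 < v ∧ W.FG ∧
      ∀ y, v • R (F₁ j y) ∈ W := by
    intro j
    rcases Nat.eq_zero_or_pos (deg j) with h0 | h0
    · obtain ⟨a, ha⟩ := hone j h0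
      obtain ⟨M, hM⟩ := h3 j
      refine ⟨N' * a.den, ⊥, Nat.mul_pos hN' a.den_pos, Submodule.fg_bot, fun y => ?_⟩
      have h5 : n - deg j = n := by rw [h0]; simp
      obtain ⟨y', hy'⟩ : ∃ y' : G Z n, T.act (extBy C Z 1) (r _ _ y) = r _ _ (P y') := by
        revert y
        rw [h5]
        intro y
        exact ⟨y, (hP y).symm⟩
      have h6 : r _ n (a.den • F₁ j y - (M * a.num : ℤ) • P y') = 0 := by
        rw [hI.sub, hI.smul, hI.zsmul, hM, ha, ← hy']
        have h7 : extBy C Z (a • (1 : C.A A)) = a • extBy C Z 1 := by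
          rw [extBy, extBy, map_smul, map_smul]
        rw [h7, map_smul, LinearMap.smul_apply, ← Nat.cast_smul_eq_nsmul ℚ a.den,
          ← Nat.cast_smul_eq_nsmul ℚ M, ← Int.cast_smul_eq_zsmul ℚ, smul_smul, smul_smul,
          ← sub_smul]
        have h8 : (a.den : ℚ) * (M * a) - ((M * a.num : ℤ) : ℚ) = 0 := by
          have h9 : (a.den : ℚ) * a = a.num := Rat.den_mul_eq_num a
          push_cast
          rw [← h9]
          ring
        rw [← mul_assoc] at h8
        rw [h8, zero_smul]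
      have h7 := hN'' _ h6
      rw [smul_sub, sub_eq_zero, smul_smul] at h7
      have h8 := congrArg R h7
      rw [map_nsmul, map_nsmul, map_zsmul, hRP, smul_zero, smul_zero] at h8
      rw [h8]
      exact Submodule.zero_mem _
    · have hfin : Module.Finite ℤ (G Z (n - deg j)) :=
        Module.Finite.iff_addGroup_fg.2 (hlow _ (by omega))
      refine ⟨1, LinearMap.range (R.comp (F₁ j)).toIntLinearMap, one_pos, ?_, fun y => ?_⟩
      · rw [LinearMap.range_eq_map]
        exact Submodule.FG.map _ hfin.fg_top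
      · rw [one_smul]
        exact ⟨y, rfl⟩
  choose v W hv hW hvW using hj
  have hker : Finite (nsmulAddMonoidHom ((∏ j, v j) * N) : S.ker →+ S.ker).ker := by
    have hf := hI.ker (A.prod Z) n (N := (∏ j, v j) * N)
      (Nat.mul_pos (Finset.prod_pos fun j _ => hv j) hN)
    refine Finite.of_injective (β := (nsmulAddMonoidHom ((∏ j, v j) * N) :
      G (A.prod Z) n →+ G (A.prod Z) n).ker) (fun x => ⟨x.1.1, ?_⟩) fun x y hxy => ?_
    · have h4 : ((∏ j, v j) * N) • x.1 = 0 := x.2
      exact congrArg Subtype.val h4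
    · have h5 := congrArg (fun z : (nsmulAddMonoidHom ((∏ j, v j) * N) :
        G (A.prod Z) n →+ G (A.prod Z) n).ker => (z : G (A.prod Z) n)) hxy
      exact Subtype.ext (Subtype.ext h5)
  refine fg_of_smul _ hker (⨆ j, W j) (Submodule.fg_iSup _ hW) fun x => ?_
  have h4 : N • x = ∑ j, R (F₁ j (F₂ j x)) := by
    rw [← hRK x, ← map_nsmul, ← hRK x, h1, map_sum]
    simp only [hRK]
  rw [mul_smul, h4, Finset.smul_sum]
  refine Submodule.sum_mem _ fun j _ => ?_
  obtain ⟨c, hc⟩ := Finset.dvd_prod_of_mem v (Finset.mem_univ j)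
  rw [hc, mul_comm, mul_smul]
  exact Submodule.smul_of_tower_mem _ _ (le_iSup W j (hvW j _))

/-- **The step.** -/
theorem Integ.step (hI : Integ T G Q π r) (h : IsDual A Z deg D E) (hT : IsCorrTheory T)
    (hK : HasKunneth T A Z deg D) (hone : ∀ j, deg j = 0 → ∃ a : ℚ, D j = a • 1) {n : ℤ}
    (P : G Z n →+ G (A.prod Z) n) (P' : Q Z n →+ Q (A.prod Z) n)
    (S : G (A.prod Z) n →+ G Z n) (S' : Q (A.prod Z) n →+ Q Z n)
    (hPP : ∀ x, π _ _ (P x) = P' (π _ _ x)) (hSS : ∀ x, π _ _ (S x) = S' (π _ _ x))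
    (hSP : ∀ x, S (P x) = x)
    (hP : ∀ x, r _ _ (P x) = T.act (extBy C Z 1) (r _ _ x))
    (hlow : ∀ m < n, AddGroup.FG (G Z m)) (htor : ∀ x : Q (A.prod Z) n, IsOfFinAddOrder x) :
    PlusFG (G (A.prod Z) n) (G Z n) ∧ PlusFinite (Q (A.prod Z) n) (Q Z n) ∧
      PlusFG (π (A.prod Z) n).ker (π Z n).ker := by
  have hfg := hI.ker_fg h hT hK hone P S hSP hP hlow
  have hSP' : ∀ x, S' (P' x) = x := by
    intro x
    obtain ⟨y, rfl⟩ := hI.surj Z n x
    rw [← hPP, ← hSS, hSP]
  refine ⟨plusFG_of hSP hfg, plusFinite_of hSP' ?_, ?_⟩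
  · let f : S.ker →+ S'.ker := ((π (A.prod Z) n).comp S.ker.subtype).codRestrict S'.ker
      fun x => by
        change S' (π _ _ (x : G (A.prod Z) n)) = 0
        have h4 : S (x : G (A.prod Z) n) = 0 := x.2
        rw [← hSS, h4, map_zero]
    have hf : Function.Surjective f := by
      rintro ⟨y, hy⟩
      obtain ⟨x, rfl⟩ := hI.surj _ n y
      have h4 : S' (π _ _ x) = 0 := hy
      refine ⟨⟨x - P (S x), ?_⟩, Subtype.ext ?_⟩
      · rw [AddMonoidHom.mem_ker, map_sub, hSP, sub_self]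
      · change π _ _ (x - P (S x)) = π _ _ x
        rw [map_sub, hPP, hSS, h4, map_zero, sub_zero]
    have h5 : AddGroup.FG S'.ker := fg_of_surj hf hfg
    refine AddCommGroup.finite_of_fg_torsion (hG := fun x => ?_)
    have h6 := isOfFinAddOrder_iff_nsmul_eq_zero.1 (htor (x : Q (A.prod Z) n))
    obtain ⟨m, hm, hmx⟩ := h6
    exact isOfFinAddOrder_iff_nsmul_eq_zero.2 ⟨m, hm, Subtype.ext hmx⟩
  · let Pc : (π Z n).ker →+ (π (A.prod Z) n).ker :=
      (P.comp (π Z n).ker.subtype).codRestrict _ fun x => by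
        change π _ _ (P (x : G Z n)) = 0
        have h4 : π _ _ (x : G Z n) = 0 := x.2
        rw [hPP, h4, map_zero]
    let Sc : (π (A.prod Z) n).ker →+ (π Z n).ker :=
      (S.comp (π (A.prod Z) n).ker.subtype).codRestrict _ fun x => by
        change π _ _ (S (x : G (A.prod Z) n)) = 0
        have h4 : π _ _ (x : G (A.prod Z) n) = 0 := x.2
        rw [hSS, h4, map_zero]
    refine plusFG_of (P := Pc) (S := Sc) (fun x => Subtype.ext (hSP _)) ?_
    let g : Sc.ker →+ S.ker :=
      ((π (A.prod Z) n).ker.subtype.comp Sc.ker.subtype).codRestrict S.ker fun x => by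
        have h4 : Sc (x : (π (A.prod Z) n).ker) = 0 := x.2
        exact congrArg Subtype.val h4
    refine fg_of_inj (f := g) (fun x y hxy => ?_) hfg
    have h5 := congrArg (fun z : S.ker => (z : G (A.prod Z) n)) hxy
    exact Subtype.ext (Subtype.ext h5)

end Pool.Agent.N876.CG
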