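import Mathlib
import Pool.Agent.N876.CG.RelT

/-!
# Pairings between two theories relative to a scheme
-/

set_option autoImplicit false
set_option linter.unusedSectionVars false

open CategoryTheory AlgebraicGeometry
open scoped TensorProduct

universe u

namespace Pool.Agent.N876.CG

open Module Polynomial Pool.Agent.H914 Pool.Agent.H914.VarClass Pool.Agent.H914.VarClass.Obj
  Pool.Agent.W492.BB Pool.Agent.W550.Corr Pool.Agent.W484.TB Pool.Agent.W484.CH

section dual

variable {k : Type u} [Field k] {𝒱 : VarClass k} {C : TheoryData.{u, 0, 0} 𝒱 ℚ} {K : Type}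
  [Field K] [CharZero K] {H : WeilTheoryData.{u, 0, 0} C K} [hC : IsChow C] [hH : IsWeil H]
  {A Z : 𝒱.Obj} {J : Type} [Fintype J] {deg : J → ℕ} {D E : J → C.A A}

/-- exchange of the two systems -/
theorem IsDual.exch (h : IsDual A Z deg D E) : IsDual A Z (fun j => A.dim - deg j) E D where
  le j := Nat.sub_le _ _
  left j := by
    have h1 := h.right j
    have h2 := h.le j
    have h3 : ((A.dim - deg j : ℕ) : ℤ) = (A.dim : ℤ) - deg j := by omega
    rw [h3]
    exact h1
  right j := by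
    have h1 := h.left j
    have h2 := h.le j
    have h3 : (A.dim : ℤ) - ((A.dim - deg j : ℕ) : ℤ) = deg j := by omega
    rw [h3]
    exact h1
  eq i := by
    have h1 : E i * D i = D i * E i := chow_mul_comm _ _
    rw [h1]
    exact h.eq i
  ne i j hij := by
    have h1 : E i * D j = D j * E i := chow_mul_comm _ _
    rw [h1]
    exact h.ne j i (Ne.symm hij)

/-- the second system spans the classes, too -/
theorem span_exch (hS : IsStandard H) (hnd : Nondeg H A) (h : IsDual A Z deg D E)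
    (hN : ∀ n, AK H A n ≤ Submodule.span K {c | ∃ j, deg j = n ∧ c = H.cl (D j)}) (n : ℕ) :
    AK H A n ≤ Submodule.span K {c | ∃ j, A.dim - deg j = n ∧ c = H.cl (E j)} := by
  classical
  intro c hc
  rcases Nat.lt_or_ge A.dim n with hn | hn
  · have h3 : AK H A n ≤ ⊥ := by
      refine Submodule.span_le.2 ?_
      rintro _ ⟨D', hD', rfl⟩
      rw [hS.chow_top _ _ (by exact_mod_cast hn)] at hD'
      rw [(Submodule.mem_bot _).1 hD', map_zero]
      exact Submodule.zero_mem _
    rw [(Submodule.mem_bot _).1 (h3 hc)]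
    exact Submodule.zero_mem _
  -- the coefficients
  obtain ⟨dg', hdg⟩ := exists_deg hS A Z
  have hco : ∀ i, deg i = A.dim - n → ∃ t : K, H.push (snd A Z) (H.pull (fst A Z)
      (H.cl (D i) * c)) = t • 1 := by
    intro i hi
    unfold AK at hc
    induction hc using Submodule.span_induction with
    | mem c hc =>
      obtain ⟨E', hE', rfl⟩ := hc
      have h2 : D i * E' ∈ C.gr A A.dim := by
        have h3 := C.mul_mem (h.left i) hE'
        rw [hi] at h3
        rwa [show ((A.dim - n : ℕ) : ℤ) + (n : ℤ) = A.dim by omega] at h3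
      refine ⟨((dg' (D i * E') : ℚ) : K), ?_⟩
      rw [← map_mul, ← H.cl_pull, ← H.cl_push, hdg _ h2, cl_smul, map_one]
    | zero => exact ⟨0, by rw [mul_zero, map_zero, map_zero, zero_smul]⟩
    | add x y _ _ hx hy =>
      obtain ⟨a, ha⟩ := hx
      obtain ⟨b, hb⟩ := hy
      exact ⟨a + b, by rw [mul_add, map_add, map_add, ha, hb, add_smul]⟩
    | smul r x _ hx =>
      obtain ⟨a, ha⟩ := hx
      exact ⟨r * a, by rw [mul_smul_comm, map_smul, map_smul, ha, mul_smul]⟩
  choose! t ht using hco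
  set s : Finset J := Finset.univ.filter fun j => deg j = A.dim - n with hs
  set c' : H.A A := c - ∑ j ∈ s, t j • H.cl (E j) with hc'
  have hsum : ∑ j ∈ s, t j • H.cl (E j) ∈ AK H A n := by
    refine Submodule.sum_mem _ fun j hj => Submodule.smul_mem _ _ (Submodule.subset_span
      ⟨E j, ?_, rfl⟩)
    have h1 := h.right j
    have h2 : deg j = A.dim - n := (Finset.mem_filter.1 hj).2
    rw [h2] at h1
    have h3 : (A.dim : ℤ) - ((A.dim - n : ℕ) : ℤ) = n := by omega
    rw [h3] at h1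
    exact h1
  have hc0 : c' = 0 := by
    refine hnd n hn c' (Submodule.sub_mem _ hc hsum) ?_
    intro d hd
    have hd' := hN _ hd
    clear hd
    induction hd' using Submodule.span_induction with
    | mem d hd =>
      obtain ⟨i, hi, rfl⟩ := hd
      apply tr_eq_zero_of_push Z
      have hcomm : c' * H.cl (D i) = H.cl (D i) * c' := by
        have h1 : ∀ x ∈ AK H A n, x * H.cl (D i) = H.cl (D i) * x := by
          intro x hx
          unfold AK at hx
          induction hx using Submodule.span_induction with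
          | mem x hx =>
            obtain ⟨E', -, rfl⟩ := hx
            rw [← map_mul, ← map_mul]
            congr 1
            exact chow_mul_comm _ _
          | zero => rw [zero_mul, mul_zero]
          | add x y _ _ hx hy => rw [add_mul, mul_add, hx, hy]
          | smul r x _ hx => rw [smul_mul_assoc, mul_smul_comm, hx]
        exact h1 _ (Submodule.sub_mem _ hc hsum)
      rw [hcomm, hc', mul_sub, map_sub, map_sub, ht i hi, Finset.mul_sum, map_sum, map_sum,
        Finset.sum_eq_single i, sub_eq_zero]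
      · rw [mul_smul_comm, map_smul, map_smul, ← map_mul, ← H.cl_pull, ← H.cl_push, h.eq i,
          map_one]
      · intro j _ hj
        rw [mul_smul_comm, map_smul, map_smul, ← map_mul, ← H.cl_pull, ← H.cl_push,
          h.ne i j (Ne.symm hj), map_zero, smul_zero]
      · intro h0
        exact (h0 (by rw [hs]; exact Finset.mem_filter.2 ⟨Finset.mem_univ _, hi⟩)).elim
    | zero => rw [mul_zero, map_zero]
    | add x y _ _ hx hy => rw [mul_add, map_add, hx, hy, add_zero]
    | smul a x _ hx => rw [mul_smul_comm, map_smul, hx, smul_zero]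
  rw [sub_eq_zero] at hc0
  rw [hc0]
  refine Submodule.sum_mem _ fun j hj => Submodule.smul_mem _ _ (Submodule.subset_span
    ⟨j, ?_, rfl⟩)
  have h2 : deg j = A.dim - n := (Finset.mem_filter.1 hj).2
  omega

end dual

section geo

variable {k : Type u} [Field k] {𝒱 : VarClass k} {C : TheoryData.{u, 0, 0} 𝒱 ℚ} {K : Type}
  [Field K] [CharZero K] {H : WeilTheoryData.{u, 0, 0} C K} [hC : IsChow C] [hH : IsWeil H]

variable {A Z : 𝒱.Obj} {F : ∀ X : 𝒱.Obj, X ⟶ X} {Q : ℕ}

variable [IsAlgClosed K]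

/-- **The Künneth formula** for a given dual system. -/
theorem rel_kun (hS : IsStandard H) (hπA : IsFrobenius C (F A) Q) (hπZ : IsFrobenius C (F Z) Q)
    (hF : F (A.prod Z) = prodMap (F A) (F Z)) (hQ : 1 < Q) {S : Set K}
    (hcv : Cg H (F A) S) (hSint : ∀ α ∈ S, IsIntegral ℚ α) (hS0 : ∀ α ∈ S, α ≠ 0)
    (hZint : ∀ β, (frob H (F Z)).HasEigenvalue β → IsIntegral ℚ β) (B : Set K)
    (hres : ∀ α ∈ S, ∀ β, (frob H (F Z)).HasEigenvalue β → ∀ ρ ∈ B,
      ∀ e w : ℕ, α * (β * ρ) * (Q : K) ^ e ≠ (Q : K) ^ w)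
    {J : Type} [Fintype J] {deg : J → ℕ} {D E : J → C.A A} (hdual : IsDual A Z deg D E)
    (hN : ∀ n, AK H A n ≤ Submodule.span K {c | ∃ j, deg j = n ∧ c = H.cl (D j)})
    (T : CorrData C) (φ : ∀ X : 𝒱.Obj, Module.End ℚ (T.M X)) (χ : ℚ[X]) (hχ0 : χ.coeff 0 ≠ 0)
    (hχB : ∀ ρ : K, aeval ρ χ = 0 → ρ ∈ B) (hT : RelTheory T φ F Q χ)
    (hnil : NilT H T (A.prod Z)) : HasKunneth T A Z deg D := by
  have hfA := hS.finite A
  have hQ0 : Q ≠ 0 := by omega
  have hQK : (Q : K) ≠ 0 := by exact_mod_cast hQ0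
  refine hasKunneth_of hdual hT.corr fun i m hm => ?_
  obtain ⟨P, hP, hmix⟩ := exists_kill (πA := F A) (πZ := F Z) hS hπA hcv hSint hZint
    (rev χ ((Q : ℚ) ^ i)) (by
      intro α hα β hβ h0
      have hα0 := hS0 α hα
      have hβ0 := eig_ne_zero hπZ hQ0 hβ
      rw [aeval_rev χ _ (mul_ne_zero hα0 hβ0)] at h0
      have h1 := (mul_eq_zero.1 h0).resolve_left (pow_ne_zero _ (mul_ne_zero hα0 hβ0))
      set ρ : K := (((Q : ℚ) ^ i : ℚ) : K) / (α * β) with hρ
      have h2 : α * (β * ρ) = (Q : K) ^ i := by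
        rw [hρ]
        push_cast
        field_simp
      rcases Int.le_total 0 i with hi | hi
      · obtain ⟨n, rfl⟩ := Int.eq_ofNat_of_zero_le hi
        refine hres α hα β hβ ρ (hχB ρ h1) 0 n ?_
        rw [pow_zero, mul_one, h2]
        exact zpow_natCast _ _
      · obtain ⟨n, hn⟩ := Int.eq_ofNat_of_zero_le (neg_nonneg.2 hi)
        refine hres α hα β hβ ρ (hχB ρ h1) n 0 ?_
        have h3 : i = -(n : ℤ) := by omega
        rw [h2, h3, pow_zero, zpow_neg, zpow_natCast, inv_mul_cancel₀ (pow_ne_zero _ hQK)])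
  obtain ⟨l, hl⟩ := hT.power (A.prod Z) i m hm
  have hc : Commute (T.act (C.cograph (F (A.prod Z)))) (φ (A.prod Z)) := by
    refine LinearMap.ext fun t => ?_
    rw [Module.End.mul_apply, Module.End.mul_apply, hT.comm]
  have h1 := rev_nil hc ((Q : ℚ) ^ i) hχ0 l m (hT.poly _ i m hm) hl
  rw [hF] at h1
  refine rel_core hπA (F Z) hdual hT.corr hnil P _ hP ?_ h1
  intro w
  apply act_proj_mixA hdual hN
  rw [act_cl_polyC]
  exact hmix w

variable {ι : Type} {X : ι → 𝒱.Obj} {S : ι → Set K} {B : Set K}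

/-- **one step**, with both systems -/
theorem Cr.step2 (h : Cr H F Q X Z S B) {i : ι} {L : List ι} (hi : i ∉ L) (hL : L.Nodup) :
    ∃ (J : Type) (_ : Fintype J) (deg : J → ℕ) (D E : J → C.A (X i)),
      IsDual (X i) (tw X Z L) deg D E ∧
      (∀ n, AK H (X i) n ≤ Submodule.span K {c | ∃ j, deg j = n ∧ c = H.cl (D j)}) ∧
      (∀ n, AK H (X i) n ≤ Submodule.span K
        {c | ∃ j, (X i).dim - deg j = n ∧ c = H.cl (E j)}) ∧
      ∀ (T : CorrData C) (φ : ∀ X : 𝒱.Obj, Module.End ℚ (T.M X)) (χ : ℚ[X]), χ.coeff 0 ≠ 0 →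
        (∀ ρ : K, aeval ρ χ = 0 → ρ ∈ B) → RelTheory T φ F Q χ →
        NilT H T ((X i).prod (tw X Z L)) → HasKunneth T (X i) (tw X Z L) deg D ∧
          HasKunneth T (X i) (tw X Z L) (fun j => (X i).dim - deg j) E := by
  classical
  have hfA := h.std.finite (X i)
  have hres1 : ∀ α ∈ S i, ∀ w : ℕ, α ≠ (Q : K) ^ w := fun α hα w hw => by
      refine h.res1 {i} (Finset.singleton_nonempty i) (fun _ => α) ?_ 1 rfl 0 1 w one_pos ?_
      · intro i' hi'
        rw [Finset.mem_singleton.1 hi']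
        exact hα
      · rw [Finset.prod_singleton, pow_zero, mul_one, mul_one, hw, pow_one, one_mul]
  have hnd := nondeg_of hfA (h.frob (X i)) h.one_lt (h.cg i) hres1
  have hres : ∀ α ∈ S i, ∀ β, (Pool.Agent.W484.CH.frob H (F (tw X Z L))).HasEigenvalue β →
      ∀ ρ ∈ B, ∀ e w : ℕ, α * (β * ρ) * (Q : K) ^ e ≠ (Q : K) ^ w :=
    (fun α hα γ hγ ρ hρ e' w heq => by
      obtain ⟨I, α', β, e, hI, hα', hβ, rfl⟩ := h.eig_tw L hL γ hγ
      have hiI : i ∉ I := fun h0 => hi (hI i h0)
      refine h.res (insert i I) (Finset.insert_nonempty i I) (Function.update α' i α) ?_ (β * ρ)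
        ⟨β, ρ, hβ, hρ, rfl⟩ (e + e') 1 w one_pos ?_
      · intro i' hi'
        rcases Finset.mem_insert.1 hi' with rfl | hi'
        · rw [Function.update_self]; exact hα
        · rw [Function.update_of_ne (ne_of_mem_of_not_mem hi' hiI)]
          exact hα' i' hi'
      · rw [Finset.prod_insert hiI, Function.update_self,
          Finset.prod_congr rfl fun i' hi' =>
            Function.update_of_ne (ne_of_mem_of_not_mem hi' hiI) α α', pow_one, one_mul, ← heq,
            pow_add]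
        ring)
  obtain ⟨J, hJ, deg, D, E, hdual, hN⟩ := exists_dual h.std hnd (tw X Z L)
  have hN' := span_exch h.std hnd hdual hN
  refine ⟨J, hJ, deg, D, E, hdual, hN, hN', fun T φ χ hχ0 hχB hT hnil => ⟨?_, ?_⟩⟩
  · exact rel_kun h.std (h.frob _) (h.frob _) (h.prod _ _) h.one_lt (h.cg i) (h.int i) (h.ne i)
      (h.int_tw hL) B hres hdual hN T φ χ hχ0 hχB hT hnil
  · exact rel_kun h.std (h.frob _) (h.frob _) (h.prod _ _) h.one_lt (h.cg i) (h.int i) (h.ne i)
      (h.int_tw hL) B hres (IsDual.exch hdual) hN' T φ χ hχ0 hχB hT hnil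

omit [IsAlgClosed K] [hC : IsChow C] [hH : IsWeil H] [CharZero K] in
/-- a property which can be read off degree by degree -/
theorem dims_induct (p : 𝒱.Obj → ℤ → Prop)
    (hp : ∀ (i : ι) (L : List ι), i ∉ L → L.Nodup → ∃ (J : Type) (deg : J → ℕ),
      (∀ j, deg j ≤ (X i).dim) ∧ (∀ l ≤ (X i).dim, ∃ j, deg j = l) ∧ ∀ n : ℤ,
        (p ((X i).prod (tw X Z L)) n ↔ ∀ j, p (tw X Z L) (n - deg j)))
    {L : List ι} (hL : L.Nodup) (n : ℤ) : p (tw X Z L) n ↔
      ∀ m : ℤ, n - dims X L ≤ m → m ≤ n → p Z m := by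
  induction L generalizing n with
  | nil =>
    constructor
    · intro h1 m h2 h3
      have h4 : m = n := by
        simp only [dims, Nat.cast_zero, sub_zero] at h2
        omega
      rw [h4]
      exact h1
    · intro h1
      exact h1 n (by simp [dims]) le_rfl
  | cons i L ih =>
    rw [List.nodup_cons] at hL
    obtain ⟨J, deg, h1, h2, h3⟩ := hp i L hL.1 hL.2
    have h4 : p (tw X Z (i :: L)) n ↔ ∀ j, p (tw X Z L) (n - deg j) := h3 n
    rw [h4]
    constructor
    · intro hp m hm1 hm2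
      obtain ⟨l, hl1, hl2, hl3⟩ := exists_codim (a := (X i).dim) (b := dims X L) hm1 hm2
      obtain ⟨j, hj⟩ := h2 l hl1
      have h5 := (ih hL.2 (n - deg j)).1 (hp j)
      rw [hj] at h5
      exact h5 m hl2 hl3
    · intro hp j
      rw [ih hL.2]
      intro m hm1 hm2
      have h5 := h1 j
      refine hp m ?_ (by omega)
      change n - ((X i).dim + dims X L : ℕ) ≤ m
      push_cast
      omega

end geo

section pair

variable {k : Type u} [Field k] {𝒱 : VarClass k} {C : TheoryData.{u, 0, 0} 𝒱 ℚ} [hC : IsChow C]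
  {A Z : 𝒱.Obj} {J : Type} [Fintype J] {deg : J → ℕ} {D E : J → C.A A}

/-- correspondences and their transposes are adjoint -/
def Adj (T R : CorrData C) (cup : ∀ X : 𝒱.Obj, T.M X →ₗ[ℚ] R.M X →ₗ[ℚ] ℚ) : Prop :=
  ∀ {X Y : 𝒱.Obj} (Γ : C.A (X.prod Y)) (t : T.M X) (r : R.M Y),
    cup Y (T.act Γ t) r = cup X t (R.act (C.push (Obj.lift (snd X Y) (fst X Y)) Γ) r)

/-- the pairing between `T^(d+e-n)(X)` and `R^n(X)` is perfect -/
def Perf (T R : CorrData C) (cup : ∀ X : 𝒱.Obj, T.M X →ₗ[ℚ] R.M X →ₗ[ℚ] ℚ) (e : ℤ) (X : 𝒱.Obj)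
    (n : ℤ) : Prop :=
  ((cup X).domRestrict₁₂ (T.gr X (X.dim + e - n)) (R.gr X n)).IsPerfPair

section pi

variable {V W : Type} {V' W' : J → Type} [AddCommGroup V] [Module ℚ V] [AddCommGroup W]
  [Module ℚ W] [∀ j, AddCommGroup (V' j)] [∀ j, Module ℚ (V' j)] [∀ j, AddCommGroup (W' j)]
  [∀ j, Module ℚ (W' j)]

theorem bij_pi (eV : V ≃ₗ[ℚ] ∀ j, V' j) (eW : W ≃ₗ[ℚ] ∀ j, W' j) (b : V →ₗ[ℚ] W →ₗ[ℚ] ℚ)
    (b' : ∀ j, V' j →ₗ[ℚ] W' j →ₗ[ℚ] ℚ) (hb : ∀ v w, b v w = ∑ j, b' j (eV v j) (eW w j)) :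
    Function.Bijective b ↔ ∀ j, Function.Bijective (b' j) := by
  classical
  have hsingle : ∀ (j : J) (v : V) (w : W' j), b v (eW.symm (Pi.single j w)) =
      b' j (eV v j) w := by
    intro j v w
    rw [hb, Finset.sum_eq_single j]
    · rw [LinearEquiv.apply_symm_apply, Pi.single_eq_same]
    · intro i _ hij
      rw [LinearEquiv.apply_symm_apply, Pi.single_eq_of_ne hij, map_zero]
    · intro h0
      exact absurd (Finset.mem_univ j) h0
  constructor
  · rintro ⟨h1, h2⟩ j
    constructor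
    · rw [injective_iff_map_eq_zero]
      intro v hv
      have h3 : b (eV.symm (Pi.single j v)) = 0 := by
        refine LinearMap.ext fun w => ?_
        rw [hb, LinearMap.zero_apply]
        refine Finset.sum_eq_zero fun i _ => ?_
        rw [LinearEquiv.apply_symm_apply]
        by_cases hij : i = j
        · subst hij
          rw [Pi.single_eq_same, hv, LinearMap.zero_apply]
        · rw [Pi.single_eq_of_ne hij, map_zero, LinearMap.zero_apply]
      have h4 := (injective_iff_map_eq_zero b).1 h1 _ h3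
      have h5 := congrArg eV h4
      rw [LinearEquiv.apply_symm_apply, map_zero] at h5
      have h6 := congrFun h5 j
      rw [Pi.single_eq_same] at h6
      exact h6
    · intro f
      obtain ⟨v, hv⟩ := h2 (f ∘ₗ LinearMap.proj j ∘ₗ eW.toLinearMap)
      refine ⟨eV v j, LinearMap.ext fun w => ?_⟩
      rw [← hsingle, hv]
      change f (eW (eW.symm (Pi.single j w)) j) = f w
      rw [LinearEquiv.apply_symm_apply, Pi.single_eq_same]
  · intro h0
    constructor
    · rw [injective_iff_map_eq_zero]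
      intro v hv
      apply eV.injective
      rw [map_zero]
      funext j
      refine (injective_iff_map_eq_zero (b' j)).1 (h0 j).1 _ (LinearMap.ext fun w => ?_)
      rw [← hsingle, hv]
      rfl
    · intro f
      choose v hv using fun j => (h0 j).2 (f ∘ₗ eW.symm.toLinearMap ∘ₗ LinearMap.single ℚ W' j)
      refine ⟨eV.symm v, LinearMap.ext fun w => ?_⟩
      rw [hb]
      have h1 : ∀ j, b' j (eV (eV.symm v) j) (eW w j) = f (eW.symm (Pi.single j (eW w j))) := by
        intro j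
        rw [LinearEquiv.apply_symm_apply, hv]
        rfl
      rw [Finset.sum_congr rfl fun j _ => h1 j, ← map_sum, ← map_sum, Finset.univ_sum_single,
        LinearEquiv.symm_apply_apply]

theorem perf_pi (eV : V ≃ₗ[ℚ] ∀ j, V' j) (eW : W ≃ₗ[ℚ] ∀ j, W' j) (b : V →ₗ[ℚ] W →ₗ[ℚ] ℚ)
    (b' : ∀ j, V' j →ₗ[ℚ] W' j →ₗ[ℚ] ℚ) (hb : ∀ v w, b v w = ∑ j, b' j (eV v j) (eW w j)) :
    b.IsPerfPair ↔ ∀ j, (b' j).IsPerfPair := by
  have h1 := bij_pi eV eW b b' hb
  have h2 := bij_pi eW eV b.flip (fun j => (b' j).flip) (fun w v => by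
    simp only [LinearMap.flip_apply]
    exact hb v w)
  constructor
  · intro h j
    exact ⟨h1.1 h.bijective_left j, h2.1 h.bijective_right j⟩
  · intro h
    exact ⟨h1.2 fun j => (h j).bijective_left, h2.2 fun j => (h j).bijective_right⟩

end pi

variable {T R : CorrData C} {cup : ∀ X : 𝒱.Obj, T.M X →ₗ[ℚ] R.M X →ₗ[ℚ] ℚ}

theorem push_swap_extBy (Z : 𝒱.Obj) (b : C.A A) :
    C.push (Obj.lift (snd Z (A.prod Z)) (fst Z (A.prod Z))) (extBy C Z b) = pairBy C Z b := by
  have e1 : Obj.lift (snd A Z) (𝟙 (A.prod Z)) ≫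
      Obj.lift (snd Z (A.prod Z)) (fst Z (A.prod Z)) = Obj.lift (𝟙 (A.prod Z)) (snd A Z) := by
    apply prod_ext <;> simp
  rw [extBy, pairBy, ← C.push_comp, e1]

open Classical in
/-- **orthogonality** -/
theorem cup_ext (hR : IsCorrTheory R) (hadj : Adj T R cup) (h : IsDual A Z deg D E) (i j : J)
    (z : T.M Z) (w : R.M Z) :
    cup _ (T.act (extBy C Z (D i)) z) (R.act (extBy C Z (E j)) w) =
      if i = j then cup Z z w else 0 := by
  have h1 := act_pair_ext hR (IsDual.exch h) j i w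
  rw [hadj, push_swap_extBy, h1]
  by_cases hij : i = j
  · rw [if_pos hij, if_pos hij.symm]
  · rw [if_neg hij, if_neg (Ne.symm hij), map_zero]

theorem cup_ext_sum (hR : IsCorrTheory R) (hadj : Adj T R cup) (h : IsDual A Z deg D E)
    (z : J → T.M Z) (w : J → R.M Z) :
    cup _ (∑ i, T.act (extBy C Z (D i)) (z i)) (∑ j, R.act (extBy C Z (E j)) (w j)) =
      ∑ i, cup Z (z i) (w i) := by
  classical
  rw [map_sum (cup (A.prod Z)), LinearMap.sum_apply]
  refine Finset.sum_congr rfl fun i _ => ?_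
  rw [map_sum, Finset.sum_congr rfl fun j _ => cup_ext hR hadj h i j (z i) (w j),
    Finset.sum_ite_eq, if_pos (Finset.mem_univ _)]

/-- the decomposition as an isomorphism -/
theorem kun_equiv {T : CorrData C} (hT : IsCorrTheory T) (h : IsDual A Z deg D E)
    (hK : HasKunneth T A Z deg D) (a : ℤ) (b : J → ℤ) (hb : ∀ j, b j = a - deg j) :
    ∃ e : (∀ j, T.gr Z (b j)) ≃ₗ[ℚ] T.gr (A.prod Z) a,
      ∀ z, (e z : T.M (A.prod Z)) = ∑ j, T.act (extBy C Z (D j)) (z j) := by
  obtain rfl : b = fun j => a - deg j := funext hb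
  let f : (∀ j, T.gr Z (a - deg j)) →ₗ[ℚ] T.M (A.prod Z) :=
    { toFun := fun z => ∑ j, T.act (extBy C Z (D j)) (z j)
      map_add' := fun z z' => by
        rw [← Finset.sum_add_distrib]
        exact Finset.sum_congr rfl fun j _ => map_add _ _ _
      map_smul' := fun c z => by
        rw [RingHom.id_apply, Finset.smul_sum]
        exact Finset.sum_congr rfl fun j _ => map_smul _ _ _ }
  have hf : ∀ z, f z ∈ T.gr (A.prod Z) a := fun z => Submodule.sum_mem _ fun j _ => by
    have h1 := act_ext_mem hT h j (z j).2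
    rwa [sub_add_cancel] at h1
  refine ⟨LinearEquiv.ofBijective (f.codRestrict _ hf) ⟨?_, ?_⟩, fun z => rfl⟩
  · intro z z' hz
    have h1 : f z = f z' := congrArg Subtype.val hz
    obtain ⟨y, -, hy⟩ := hK a (f z) (hf z)
    have h2 := hy (fun j => z j) ⟨fun j => (z j).2, rfl⟩
    have h3 := hy (fun j => z' j) ⟨fun j => (z' j).2, h1⟩
    funext j
    exact Subtype.ext (congrFun (h2.trans h3.symm) j)
  · rintro ⟨m, hm⟩
    obtain ⟨z, ⟨hz, hmz⟩, -⟩ := hK a m hm
    exact ⟨fun j => ⟨z j, hz j⟩, Subtype.ext hmz.symm⟩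

/-- **The pairings.** -/
theorem perf_deg (hT : IsCorrTheory T) (hR : IsCorrTheory R) (hadj : Adj T R cup)
    (h : IsDual A Z deg D E) (hKT : HasKunneth T A Z deg D)
    (hKR : HasKunneth R A Z (fun j => A.dim - deg j) E) (e n : ℤ) :
    Perf T R cup e (A.prod Z) n ↔ ∀ j, Perf T R cup e Z (n - (A.dim - deg j : ℕ)) := by
  obtain ⟨eT, heT⟩ := kun_equiv hT h hKT ((A.prod Z).dim + e - n)
    (fun j => Z.dim + e - (n - (A.dim - deg j : ℕ))) (fun j => by
      have h1 := h.le j
      rw [Obj.dim_prod]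
      push_cast [h1]
      ring)
  obtain ⟨eR, heR⟩ := kun_equiv hR (IsDual.exch h) hKR n
    (fun j => n - (A.dim - deg j : ℕ)) (fun j => rfl)
  refine perf_pi eT.symm eR.symm _ (fun j => (cup Z).domRestrict₁₂ _ _) fun v w => ?_
  obtain ⟨z, rfl⟩ := eT.surjective v
  obtain ⟨y, rfl⟩ := eR.surjective w
  rw [LinearEquiv.symm_apply_apply, LinearEquiv.symm_apply_apply, LinearMap.domRestrict₁₂_apply,
    heT, heR, cup_ext_sum hR hadj h]
  exact Finset.sum_congr rfl fun j _ => rfl

end pair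

end Pool.Agent.N876.CG
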