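import Mathlib
import Pool.Agent.N876.CG.RelApp
import Pool.Agent.N876.CG.PairT

/-!
# Classes which are invariant under a Galois group: the Künneth formula
-/

set_option autoImplicit false
set_option linter.unusedSectionVars false

open CategoryTheory AlgebraicGeometry
open scoped TensorProduct

universe u

namespace Pool.Agent.N876.CG

open Module Polynomial Pool.Agent.H914 Pool.Agent.H914.VarClass Pool.Agent.H914.VarClass.Obj
  Pool.Agent.W492.BB Pool.Agent.W550.Corr Pool.Agent.W484.TB Pool.Agent.W484.CH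

variable {k : Type u} [Field k] {𝒱 : VarClass k} {C : TheoryData.{u, 0, 0} 𝒱 ℚ} {K : Type}
  [Field K] [CharZero K] {H : WeilTheoryData.{u, 0, 0} C K} [hC : IsChow C] [hH : IsWeil H]
  {A Z X Y : 𝒱.Obj}

/-- An endomorphism of the cohomology like the action of an element of a Galois group. -/
structure Eqv (H : WeilTheoryData.{u, 0, 0} C K) (χ : K) (Φ : ∀ X : 𝒱.Obj, H.A X →ₐ[K] H.A X) :
    Prop where
  ne : χ ≠ 0
  pull : ∀ {X Y : 𝒱.Obj} (f : X ⟶ Y) (b : H.A Y), Φ X (H.pull f b) = H.pull f (Φ Y b)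
  push : ∀ {X Y : 𝒱.Obj} (f : X ⟶ Y) (a : H.A X),
    χ ^ X.dim • Φ Y (H.push f a) = χ ^ Y.dim • H.push f (Φ X a)
  cl : ∀ (X : 𝒱.Obj) (i : ℕ) (z : C.A X), C.Deg i z → Φ X (H.cl z) = χ ^ i • H.cl z
  tr : ∀ (X : 𝒱.Obj) (a : H.A X), H.tr X (Φ X a) = χ ^ X.dim * H.tr X a

/-- the push-forward -/
theorem push_of {χ : K} {Φ : ∀ X : 𝒱.Obj, H.A X →ₐ[K] H.A X}
    (hs : ∀ X, Function.Surjective (Φ X))
    (hp : ∀ {X Y : 𝒱.Obj} (f : X ⟶ Y) (b : H.A Y), Φ X (H.pull f b) = H.pull f (Φ Y b))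
    (ht : ∀ (X : 𝒱.Obj) (a : H.A X), H.tr X (Φ X a) = χ ^ X.dim * H.tr X a)
    {X Y : 𝒱.Obj} (f : X ⟶ Y) (a : H.A X) :
    χ ^ X.dim • Φ Y (H.push f a) = χ ^ Y.dim • H.push f (Φ X a) := by
  rw [← sub_eq_zero]
  apply H.nondeg
  intro b
  obtain ⟨b, rfl⟩ := hs Y b
  have h1 : H.tr Y (Φ Y (H.push f a) * Φ Y b) = χ ^ Y.dim * H.tr X (a * H.pull f b) := by
    rw [← map_mul, ht, ← H.proj_right, H.tr_push]
  have h2 : H.tr Y (H.push f (Φ X a) * Φ Y b) = χ ^ X.dim * H.tr X (a * H.pull f b) := by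
    rw [← H.proj_right, H.tr_push, ← hp, ← map_mul, ht]
  change H.tr Y ((χ ^ X.dim • Φ Y (H.push f a) - χ ^ Y.dim • H.push f (Φ X a)) * Φ Y b) = 0
  rw [sub_mul, smul_mul_assoc, smul_mul_assoc, map_sub, map_smul, map_smul, h1, h2, smul_eq_mul,
    smul_eq_mul]
  ring

section eqv

variable {χ : K} {Φ : ∀ X : 𝒱.Obj, H.A X →ₐ[K] H.A X}

theorem Eqv.ext (h : Eqv H χ Φ) (a : H.A X) (b : H.A Y) :
    Φ (X.prod Y) (H.ext a b) = H.ext (Φ X a) (Φ Y b) := by
  rw [TheoryData.ext, TheoryData.ext, map_mul, h.pull, h.pull]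

theorem Eqv.act (h : Eqv H χ Φ) {j : ℤ} {Γ : C.A (X.prod Y)} (hΓ : C.Deg (X.dim + j) Γ)
    (a : H.A X) : Φ Y (H.act (H.cl Γ) a) = χ ^ j • H.act (H.cl Γ) (Φ X a) := by
  rcases lt_or_ge ((X.dim : ℤ) + j) 0 with h0 | h0
  · have h1 : Γ = 0 := by
      have h2 := C.gr_neg (X.prod Y) _ h0
      have h3 : Γ ∈ C.gr (X.prod Y) ((X.dim : ℤ) + j) := hΓ
      rw [h2] at h3
      exact (Submodule.mem_bot _).1 h3
    rw [h1, map_zero, H.act_zero, H.act_zero, map_zero, smul_zero]
  · obtain ⟨n, hn⟩ := Int.eq_ofNat_of_zero_le h0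
    rw [hn] at hΓ
    have h1 := h.push (snd X Y) (H.cl Γ * H.pull (fst X Y) a)
    have h2 : Φ (X.prod Y) (H.cl Γ * H.pull (fst X Y) a) =
        χ ^ n • (H.cl Γ * H.pull (fst X Y) (Φ X a)) := by
      rw [map_mul, h.cl _ n Γ hΓ, h.pull, smul_mul_assoc]
    rw [h2, map_smul, Obj.dim_prod] at h1
    have h3 : H.push (snd X Y) (H.cl Γ * H.pull (fst X Y) (Φ X a)) = H.act (H.cl Γ) (Φ X a) := rfl
    have h4 : H.push (snd X Y) (H.cl Γ * H.pull (fst X Y) a) = H.act (H.cl Γ) a := rfl
    rw [h3, h4] at h1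
    have h5 : χ ^ (X.dim + Y.dim) ≠ 0 := pow_ne_zero _ h.ne
    apply smul_right_injective _ h5
    change χ ^ (X.dim + Y.dim) • Φ Y (H.act (H.cl Γ) a) =
      χ ^ (X.dim + Y.dim) • (χ ^ j • H.act (H.cl Γ) (Φ X a))
    rw [h1, smul_smul, smul_smul]
    congr 1
    have h6 : j = (n : ℤ) - X.dim := by omega
    rw [h6, zpow_sub₀ h.ne, zpow_natCast, zpow_natCast, pow_add]
    have h7 : χ ^ X.dim ≠ 0 := pow_ne_zero _ h.ne
    field_simp

theorem Eqv.AK_eigen (h : Eqv H χ Φ) {n : ℕ} {c : H.A A} (hc : c ∈ AK H A n) :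
    Φ A c = χ ^ n • c := by
  unfold AK at hc
  induction hc using Submodule.span_induction with
  | mem c hc =>
    obtain ⟨D, hD, rfl⟩ := hc
    exact h.cl A n D hD
  | zero => rw [map_zero, smul_zero]
  | add x y _ _ hx hy => rw [map_add, hx, hy, smul_add]
  | smul a x _ hx => rw [map_smul, hx, smul_comm]

theorem Eqv.AT_stable (h : Eqv H χ Φ) :
    ∀ c ∈ AT H A, (Φ A).toLinearMap c ∈ AT H A := by
  intro c hc
  unfold AT at hc
  induction hc using Submodule.span_induction with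
  | mem c hc =>
    obtain ⟨n, D, hD, rfl⟩ := hc
    have h1 : (Φ A).toLinearMap (H.cl D) = χ ^ n • H.cl D := h.cl A n D hD
    rw [h1]
    exact Submodule.smul_mem _ _ (Submodule.subset_span ⟨n, D, hD, rfl⟩)
  | zero => rw [map_zero]; exact Submodule.zero_mem _
  | add x y _ _ hx hy => rw [map_add]; exact Submodule.add_mem _ hx hy
  | smul a x _ hx => rw [map_smul]; exact Submodule.smul_mem _ _ hx

/-- the cohomology is generated by the classes of cycles and a subspace on which the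
endomorphism has eigenvalues in `S` -/
def CgL (H : WeilTheoryData.{u, 0, 0} C K) {A : 𝒱.Obj} (F : Module.End K (H.A A)) (S : Set K) :
    Prop :=
  ∃ (T : Submodule K (H.A A)) (hT : ∀ t ∈ T, F t ∈ T), AT H A ⊔ T = ⊤ ∧
    ∀ α, Module.End.HasEigenvalue (F.restrict hT) α → α ∈ S

/-- **the pairing is nondegenerate** -/
theorem Eqv.nondeg {Q : ℕ} (h : Eqv H (Q : K) Φ) (hfin : Module.Finite K (H.A A)) (hQ : 1 < Q)
    {S : Set K} (hcv : CgL H (Φ A).toLinearMap S) (hS : ∀ α ∈ S, ∀ w : ℕ, α ≠ (Q : K) ^ w) :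
    Nondeg H A := by
  obtain ⟨T, hT, hPT, hTS⟩ := hcv
  intro n hn c hc h'
  have hQK : (Q : K) ≠ 0 := h.ne
  apply H.nondeg
  intro y
  have hy : y ∈ AT H A ⊔ T := by rw [hPT]; trivial
  obtain ⟨a, ha, t, ht, rfl⟩ := Submodule.mem_sup.1 hy
  change H.tr A (c * (a + t)) = 0
  rw [mul_add, map_add]
  have h1 : H.tr A (c * a) = 0 := by
    unfold AT at ha
    clear hy
    induction ha using Submodule.span_induction with
    | mem a ha =>
      obtain ⟨m, D, hD, rfl⟩ := ha
      have hDm : H.cl D ∈ AK H A m := Submodule.subset_span ⟨D, hD, rfl⟩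
      by_cases hm : m = A.dim - n
      · subst hm
        exact h' _ hDm
      · have h2 := h.tr A (c * H.cl D)
        rw [map_mul, h.AK_eigen hc, h.AK_eigen hDm, smul_mul_smul_comm, map_smul,
          smul_eq_mul] at h2
        have h3 : ((Q : K) ^ n * (Q : K) ^ m - (Q : K) ^ A.dim) * H.tr A (c * H.cl D) = 0 := by
          rw [sub_mul, h2, sub_self]
        rcases mul_eq_zero.1 h3 with h4 | h4
        · exfalso
          apply hm
          have h5 : ((Q ^ (n + m) : ℕ) : K) = ((Q ^ A.dim : ℕ) : K) := by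
            push_cast
            rw [pow_add]
            exact sub_eq_zero.1 h4
          have h6 := Nat.pow_right_injective hQ (Nat.cast_injective h5)
          omega
        · exact h4
    | zero => rw [mul_zero, map_zero]
    | add x y _ _ hx hy => rw [mul_add, map_add, hx, hy, add_zero]
    | smul r x _ hx => rw [mul_smul_comm, map_smul, hx, smul_zero]
  have h2 : H.tr A (c * t) = 0 := by
    have h3 : ¬ Module.End.HasEigenvalue ((Φ A).toLinearMap.restrict hT)
        ((Q : K) ^ (A.dim - n)) := fun h0 => hS _ (hTS _ h0) _ rfl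
    have h4 : Function.Injective ((Φ A).toLinearMap.restrict hT -
        ((Q : K) ^ (A.dim - n)) • (1 : Module.End K T)) := by
      rw [← LinearMap.ker_eq_bot]
      have h5 : Module.End.eigenspace ((Φ A).toLinearMap.restrict hT)
          ((Q : K) ^ (A.dim - n)) = ⊥ := by
        by_contra h6
        exact h3 h6
      rw [Module.End.eigenspace_def] at h5
      exact h5
    have hfT : Module.Finite K T := inferInstance
    obtain ⟨s, hs⟩ := LinearMap.injective_iff_surjective.1 h4 ⟨t, ht⟩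
    have h5 : Φ A s.1 - (Q : K) ^ (A.dim - n) • s.1 = t := congrArg Subtype.val hs
    rw [← h5, mul_sub, map_sub, mul_smul_comm, map_smul, smul_eq_mul, sub_eq_zero]
    have h6 := h.tr A (c * s.1)
    rw [map_mul, h.AK_eigen hc, smul_mul_assoc, map_smul, smul_eq_mul] at h6
    have h7 : (Q : K) ^ A.dim = (Q : K) ^ n * (Q : K) ^ (A.dim - n) := by
      rw [← pow_add]
      congr 1
      omega
    rw [h7, mul_assoc] at h6
    exact mul_left_cancel₀ (pow_ne_zero _ hQK) h6
  rw [h1, h2, add_zero]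

theorem Eqv.kt (h : Eqv H χ Φ) (u : H.A A ⊗[K] H.A Z) :
    (Φ (A.prod Z)).toLinearMap (kt H A Z u) =
      kt H A Z (TensorProduct.map (Φ A).toLinearMap (Φ Z).toLinearMap u) := by
  induction u using TensorProduct.induction_on with
  | zero => simp only [map_zero]
  | tmul a b => exact h.ext a b
  | add x y hx hy => simp only [map_add, hx, hy]

end eqv

section mod

variable {M : Type} [AddCommGroup M] [Module K M]

variable (H M) in
/-- the action of a correspondence -/
noncomputable def actM (Γ : C.A (X.prod Y)) : (H.A X ⊗[K] M) →ₗ[K] (H.A Y ⊗[K] M) :=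
  LinearMap.rTensor M
    { toFun := fun a => H.act (H.cl Γ) a
      map_add' := fun a b => act_map_add H.toTheoryData (H.cl Γ) a b
      map_smul' := fun c a => act_map_smul H.toTheoryData (H.cl Γ) c a }

theorem actM_tmul (Γ : C.A (X.prod Y)) (a : H.A X) (x : M) :
    actM H M Γ (a ⊗ₜ x) = H.act (H.cl Γ) a ⊗ₜ x := rfl

theorem actM_add (Γ Δ : C.A (X.prod Y)) (v : H.A X ⊗[K] M) :
    actM H M (Γ + Δ) v = actM H M Γ v + actM H M Δ v := by
  induction v using TensorProduct.induction_on with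
  | zero => simp only [map_zero, add_zero]
  | tmul a x => rw [actM_tmul, actM_tmul, actM_tmul, map_add, H.act_add, TensorProduct.add_tmul]
  | add v w hv hw => rw [map_add, map_add, map_add, hv, hw]; abel

theorem act_smul' (c : K) (Γ : H.A (X.prod Y)) (a : H.A X) :
    H.act (c • Γ) a = c • H.act Γ a := by
  change H.push (snd X Y) ((c • Γ) * H.pull (fst X Y) a) =
    c • H.push (snd X Y) (Γ * H.pull (fst X Y) a)
  rw [smul_mul_assoc, map_smul]

theorem actM_smul (c : ℚ) (Γ : C.A (X.prod Y)) (v : H.A X ⊗[K] M) :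
    actM H M (c • Γ) v = (c : K) • actM H M Γ v := by
  induction v using TensorProduct.induction_on with
  | zero => simp only [map_zero, smul_zero]
  | tmul a x => rw [actM_tmul, actM_tmul, cl_smul, act_smul', TensorProduct.smul_tmul']
  | add v w hv hw => rw [map_add, map_add, hv, hw, smul_add]

theorem actM_comp (Γ : C.A (X.prod Y)) (Δ : C.A (Y.prod Z)) (v : H.A X ⊗[K] M) :
    actM H M (C.comp Γ Δ) v = actM H M Δ (actM H M Γ v) := by
  induction v using TensorProduct.induction_on with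
  | zero => simp only [map_zero]
  | tmul a x => rw [actM_tmul, actM_tmul, actM_tmul, act_cl_comp]
  | add v w hv hw => rw [map_add, map_add, map_add, hv, hw]

theorem actM_id (v : H.A X ⊗[K] M) : actM H M (C.graph (𝟙 X)) v = v := by
  induction v using TensorProduct.induction_on with
  | zero => simp only [map_zero]
  | tmul a x =>
    rw [actM_tmul]
    congr 1
    exact act_cl_dg a
  | add v w hv hw => rw [map_add, hv, hw]

variable (H M) in
/-- the theory `H(X) ⊗ M` with given subspaces -/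
noncomputable def modT (G : ∀ X : 𝒱.Obj, ℤ → Submodule K (H.A X ⊗[K] M)) : CorrData C where
  M X := H.A X ⊗[K] M
  group X := inferInstance
  module X := Module.compHom _ (algebraMap ℚ K)
  gr X n :=
    letI : Module ℚ (H.A X ⊗[K] M) := Module.compHom _ (algebraMap ℚ K)
    { carrier := {v | v ∈ G X n}
      add_mem' := fun ha hb => Submodule.add_mem _ ha hb
      zero_mem' := Submodule.zero_mem _
      smul_mem' := fun c _ hv => Submodule.smul_mem _ (algebraMap ℚ K c) hv }
  act {X Y} :=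
    letI : Module ℚ (H.A X ⊗[K] M) := Module.compHom _ (algebraMap ℚ K)
    letI : Module ℚ (H.A Y ⊗[K] M) := Module.compHom _ (algebraMap ℚ K)
    { toFun := fun Γ =>
        { toFun := actM H M Γ
          map_add' := fun a b => map_add _ a b
          map_smul' := fun c v => (actM H M Γ).map_smul (algebraMap ℚ K c) v }
      map_add' := fun Γ Δ => LinearMap.ext fun v => actM_add Γ Δ v
      map_smul' := fun c Γ => LinearMap.ext fun v => actM_smul c Γ v }

variable {G : ∀ X : 𝒱.Obj, ℤ → Submodule K (H.A X ⊗[K] M)}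

theorem modT_mem {n : ℤ} {v : H.A X ⊗[K] M} : v ∈ (modT H M G).gr X n ↔ v ∈ G X n := Iff.rfl

theorem modT_act (Γ : C.A (X.prod Y)) (v : H.A X ⊗[K] M) :
    (modT H M G).act Γ v = actM H M Γ v := rfl

theorem modT_corr (hG : ∀ {X Y : 𝒱.Obj} {i j : ℤ} {Γ : C.A (X.prod Y)} {v : H.A X ⊗[K] M},
    C.Deg (X.dim + j) Γ → v ∈ G X i → actM H M Γ v ∈ G Y (i + j)) :
    IsCorrTheory (modT H M G) where
  app_mem := fun hΓ hv => hG hΓ hv
  app_comp := fun Γ Δ v => actM_comp Γ Δ v
  app_id := fun v => actM_id v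

variable (H M) in
/-- the operator given by endomorphisms of `H(X)` and of `M` -/
noncomputable def opM (Φ : ∀ X : 𝒱.Obj, H.A X →ₐ[K] H.A X) (μ : Module.End K M) (X : 𝒱.Obj) :
    Module.End K (H.A X ⊗[K] M) := TensorProduct.map (Φ X).toLinearMap μ

theorem opM_act {χ : K} {Φ : ∀ X : 𝒱.Obj, H.A X →ₐ[K] H.A X} (h : Eqv H χ Φ)
    (μ : Module.End K M) {j : ℤ} {Γ : C.A (X.prod Y)} (hΓ : C.Deg (X.dim + j) Γ)
    (v : H.A X ⊗[K] M) :
    opM H M Φ μ Y (actM H M Γ v) = χ ^ j • actM H M Γ (opM H M Φ μ X v) := by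
  induction v using TensorProduct.induction_on with
  | zero => simp only [map_zero, smul_zero]
  | tmul a x =>
    unfold opM
    rw [actM_tmul, TensorProduct.map_tmul, TensorProduct.map_tmul, actM_tmul]
    change Φ Y (H.act (H.cl Γ) a) ⊗ₜ μ x = χ ^ j • (H.act (H.cl Γ) (Φ X a) ⊗ₜ μ x)
    rw [h.act hΓ, TensorProduct.smul_tmul']
  | add v w hv hw => simp only [map_add, smul_add, hv, hw]

variable (H) in
/-- the part of degree `2 n + t` -/
noncomputable def part (W : ℤ → Submodule K M) (t : ℤ) (X : 𝒱.Obj) (n : ℤ) :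
    Submodule K (H.A X ⊗[K] M) :=
  Submodule.span K {v | ∃ (i : ℤ) (a : H.A X) (x : M), H.Deg i a ∧ x ∈ W (2 * n + t - i) ∧
    v = a ⊗ₜ x}

theorem part_act {W : ℤ → Submodule K M} {t : ℤ} {i j : ℤ} {Γ : C.A (X.prod Y)}
    {v : H.A X ⊗[K] M} (hΓ : C.Deg (X.dim + j) Γ) (hv : v ∈ part H W t X i) :
    actM H M Γ v ∈ part H W t Y (i + j) := by
  unfold part at hv
  induction hv using Submodule.span_induction with
  | mem v hv =>
    obtain ⟨l, a, x, ha, hx, rfl⟩ := hv
    refine Submodule.subset_span ⟨l + 2 * j, H.act (H.cl Γ) a, x, ?_, ?_, rfl⟩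
    · have h1 := H.push_mem (snd X Y) (H.mul_mem (H.cl_mem hΓ) (H.pull_mem (fst X Y) ha))
      have h2 : 2 * ((X.dim : ℤ) + j) + l + 2 * ((Y.dim : ℤ) - (X.prod Y).dim) = l + 2 * j := by
        rw [Obj.dim_prod]
        push_cast
        ring
      rw [h2] at h1
      exact h1
    · have h3 : 2 * (i + j) + t - (l + 2 * j) = 2 * i + t - l := by ring
      rw [h3]
      exact hx
  | zero => rw [map_zero]; exact Submodule.zero_mem _
  | add v w _ _ hv hw => rw [map_add]; exact Submodule.add_mem _ hv hw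
  | smul c v _ hv => rw [map_smul]; exact Submodule.smul_mem _ _ hv

/-- The Tate classes of degree `2 n + t` and weight `n`: the operators of a family act by the
powers of `χ` with the exponent `n`. -/
noncomputable def tateG {I : Type} (χ : I → K) (Φ : I → ∀ X : 𝒱.Obj, H.A X →ₐ[K] H.A X)
    (μ : I → Module.End K M) (W : ℤ → Submodule K M) (t : ℤ) (X : 𝒱.Obj) (n : ℤ) :
    Submodule K (H.A X ⊗[K] M) :=
  part H W t X n ⊓ ⨅ g, LinearMap.ker (opM H M (Φ g) (μ g) X - (χ g) ^ n • (1 : Module.End K _))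

theorem mem_tateG {I : Type} {χ : I → K} {Φ : I → ∀ X : 𝒱.Obj, H.A X →ₐ[K] H.A X}
    {μ : I → Module.End K M} {W : ℤ → Submodule K M} {t : ℤ} {n : ℤ} {v : H.A X ⊗[K] M} :
    v ∈ tateG χ Φ μ W t X n ↔ v ∈ part H W t X n ∧
      ∀ g, opM H M (Φ g) (μ g) X v = (χ g) ^ n • v := by
  unfold tateG
  rw [Submodule.mem_inf, Submodule.mem_iInf]
  refine and_congr Iff.rfl (forall_congr' fun g => ?_)
  rw [LinearMap.mem_ker, LinearMap.sub_apply, LinearMap.smul_apply, Module.End.one_apply,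
    sub_eq_zero]

theorem tateG_act {I : Type} {χ : I → K} {Φ : I → ∀ X : 𝒱.Obj, H.A X →ₐ[K] H.A X}
    (h : ∀ g, Eqv H (χ g) (Φ g))
    {μ : I → Module.End K M} {W : ℤ → Submodule K M} {t : ℤ} {i j : ℤ} {Γ : C.A (X.prod Y)}
    {v : H.A X ⊗[K] M} (hΓ : C.Deg (X.dim + j) Γ) (hv : v ∈ tateG χ Φ μ W t X i) :
    actM H M Γ v ∈ tateG χ Φ μ W t Y (i + j) := by
  rw [mem_tateG] at hv ⊢
  refine ⟨part_act hΓ hv.1, fun g => ?_⟩
  rw [opM_act (h g) (μ g) hΓ, hv.2 g, map_smul, smul_smul, ← zpow_add₀ (h g).ne, add_comm j]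

/-- classes in the mixed part -/
theorem act_proj_mixM {J : Type} [Fintype J] {deg : J → ℕ} {D E : J → C.A A}
    (h : IsDual A Z deg D E)
    (hN : ∀ n, AK H A n ≤ Submodule.span K {c | ∃ j, deg j = n ∧ c = H.cl (D j)})
    {v : H.A (A.prod Z) ⊗[K] M} (hv : v ∈ LinearMap.range ((mixA H A Z).subtype.rTensor M)) :
    actM H M (proj Z D E) v = v := by
  obtain ⟨u, rfl⟩ := hv
  induction u using TensorProduct.induction_on with
  | zero => simp only [map_zero]
  | tmul a x =>
    rw [LinearMap.rTensor_tmul, actM_tmul]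
    congr 1
    exact act_proj_mixA h hN a.2
  | add v w hv hw => rw [map_add, map_add, hv, hw]

variable (H M) in
/-- the Künneth map -/
noncomputable def kM (A Z : 𝒱.Obj) :
    H.A A ⊗[K] (H.A Z ⊗[K] M) →ₗ[K] (H.A (A.prod Z)) ⊗[K] M :=
  ((kt H A Z).rTensor M) ∘ₗ (TensorProduct.assoc K (H.A A) (H.A Z) M).symm.toLinearMap

theorem kM_tmul (a : H.A A) (b : H.A Z) (x : M) :
    kM H M A Z (a ⊗ₜ (b ⊗ₜ x)) = H.ext a b ⊗ₜ x := rfl

theorem kM_surjective (hS : IsStandard H) : Function.Surjective (kM H M A Z) := by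
  unfold kM
  rw [LinearMap.coe_comp]
  exact (LinearMap.rTensor_surjective M (kt_surjective hS)).comp (LinearEquiv.surjective _)

theorem kM_injective (hS : IsStandard H) : Function.Injective (kM H M A Z) := by
  unfold kM
  rw [LinearMap.coe_comp]
  exact (Module.Flat.rTensor_preserves_injective_linearMap _ (kt_injective hS)).comp
    (LinearEquiv.injective _)

theorem kM_op {χ : K} {Φ : ∀ X : 𝒱.Obj, H.A X →ₐ[K] H.A X} (h : Eqv H χ Φ)
    (μ : Module.End K M) (u : H.A A ⊗[K] (H.A Z ⊗[K] M)) :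
    opM H M Φ μ (A.prod Z) (kM H M A Z u) =
      kM H M A Z (TensorProduct.map (Φ A).toLinearMap (opM H M Φ μ Z) u) := by
  induction u using TensorProduct.induction_on with
  | zero => simp only [map_zero]
  | tmul a y =>
    induction y using TensorProduct.induction_on with
    | zero => simp only [TensorProduct.tmul_zero, map_zero]
    | tmul b x =>
      rw [kM_tmul, TensorProduct.map_tmul]
      unfold opM
      rw [TensorProduct.map_tmul, TensorProduct.map_tmul, kM_tmul]
      congr 1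
      exact h.ext a b
    | add y y' hy hy' => rw [TensorProduct.tmul_add, map_add, map_add, map_add, map_add, hy, hy']
  | add v w hv hw => rw [map_add, map_add, map_add, map_add, hv, hw]

theorem kM_range (u : (AT H A : Submodule K (H.A A)) ⊗[K] (H.A Z ⊗[K] M)) :
    kM H M A Z (((AT H A).subtype.rTensor (H.A Z ⊗[K] M)) u) ∈
      LinearMap.range ((mixA H A Z).subtype.rTensor M) := by
  induction u using TensorProduct.induction_on with
  | zero => rw [map_zero, map_zero]; exact Submodule.zero_mem _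
  | tmul a y =>
    induction y using TensorProduct.induction_on with
    | zero =>
      rw [TensorProduct.tmul_zero, map_zero, map_zero]
      exact Submodule.zero_mem _
    | tmul b x =>
      rw [LinearMap.rTensor_tmul, kM_tmul]
      have h1 : H.ext (a : H.A A) b ∈ mixA H A Z := by
        have h2 := kt_range (H := H) (A := A) (Z := Z) (a ⊗ₜ b)
        rw [LinearMap.rTensor_tmul, kt_tmul] at h2
        exact h2
      exact ⟨(⟨_, h1⟩ : mixA H A Z) ⊗ₜ x, rfl⟩
    | add y y' hy hy' =>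
      rw [TensorProduct.tmul_add, map_add, map_add]
      exact Submodule.add_mem _ hy hy'
  | add v w hv hw =>
    rw [map_add, map_add]
    exact Submodule.add_mem _ hv hw

variable [IsAlgClosed K] [FiniteDimensional K M]

/-- **Eigenvectors lie in the mixed part.** -/
theorem mem_mixM (hS : IsStandard H) {χ : K} {Φ : ∀ X : 𝒱.Obj, H.A X →ₐ[K] H.A X}
    (h : Eqv H χ Φ) (μ : Module.End K M) {S : Set K} (hcv : CgL H (Φ A).toLinearMap S) {m : ℕ}
    {c : K} (hres : ∀ α ∈ S, ∀ β, (opM H M Φ μ Z).HasEigenvalue β → (α * β) ^ m ≠ c)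
    {v : H.A (A.prod Z) ⊗[K] M} (hv : ((opM H M Φ μ (A.prod Z)) ^ m) v = c • v) :
    v ∈ LinearMap.range ((mixA H A Z).subtype.rTensor M) := by
  have := hS.finite A
  have := hS.finite Z
  obtain ⟨T, hT, hPT, hTS⟩ := hcv
  obtain ⟨u, rfl⟩ := kM_surjective hS v
  have h1 : ∀ (m : ℕ) (u : H.A A ⊗[K] (H.A Z ⊗[K] M)),
      ((opM H M Φ μ (A.prod Z)) ^ m) (kM H M A Z u) =
      kM H M A Z (((TensorProduct.map (Φ A).toLinearMap (opM H M Φ μ Z)) ^ m) u) := by
    intro m
    induction m with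
    | zero => intro u; rfl
    | succ m ih =>
      intro u
      rw [pow_succ', Module.End.mul_apply, ih, kM_op h, pow_succ', Module.End.mul_apply]
  rw [h1, ← map_smul] at hv
  have h2 := kM_injective hS hv
  set P := AT H A with hP
  set F' := P.mapQ P (Φ A).toLinearMap h.AT_stable with hF'
  have h0 : ∀ (x : H.A A ⊗[K] (H.A Z ⊗[K] M)), (P.mkQ.rTensor (H.A Z ⊗[K] M))
      ((TensorProduct.map (Φ A).toLinearMap (opM H M Φ μ Z)) x) =
      (TensorProduct.map F' (opM H M Φ μ Z)) ((P.mkQ.rTensor (H.A Z ⊗[K] M)) x) := by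
    intro x
    induction x using TensorProduct.induction_on with
    | zero => simp only [map_zero]
    | tmul a b =>
      rw [TensorProduct.map_tmul, LinearMap.rTensor_tmul, LinearMap.rTensor_tmul,
        TensorProduct.map_tmul]
      rfl
    | add x y hx hy => rw [map_add, map_add, map_add, map_add, hx, hy]
  have h3 : ∀ (m : ℕ) (x : H.A A ⊗[K] (H.A Z ⊗[K] M)), (P.mkQ.rTensor (H.A Z ⊗[K] M))
      (((TensorProduct.map (Φ A).toLinearMap (opM H M Φ μ Z)) ^ m) x) =
      ((TensorProduct.map F' (opM H M Φ μ Z)) ^ m) ((P.mkQ.rTensor (H.A Z ⊗[K] M)) x) := by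
    intro m
    induction m with
    | zero => intro x; rfl
    | succ m ih =>
      intro x
      rw [pow_succ', Module.End.mul_apply, h0, ih, pow_succ', Module.End.mul_apply]
  have h4 : (P.mkQ.rTensor (H.A Z ⊗[K] M)) u = 0 := by
    by_contra hne
    have h5 := congrArg (P.mkQ.rTensor (H.A Z ⊗[K] M)) h2
    rw [h3, map_smul] at h5
    obtain ⟨α, β, hα, hβ, hαβ⟩ := FL.eig_tensor hne h5
    exact hres α (hTS α (FL.eig_quot h.AT_stable hT hPT hα)) β hβ hαβ
  have h5 : Function.Exact P.subtype P.mkQ := LinearMap.exact_subtype_mkQ P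
  have h6 := rTensor_exact (H.A Z ⊗[K] M) h5 P.mkQ_surjective
  obtain ⟨u', rfl⟩ := (h6 u).1 h4
  exact kM_range u'

end mod

end Pool.Agent.N876.CG
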