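import Mathlib
import Pool.Agent.N876.CG.GalT

/-!
# Classes which are invariant under a Galois group: products of varieties without resonances
-/

set_option autoImplicit false
set_option linter.unusedSectionVars false

open CategoryTheory AlgebraicGeometry
open scoped TensorProduct

universe u

namespace Pool.Agent.N876.CG

open Module Polynomial Pool.Agent.H914 Pool.Agent.H914.VarClass Pool.Agent.H914.VarClass.Obj
  Pool.Agent.W492.BB Pool.Agent.W550.Corr Pool.Agent.W484.TB Pool.Agent.W484.CH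

variable {k : Type u} [Field k] {𝒱 : VarClass k} {C : TheoryData.{u, 0, 0} 𝒱 ℚ} {K : Type}
  [Field K] [CharZero K] {H : WeilTheoryData.{u, 0, 0} C K} [hC : IsChow C] [hH : IsWeil H]
  {A Z : 𝒱.Obj}

/-- the hypotheses -/
structure Gs (H : WeilTheoryData.{u, 0, 0} C K) (Q : ℕ) (Φ : ∀ X : 𝒱.Obj, H.A X →ₐ[K] H.A X)
    {ι : Type} (X : ι → 𝒱.Obj) (Z : 𝒱.Obj) (S : ι → Set K) (B : Set K) : Prop where
  std : IsStandard H
  one_lt : 1 < Q
  eqv : Eqv H (Q : K) Φ
  cg : ∀ i, CgL H (Φ (X i)).toLinearMap (S i)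
  res : FL.NoResF (Q : K) S {γ | ∃ β ρ, Module.End.HasEigenvalue (Φ Z).toLinearMap β ∧ ρ ∈ B ∧
    γ = β * ρ}
  res1 : FL.NoResF (Q : K) S {1}

variable {Q : ℕ} {Φ : ∀ X : 𝒱.Obj, H.A X →ₐ[K] H.A X} {ι : Type} {X : ι → 𝒱.Obj}
  {S : ι → Set K} {B : Set K}

variable [IsAlgClosed K]

theorem Eqv.eig_prod {χ : K} (h : Eqv H χ Φ) (hS : IsStandard H) {μ : K}
    (hμ : Module.End.HasEigenvalue (Φ (A.prod Z)).toLinearMap μ) :
    ∃ α β : K, Module.End.HasEigenvalue (Φ A).toLinearMap α ∧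
      Module.End.HasEigenvalue (Φ Z).toLinearMap β ∧ μ = α * β := by
  have := hS.finite A
  have := hS.finite Z
  obtain ⟨w, hw⟩ := hμ.exists_hasEigenvector
  obtain ⟨u, rfl⟩ := kt_surjective hS w
  have hu0 : u ≠ 0 := by
    rintro rfl
    exact hw.2 (map_zero _)
  have h1 : (TensorProduct.map (Φ A).toLinearMap (Φ Z).toLinearMap) u = μ • u := by
    apply kt_injective hS
    rw [← h.kt, map_smul]
    exact hw.apply_eq_smul
  obtain ⟨α, β, hα, hβ, hαβ⟩ := FL.eig_tensor (m := 1) hu0 (by rw [pow_one]; exact h1)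
  exact ⟨α, β, hα, hβ, by rw [← hαβ, pow_one]⟩

theorem Eqv.eig_cg (h : Eqv H (Q : K) Φ) (hS : IsStandard H) {S : Set K}
    (hcv : CgL H (Φ A).toLinearMap S) {α : K}
    (hα : Module.End.HasEigenvalue (Φ A).toLinearMap α) :
    α ∈ S ∨ ∃ n : ℕ, α = (Q : K) ^ n := by
  have := hS.finite A
  obtain ⟨T, hT, hPT, hTS⟩ := hcv
  rcases eig_sup h.AT_stable hT hPT hα with h1 | h1
  · right
    by_contra hno
    push Not at hno
    have h2 : ∀ x ∈ AT H A, ∃ y ∈ AT H A, Φ A y - α • y = x := by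
      intro x hx
      unfold AT at hx
      induction hx using Submodule.span_induction with
      | mem x hx =>
        obtain ⟨n, D, hD, rfl⟩ := hx
        have h3 : Φ A (H.cl D) = (Q : K) ^ n • H.cl D := h.cl A n D hD
        have h4 : (Q : K) ^ n - α ≠ 0 := sub_ne_zero.2 (hno n).symm
        refine ⟨((Q : K) ^ n - α)⁻¹ • H.cl D, Submodule.smul_mem _ _
          (Submodule.subset_span ⟨n, D, hD, rfl⟩), ?_⟩
        rw [map_smul, h3, smul_comm α, ← smul_sub, ← sub_smul, smul_smul, inv_mul_cancel₀ h4,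
          one_smul]
      | zero => exact ⟨0, Submodule.zero_mem _, by rw [map_zero, smul_zero, sub_zero]⟩
      | add x y _ _ hx hy =>
        obtain ⟨x', hx', h3⟩ := hx
        obtain ⟨y', hy', h4⟩ := hy
        refine ⟨x' + y', Submodule.add_mem _ hx' hy', ?_⟩
        rw [map_add, smul_add, ← h3, ← h4]
        abel
      | smul r x _ hx =>
        obtain ⟨x', hx', h3⟩ := hx
        refine ⟨r • x', Submodule.smul_mem _ _ hx', ?_⟩
        rw [map_smul, smul_comm α, ← smul_sub, h3]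
    have h5 : Function.Surjective ((Φ A).toLinearMap.restrict h.AT_stable -
        α • (1 : Module.End K (AT H A : Submodule K (H.A A)))) := by
      rintro ⟨x, hx⟩
      obtain ⟨y, hy, hxy⟩ := h2 x hx
      exact ⟨⟨y, hy⟩, Subtype.ext hxy⟩
    have h6 := LinearMap.injective_iff_surjective.2 h5
    apply h1
    show Module.End.eigenspace _ α = ⊥
    rw [Module.End.eigenspace_def, LinearMap.ker_eq_bot]
    exact h6
  · exact Or.inl (hTS α h1)

theorem Gs.eig_tw (h : Gs H Q Φ X Z S B) (L : List ι) (hL : L.Nodup) :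
    ∀ γ, Module.End.HasEigenvalue (Φ (tw X Z L)).toLinearMap γ →
      Sh S {β | Module.End.HasEigenvalue (Φ Z).toLinearMap β} (Q : K) L γ := by
  classical
  induction L with
  | nil =>
    intro γ hγ
    exact ⟨∅, fun _ => 0, γ, 0, by simp, by simp, hγ, by rw [Finset.prod_empty, pow_zero, one_mul,
      one_mul]⟩
  | cons i L ih =>
    rw [List.nodup_cons] at hL
    intro γ hγ
    obtain ⟨α, β', hα, hβ', rfl⟩ := h.eqv.eig_prod h.std hγ
    obtain ⟨I, α', β, e, hI, hα', hβ, rfl⟩ := ih hL.2 β' hβ'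
    have hiI : i ∉ I := fun hi => hL.1 (hI i hi)
    rcases h.eqv.eig_cg h.std (h.cg i) hα with hαS | ⟨j, rfl⟩
    · refine ⟨insert i I, Function.update α' i α, β, e, ?_, ?_, hβ, ?_⟩
      · intro i' hi'
        rcases Finset.mem_insert.1 hi' with rfl | hi'
        · exact List.mem_cons_self
        · exact List.mem_cons_of_mem _ (hI i' hi')
      · intro i' hi'
        rcases Finset.mem_insert.1 hi' with rfl | hi'
        · rw [Function.update_self]; exact hαS
        · rw [Function.update_of_ne (ne_of_mem_of_not_mem hi' hiI)]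
          exact hα' i' hi'
      · rw [Finset.prod_insert hiI, Function.update_self]
        rw [Finset.prod_congr rfl fun i' hi' =>
          Function.update_of_ne (ne_of_mem_of_not_mem hi' hiI) α α']
        ring
    · refine ⟨I, α', β, e + j, fun i' hi' => List.mem_cons_of_mem _ (hI i' hi'), hα', hβ, ?_⟩
      rw [pow_add]
      ring

variable {M : Type} [AddCommGroup M] [Module K M] [FiniteDimensional K M]

/-- **one step** -/
theorem Gs.step (h : Gs H Q Φ X Z S B) {i : ι} {L : List ι} (hi : i ∉ L) (hL : L.Nodup) :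
    ∃ (J : Type) (_ : Fintype J) (deg : J → ℕ) (D E : J → C.A (X i)),
      IsDual (X i) (tw X Z L) deg D E ∧
      (∀ n, AK H (X i) n ≤ Submodule.span K {c | ∃ j, deg j = n ∧ c = H.cl (D j)}) ∧
      ∀ (G : ∀ X : 𝒱.Obj, ℤ → Submodule K (H.A X ⊗[K] M)), IsCorrTheory (modT H M G) →
        ∀ (μ : Module.End K M), (∀ ρ, μ.HasEigenvalue ρ → ρ ∈ B) → ∀ m : ℕ, 0 < m →
        (∀ (V : 𝒱.Obj) (n : ℤ) (v : H.A V ⊗[K] M), v ∈ G V n →
          ((opM H M Φ μ V) ^ m) v = (((Q : K) ^ n) ^ m) • v) →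
        HasKunneth (modT H M G) (X i) (tw X Z L) deg D := by
  classical
  have hfA := h.std.finite (X i)
  have hQK : (Q : K) ≠ 0 := h.eqv.ne
  obtain ⟨J, hJ, deg, D, E, hdual, hN⟩ := exists_dual h.std (h.eqv.nondeg hfA h.one_lt (h.cg i)
    (fun α hα w hw => by
      refine h.res1 {i} (Finset.singleton_nonempty i) (fun _ => α) ?_ 1 rfl 0 1 w one_pos ?_
      · intro i' hi'
        rw [Finset.mem_singleton.1 hi']
        exact hα
      · rw [Finset.prod_singleton, pow_zero, mul_one, mul_one, hw, pow_one, one_mul]))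
    (tw X Z L)
  refine ⟨J, hJ, deg, D, E, hdual, hN, fun G hG μ hμ m hm hpow => ?_⟩
  refine hasKunneth_of hdual hG fun n v hv => ?_
  rw [← act_proj hG, modT_act]
  refine (act_proj_mixM hdual hN (mem_mixM h.std h.eqv μ (h.cg i) ?_ (hpow _ n v hv))).symm
  intro α hα β' hβ' heq
  have := h.std.finite (tw X Z L)
  obtain ⟨w, hw⟩ := hβ'.exists_hasEigenvector
  obtain ⟨γ, ρ, hγ, hρ, hγρ⟩ := FL.eig_tensor (m := 1) hw.2 (by
    rw [pow_one]
    exact hw.apply_eq_smul)
  rw [pow_one] at hγρ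
  obtain ⟨I, α', β, e, hI, hα', hβ, rfl⟩ := h.eig_tw L hL γ hγ
  have hiI : i ∉ I := fun h0 => hi (hI i h0)
  have key : ∀ e' w' : ℕ, (α * β' * (Q : K) ^ e') ^ m ≠ ((Q : K) ^ w') ^ m := by
    intro e' w' heq'
    refine h.res (insert i I) (Finset.insert_nonempty i I) (Function.update α' i α) ?_ (β * ρ)
      ⟨β, ρ, hβ, hμ ρ hρ, rfl⟩ (e + e') m w' hm ?_
    · intro i' hi'
      rcases Finset.mem_insert.1 hi' with rfl | hi'
      · rw [Function.update_self]; exact hα
      · rw [Function.update_of_ne (ne_of_mem_of_not_mem hi' hiI)]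
        exact hα' i' hi'
    · rw [Finset.prod_insert hiI, Function.update_self,
        Finset.prod_congr rfl fun i' hi' =>
          Function.update_of_ne (ne_of_mem_of_not_mem hi' hiI) α α', mul_comm m, pow_mul,
          ← heq', ← hγρ, pow_add]
      congr 1
      ring
  rcases Int.le_total 0 n with hn | hn
  · obtain ⟨n', rfl⟩ := Int.eq_ofNat_of_zero_le hn
    refine key 0 n' ?_
    rw [pow_zero, mul_one, heq]
    norm_cast
  · obtain ⟨n', hn'⟩ := Int.eq_ofNat_of_zero_le (neg_nonneg.2 hn)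
    refine key n' 0 ?_
    have h3 : n = -(n' : ℤ) := by omega
    rw [mul_pow, heq, h3, ← mul_pow, zpow_neg, zpow_natCast,
      inv_mul_cancel₀ (pow_ne_zero _ hQK), pow_zero]

/-- **Degree by degree.** -/
theorem Gs.induct (h : Gs H Q Φ X Z S B) (hbig : ∀ i, Big H (X i)) (p : 𝒱.Obj → ℤ → Prop)
    (G : ∀ X : 𝒱.Obj, ℤ → Submodule K (H.A X ⊗[K] M)) (hG : IsCorrTheory (modT H M G))
    (μ : Module.End K M) (hμ : ∀ ρ, μ.HasEigenvalue ρ → ρ ∈ B) {m : ℕ} (hm : 0 < m)
    (hpow : ∀ (V : 𝒱.Obj) (n : ℤ) (v : H.A V ⊗[K] M), v ∈ G V n →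
      ((opM H M Φ μ V) ^ m) v = (((Q : K) ^ n) ^ m) • v)
    (hp : ∀ (i : ι) (V : 𝒱.Obj) (J : Type) (_ : Fintype J) (deg : J → ℕ) (D E : J → C.A (X i)),
      IsDual (X i) V deg D E → HasKunneth (modT H M G) (X i) V deg D → ∀ n : ℤ,
        (p ((X i).prod V) n ↔ ∀ j, p V (n - deg j)))
    {L : List ι} (hL : L.Nodup) (n : ℤ) : p (tw X Z L) n ↔
      ∀ m : ℤ, n - dims X L ≤ m → m ≤ n → p Z m := by
  refine dims_induct p (fun i L hi hL => ?_) hL n
  obtain ⟨J, hJ, deg, D, E, h1, h2, h3⟩ := h.step (M := M) hi hL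
  exact ⟨J, deg, h1.le, fun l hl => exists_deg_big (hbig i) h2 hl,
    hp i _ J hJ deg D E h1 (h3 G hG μ hμ m hm hpow)⟩

/-- **Surjectivity.** -/
theorem Gs.surj (h : Gs H Q Φ X Z S B) (hbig : ∀ i, Big H (X i))
    (G G' : ∀ X : 𝒱.Obj, ℤ → Submodule K (H.A X ⊗[K] M)) (hG : IsCorrTheory (modT H M G))
    (hG' : IsCorrTheory (modT H M G')) (hle : ∀ X n, G' X n ≤ G X n)
    (μ : Module.End K M) (hμ : ∀ ρ, μ.HasEigenvalue ρ → ρ ∈ B) {m : ℕ} (hm : 0 < m)
    (hpow : ∀ (V : 𝒱.Obj) (n : ℤ) (v : H.A V ⊗[K] M), v ∈ G V n →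
      ((opM H M Φ μ V) ^ m) v = (((Q : K) ^ n) ^ m) • v)
    {L : List ι} (hL : L.Nodup) (n : ℤ) : G (tw X Z L) n ≤ G' (tw X Z L) n ↔
      ∀ m : ℤ, n - dims X L ≤ m → m ≤ n → G Z m ≤ G' Z m := by
  have hiff : ∀ (V : 𝒱.Obj) (n : ℤ), G V n ≤ G' V n ↔ ∀ r ∈ (modT H M G).gr V n,
      ∃ t ∈ (modT H M G').gr V n, (LinearMap.id : (modT H M G').M V →ₗ[ℚ] (modT H M G').M V) t =
        r := by
    intro V n
    constructor
    · exact fun h0 r hr => ⟨r, h0 hr, rfl⟩
    · intro h0 r hr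
      obtain ⟨t, ht, rfl⟩ := h0 r hr
      exact ht
  refine h.induct hbig (fun V n => G V n ≤ G' V n) G hG μ hμ hm hpow ?_ hL n
  intro i V J hJ deg D E h1 h2 n
  beta_reduce
  rw [hiff]
  have hnat : Nat' (modT H M G') (modT H M G)
      (fun V => (LinearMap.id : (modT H M G').M V →ₗ[ℚ] (modT H M G').M V)) :=
    { mem := fun {X n t} ht => hle X n ht
      comm := fun Γ t => rfl }
  refine (surj_deg h1 hG' hG hnat h2 n).trans (forall_congr' fun j => ?_)
  exact (hiff V _).symm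

end Pool.Agent.N876.CG
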