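import Mathlib
import Pool.Agent.N876.CG.GalG

/-!
# Classes which are invariant under a subgroup of finite index
-/

set_option autoImplicit false
set_option linter.unusedSectionVars false

open CategoryTheory AlgebraicGeometry
open scoped TensorProduct

universe u

namespace Pool.Agent.N876.CG

open Module Polynomial Pool.Agent.H914 Pool.Agent.H914.VarClass Pool.Agent.H914.VarClass.Obj
  Pool.Agent.W492.BB Pool.Agent.W550.Corr Pool.Agent.W484.TB Pool.Agent.W484.CH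

theorem toLin_pow {K H : Type} [Field K] [Ring H] [Algebra K H] (f : H →ₐ[K] H) (m : ℕ) :
    (f ^ m).toLinearMap = f.toLinearMap ^ m := by
  induction m with
  | zero => rfl
  | succ m ih =>
    rw [pow_succ, pow_succ, ← ih]
    rfl

variable {k : Type u} [Field k] {𝒱 : VarClass k} {C : TheoryData.{u, 0, 0} 𝒱 ℚ} {K : Type}
  [Field K] [CharZero K] {H : WeilTheoryData.{u, 0, 0} C K} [hC : IsChow C] [hH : IsWeil H]
  {X Y Z : 𝒱.Obj} {M : Type} [AddCommGroup M] [Module K M] {Γ : Type} [Group Γ] {χ : Γ →* Kˣ}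
  {ρ : ∀ X : 𝒱.Obj, Γ →* (H.A X →ₐ[K] H.A X)} {μ : Γ →* Module.End K M}

theorem opM_pow (σ : Γ) (m : ℕ) (V : 𝒱.Obj) :
    opM H M (fun X => ρ X (σ ^ m)) (μ (σ ^ m)) V = (opM H M (fun X => ρ X σ) (μ σ) V) ^ m := by
  have h1 : ρ V (σ ^ m) = (ρ V σ) ^ m := map_pow _ _ _
  have h2 : μ (σ ^ m) = (μ σ) ^ m := map_pow _ _ _
  change TensorProduct.map (ρ V (σ ^ m)).toLinearMap (μ (σ ^ m)) =
    (TensorProduct.map (ρ V σ).toLinearMap (μ σ)) ^ m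
  rw [TensorProduct.map_pow, h1, h2, toLin_pow]

/-- the Galois action -/
theorem eqv_of (hp : ∀ (γ : Γ) {X Y : 𝒱.Obj} (f : X ⟶ Y) (b : H.A Y),
      ρ X γ (H.pull f b) = H.pull f (ρ Y γ b))
    (hc : ∀ (γ : Γ) (X : 𝒱.Obj) (i : ℕ) (z : C.A X), C.Deg i z →
      ρ X γ (H.cl z) = ((χ γ : Kˣ) : K) ^ i • H.cl z)
    (ht : ∀ (γ : Γ) (X : 𝒱.Obj) (a : H.A X),
      H.tr X (ρ X γ a) = ((χ γ : Kˣ) : K) ^ X.dim * H.tr X a) (γ : Γ) :
    Eqv H ((χ γ : Kˣ) : K) (fun X => ρ X γ) where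
  ne := (χ γ).ne_zero
  pull := fun f b => hp γ f b
  push := fun f a => push_of (fun X b => ⟨ρ X γ⁻¹ b, by
    rw [← AlgHom.mul_apply, ← map_mul, mul_inv_cancel, map_one, AlgHom.one_apply]⟩)
    (fun f b => hp γ f b) (fun X a => ht γ X a) f a
  cl := fun X i z hz => hc γ X i z hz
  tr := fun X a => ht γ X a

/-- the Tate classes for a subgroup -/
noncomputable def tateS (χ : Γ →* Kˣ) (ρ : ∀ X : 𝒱.Obj, Γ →* (H.A X →ₐ[K] H.A X))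
    (μ : Γ →* Module.End K M) (W : ℤ → Submodule K M) (t : ℤ) (Γ' : Subgroup Γ) (X : 𝒱.Obj)
    (n : ℤ) : Submodule K (H.A X ⊗[K] M) :=
  tateG (fun γ : Γ' => ((χ γ : Kˣ) : K)) (fun γ X => ρ X γ) (fun γ => μ γ) W t X n

theorem mem_tateS {W : ℤ → Submodule K M} {t : ℤ} {Γ' : Subgroup Γ} {n : ℤ}
    {v : H.A X ⊗[K] M} : v ∈ tateS χ ρ μ W t Γ' X n ↔ v ∈ part H W t X n ∧
      ∀ γ ∈ Γ', TensorProduct.map (ρ X γ).toLinearMap (μ γ) v = ((χ γ : Kˣ) : K) ^ n • v := by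
  unfold tateS
  rw [mem_tateG]
  exact and_congr Iff.rfl ⟨fun h γ hγ => h ⟨γ, hγ⟩, fun h g => h g g.2⟩

theorem tateS_corr (h : ∀ γ, Eqv H ((χ γ : Kˣ) : K) (fun X => ρ X γ)) (W : ℤ → Submodule K M)
    (t : ℤ) (Γ' : Subgroup Γ) : IsCorrTheory (modT H M (tateS χ ρ μ W t Γ')) := by
  refine modT_corr ?_
  intro X Y i j c v hc hv
  exact tateG_act (I := Γ') (χ := fun γ : Γ' => ((χ γ : Kˣ) : K))
    (Φ := fun (γ : Γ') (X : 𝒱.Obj) => ρ X γ) (μ := fun γ : Γ' => μ γ) (W := W) (t := t)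
    (fun γ : Γ' => h (γ : Γ)) hc hv

theorem tateS_pow {Q : ℕ} {σ : Γ} (hσ : ((χ σ : Kˣ) : K) = Q) (W : ℤ → Submodule K M) (t : ℤ)
    (Γ' : Subgroup Γ) [Γ'.FiniteIndex] : ∃ m : ℕ, 0 < m ∧ ∀ (V : 𝒱.Obj) (n : ℤ)
      (v : H.A V ⊗[K] M), v ∈ tateS χ ρ μ W t Γ' V n →
        ((opM H M (fun X => ρ X σ) (μ σ) V) ^ m) v = (((Q : K) ^ n) ^ m) • v := by
  obtain ⟨m, hm, -, hmem⟩ :=
    Γ'.exists_pow_mem_of_index_ne_zero Subgroup.FiniteIndex.index_ne_zero σ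
  refine ⟨m, hm, fun V n v hv => ?_⟩
  rw [← opM_pow]
  refine ((mem_tateS.1 hv).2 (σ ^ m) hmem).trans ?_
  congr 1
  rw [map_pow, Units.val_pow_eq_pow_val, hσ, ← zpow_natCast, ← zpow_natCast, ← zpow_mul,
    ← zpow_mul, mul_comm]

variable {ι : Type} {V : ι → 𝒱.Obj} {S : ι → Set K} [IsAlgClosed K] [FiniteDimensional K M]
  {Q : ℕ} {σ : Γ}

/-- **Surjectivity for a subgroup of finite index.** -/
theorem gal_surj (h : ∀ γ, Eqv H ((χ γ : Kˣ) : K) (fun X => ρ X γ))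
    (hσ : ((χ σ : Kˣ) : K) = Q)
    (hs : Gs H Q (fun X => ρ X σ) V Z S {r | Module.End.HasEigenvalue (μ σ) r})
    (hbig : ∀ i, Big H (V i)) (W : ℤ → Submodule K M) (t : ℤ) (Γ' : Subgroup Γ) [Γ'.FiniteIndex]
    (G : ∀ X : 𝒱.Obj, ℤ → Submodule K (H.A X ⊗[K] M))
    (hG : ∀ {X Y : 𝒱.Obj} {i j : ℤ} {Γ : C.A (X.prod Y)} {v : H.A X ⊗[K] M},
      C.Deg (X.dim + j) Γ → v ∈ G X i → actM H M Γ v ∈ G Y (i + j))
    (hle : ∀ X n, G X n ≤ tateS χ ρ μ W t Γ' X n) {L : List ι} (hL : L.Nodup) (n : ℤ) :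
    tateS χ ρ μ W t Γ' (tw V Z L) n ≤ G (tw V Z L) n ↔
      ∀ m : ℤ, n - dims V L ≤ m → m ≤ n → tateS χ ρ μ W t Γ' Z m ≤ G Z m := by
  obtain ⟨m, hm, hpow⟩ := tateS_pow (H := H) (ρ := ρ) (μ := μ) hσ W t Γ'
  exact hs.surj hbig _ G (tateS_corr h W t Γ') (modT_corr hG) hle (μ σ) (fun r hr => hr) hm hpow
    hL n

/-- **The Künneth formula for the Tate classes.** -/
theorem gal_kun (h : ∀ γ, Eqv H ((χ γ : Kˣ) : K) (fun X => ρ X γ))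
    (hσ : ((χ σ : Kˣ) : K) = Q)
    (hs : Gs H Q (fun X => ρ X σ) V Z S {r | Module.End.HasEigenvalue (μ σ) r})
    {i : ι} {L : List ι} (hi : i ∉ L) (hL : L.Nodup) :
    ∃ (J : Type) (_ : Fintype J) (deg : J → ℕ) (D E : J → C.A (V i)),
      IsDual (V i) (tw V Z L) deg D E ∧
      (∀ n, AK H (V i) n ≤ Submodule.span K {c | ∃ j, deg j = n ∧ c = H.cl (D j)}) ∧
      ∀ (W : ℤ → Submodule K M) (t : ℤ) (Γ' : Subgroup Γ) [Γ'.FiniteIndex] (n : ℤ)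
        (v : H.A ((V i).prod (tw V Z L)) ⊗[K] M), v ∈ tateS χ ρ μ W t Γ' _ n →
        ∃! z : J → H.A (tw V Z L) ⊗[K] M, (∀ j, z j ∈ tateS χ ρ μ W t Γ' _ (n - deg j)) ∧
          v = ∑ j, actM H M (extBy C (tw V Z L) (D j)) (z j) := by
  obtain ⟨J, hJ, deg, D, E, h1, h2, h3⟩ := hs.step (M := M) hi hL
  refine ⟨J, hJ, deg, D, E, h1, h2, fun W t Γ' _ n v hv => ?_⟩
  obtain ⟨m, hm, hpow⟩ := tateS_pow (H := H) (ρ := ρ) (μ := μ) hσ W t Γ'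
  exact h3 _ (tateS_corr h W t Γ') (μ σ) (fun r hr => hr) m hm hpow n v hv

end Pool.Agent.N876.CG
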