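import Mathlib
import Pool.Agent.N876.CG.RelApp

/-!
# Generalized eigenvectors of the Frobenius endomorphism of `X × U`
-/

set_option autoImplicit false
set_option linter.unusedSectionVars false

open CategoryTheory AlgebraicGeometry
open scoped TensorProduct

universe u

namespace Pool.Agent.N876.CG

open Module Polynomial Pool.Agent.H914 Pool.Agent.H914.VarClass Pool.Agent.H914.VarClass.Obj
  Pool.Agent.W492.BB Pool.Agent.W550.Corr Pool.Agent.W484.TB Pool.Agent.W484.CH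

section clc

variable {k : Type u} [Field k] {𝒱 : VarClass k} {C : TheoryData.{u, 0, 0} 𝒱 ℚ} {K : Type}
  [Field K] {H : WeilTheoryData.{u, 0, 0} C K} [hC : IsChow C] {X Y Z : 𝒱.Obj}

/-- the associativity isomorphism has degree one -/
theorem push_aI (hS : IsStandard H) : C.push (aI X Y Z) 1 = 1 := by
  obtain ⟨x, -, -, hx⟩ := exists_deg_one C X
  have hdeg : C.Deg 0 (C.push (aI X Y Z) 1) := by
    have h1 := C.push_mem (aI X Y Z) (C.one_mem ((X.prod Y).prod Z))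
    have h2 : (0 : ℤ) + 1 * ((X.prod (Y.prod Z)).dim - ((X.prod Y).prod Z).dim) = 0 := by
      simp only [Obj.dim_prod]
      push_cast
      ring
    first
    | rwa [h2] at h1
    | (convert h1 using 1; simp only [Obj.dim_prod]; push_cast; ring)
  obtain ⟨c, hc⟩ := hS.chow_zero _ _ hdeg
  change C.push (aI X Y Z) 1 = c • 1 at hc
  have e1 : aI X Y Z ≫ snd X (Y.prod Z) = prodMap (snd X Y) (𝟙 Z) := by
    apply prod_ext <;> simp [aI]
  have e2 : aI X Y Z ≫ fst X (Y.prod Z) = fst (X.prod Y) Z ≫ fst X Y := by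
    simp [aI]
  have h1 : C.push (snd X (Y.prod Z)) (C.push (aI X Y Z) (C.pull (aI X Y Z)
      (C.pull (fst X (Y.prod Z)) x))) = c • 1 := by
    have h2 := C.proj_right (aI X Y Z) 1 (C.pull (fst X (Y.prod Z)) x)
    rw [one_mul] at h2
    rw [h2, hc, smul_mul_assoc, one_mul, map_smul, hx]
  rw [← C.push_comp, e1, ← C.pull_comp, e2, C.pull_comp, ← C.base_fst, hx, map_one] at h1
  rw [hc]
  have h3 := congrArg (C.pull (snd X (Y.prod Z))) h1
  rw [map_smul, map_one] at h3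
  exact h3.symm

theorem comp_eq_extR' (hS : IsStandard H) (Γ : C.A (X.prod Y)) (Δ : C.A (Y.prod Z)) :
    C.comp Γ Δ = C.extR Δ X Γ := by
  have h0 : ∀ b : C.A (X.prod (Y.prod Z)), C.push (aI X Y Z) (C.pull (aI X Y Z) b) = b := by
    intro b
    have h1 := C.proj_right (aI X Y Z) 1 b
    rw [one_mul, push_aI hS, one_mul] at h1
    exact h1
  have h1 : C.extR Δ X Γ = C.push (u13 X Y Z) (C.pull (snd X (Y.prod Z)) Δ *
      C.pull (u12 X Y Z) Γ) := rfl
  rw [h1, ← h0 (C.pull (snd X (Y.prod Z)) Δ * C.pull (u12 X Y Z) Γ), map_mul, ← C.pull_comp,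
    ← C.pull_comp, ← C.push_comp, TheoryData.comp]
  have e1 : aI X Y Z ≫ u13 X Y Z = t13 X Y Z := by
    apply prod_ext <;> simp [aI, u13, t13, comp_lift]
  have e2 : aI X Y Z ≫ u12 X Y Z = fst (X.prod Y) Z := by
    apply prod_ext <;> simp [aI, u12, comp_lift]
  have e3 : aI X Y Z ≫ snd X (Y.prod Z) = t23 X Y Z := by
    apply prod_ext <;> simp [aI, t23, comp_lift]
  rw [e1, e2, e3]

theorem comp_cograph_right (hS : IsStandard H) (Γ : C.A (X.prod Y)) (g : Z ⟶ Y) :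
    C.comp Γ (C.cograph g) = C.pull (prodMap (𝟙 X) g) Γ := by
  have e1 : prodMap (𝟙 X) (Obj.lift g (𝟙 Z)) ≫ u12 X Y Z = prodMap (𝟙 X) g := by
    apply prod_ext <;> simp [u12]
  have e2 : prodMap (𝟙 X) (Obj.lift g (𝟙 Z)) ≫ u13 X Y Z = 𝟙 _ := by
    apply prod_ext <;> simp [u13]
  rw [comp_eq_extR' hS, TheoryData.extR, TheoryData.cograph, C.base_snd, ← C.proj_right,
    ← C.push_comp, map_one, one_mul, ← C.pull_comp, e1, e2, C.push_id]

/-- **Frobenius and correspondences.** -/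
theorem frob_corr (hS : IsStandard H) {πX : X ⟶ X} {πY : Y ⟶ Y} {Q : ℕ} (hQ : Q ≠ 0) (hX : IsFrobenius C πX Q)
    (hXY : IsFrobenius C (prodMap πX πY) Q) {j : ℤ} {Γ : C.A (X.prod Y)}
    (hΓ : C.Deg (X.dim + j) Γ) :
    C.comp Γ (C.cograph πY) = ((Q : ℚ) ^ j) • C.comp (C.cograph πX) Γ := by
  have hQ' : (Q : ℚ) ≠ 0 := by exact_mod_cast hQ
  rw [comp_cograph_right hS, comp_cograph]
  have e1 : prodMap πX (𝟙 Y) ≫ prodMap (𝟙 X) πY = prodMap πX πY := by
    apply prod_ext <;> simp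
  have h1 : C.push (prodMap πX (𝟙 Y)) 1 = (Q : ℚ) ^ X.dim • (1 : C.A (X.prod Y)) := by
    have h2 := C.base_fst πX Y 1
    have h3 : C.push πX 1 = (Q : ℚ) ^ X.dim • (1 : C.A X) := hX.degree
    have h4 : C.pull (fst X Y) (1 : C.A X) = 1 := map_one _
    rw [h3, map_smul, h4] at h2
    exact h2.symm
  have h2 : C.push (prodMap πX (𝟙 Y)) (C.pull (prodMap πX (𝟙 Y)) (C.pull (prodMap (𝟙 X) πY) Γ)) =
      (Q : ℚ) ^ X.dim • C.pull (prodMap (𝟙 X) πY) Γ := by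
    have h3 := C.proj_right (prodMap πX (𝟙 Y)) 1 (C.pull (prodMap (𝟙 X) πY) Γ)
    rw [one_mul, h1, smul_mul_assoc, one_mul] at h3
    exact h3
  rw [← C.pull_comp, e1] at h2
  have h3 : C.pull (prodMap πX πY) Γ = (Q : ℚ) ^ ((X.dim : ℤ) + j) • Γ := by
    rcases lt_or_ge ((X.dim : ℤ) + j) 0 with hneg | hpos
    · have h4 : Γ ∈ C.gr (X.prod Y) ((X.dim : ℤ) + j) := hΓ
      rw [C.gr_neg _ _ hneg, Submodule.mem_bot] at h4
      rw [h4, map_zero, smul_zero]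
    · obtain ⟨n, hn⟩ := Int.eq_ofNat_of_zero_le hpos
      rw [hn] at hΓ ⊢
      have h4 := hXY.chow n Γ hΓ
      change C.pull (prodMap πX πY) Γ = _ at h4
      rw [h4]
      simp
  rw [h3, map_smul, zpow_add₀ hQ', zpow_natCast, mul_smul] at h2
  exact (smul_right_injective _ (pow_ne_zero X.dim hQ') h2).symm

end clc

section gen

variable {k : Type u} [Field k] {𝒱 : VarClass k} {C : TheoryData.{u, 0, 0} 𝒱 ℚ} {K : Type}
  [Field K] {H : WeilTheoryData.{u, 0, 0} C K} [hC : IsChow C]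

/-- The Frobenius endomorphism of `X × U`. -/
noncomputable def Phi (T : CorrData C) (φ : ∀ X : 𝒱.Obj, Module.End ℚ (T.M X))
    (F : ∀ X : 𝒱.Obj, X ⟶ X) (X : 𝒱.Obj) : Module.End ℚ (T.M X) :=
  T.act (C.cograph (F X)) * φ X

/-- The Frobenius endomorphism minus `Q ^ n`. -/
noncomputable def Del (T : CorrData C) (φ : ∀ X : 𝒱.Obj, Module.End ℚ (T.M X))
    (F : ∀ X : 𝒱.Obj, X ⟶ X) (Q : ℕ) (X : 𝒱.Obj) (n : ℤ) : Module.End ℚ (T.M X) :=
  Phi T φ F X - ((Q : ℚ) ^ n) • (1 : Module.End ℚ (T.M X))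

/-- The theory of the generalized eigenvectors. -/
noncomputable def genT (T : CorrData C) (φ : ∀ X : 𝒱.Obj, Module.End ℚ (T.M X))
    (F : ∀ X : 𝒱.Obj, X ⟶ X) (Q : ℕ) : CorrData C where
  M := T.M
  group := T.group
  module := T.module
  gr X n := T.gr X n ⊓ Module.End.maxGenEigenspace (Phi T φ F X) ((Q : ℚ) ^ n)
  act := T.act

theorem mem_genT {T : CorrData C} {φ : ∀ X : 𝒱.Obj, Module.End ℚ (T.M X)}
    {F : ∀ X : 𝒱.Obj, X ⟶ X} {Q : ℕ} {X : 𝒱.Obj} {n : ℤ} {t : T.M X} :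
    t ∈ (genT T φ F Q).gr X n ↔ t ∈ T.gr X n ∧ ∃ l : ℕ, (Del T φ F Q X n ^ l) t = 0 := by
  refine Submodule.mem_inf.trans (and_congr Iff.rfl ?_)
  rw [Module.End.mem_maxGenEigenspace]
  rfl

theorem mem_genT_iff {T : CorrData C} {φ : ∀ X : 𝒱.Obj, Module.End ℚ (T.M X)}
    {F : ∀ X : 𝒱.Obj, X ⟶ X} {Q : ℕ} {X : 𝒱.Obj} {n : ℤ} {t : T.M X} :
    t ∈ (genT T φ F Q).gr X n ↔ t ∈ T.gr X n ∧
      t ∈ Module.End.maxGenEigenspace (Phi T φ F X) ((Q : ℚ) ^ n) :=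
  Submodule.mem_inf

variable {T : CorrData C} (hT : IsCorrTheory T) {φ : ∀ X : 𝒱.Obj, Module.End ℚ (T.M X)}
  (hφ : ∀ {X Y : 𝒱.Obj} (Γ : C.A (X.prod Y)) (t : T.M X), φ Y (T.act Γ t) = T.act Γ (φ X t))
  {F : ∀ X : 𝒱.Obj, X ⟶ X} {Q : ℕ} (hQ : Q ≠ 0) (hF : ∀ X, IsFrobenius C (F X) Q)
  (hprod : ∀ X Y, F (X.prod Y) = prodMap (F X) (F Y)) (hS : IsStandard H)

include hT hφ hQ hF hprod hS

theorem del_corr {X Y : 𝒱.Obj} {i j : ℤ} {Γ : C.A (X.prod Y)} (hΓ : C.Deg (X.dim + j) Γ)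
    (t : T.M X) : Del T φ F Q Y (i + j) (T.act Γ t) =
      (Q : ℚ) ^ j • T.act Γ (Del T φ F Q X i t) := by
  have hQ' : (Q : ℚ) ≠ 0 := by exact_mod_cast hQ
  have hXY := hF (X.prod Y)
  rw [hprod] at hXY
  have h1 : T.act (C.cograph (F Y)) (T.act Γ (φ X t)) =
      (Q : ℚ) ^ j • T.act Γ (T.act (C.cograph (F X)) (φ X t)) := by
    rw [← hT.act_comp, frob_corr hS hQ (hF X) hXY hΓ, map_smul, LinearMap.smul_apply, hT.act_comp]
  simp only [Del, Phi, LinearMap.sub_apply, Module.End.mul_apply, LinearMap.smul_apply,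
    Module.End.one_apply]
  rw [hφ, h1, map_sub, smul_sub, map_smul, smul_smul, ← zpow_add₀ hQ', add_comm j i]

theorem genT_corr : IsCorrTheory (genT T φ F Q) where
  app_mem := by
    intro X Y i j Γ m hΓ hm
    obtain ⟨h1, l, h2⟩ := mem_genT.1 hm
    refine mem_genT.2 ⟨hT.app_mem hΓ h1, l, ?_⟩
    have h3 : ∀ (l : ℕ) (t : T.M X), (Del T φ F Q Y (i + j) ^ l) (T.act Γ t) =
        ((Q : ℚ) ^ j) ^ l • T.act Γ ((Del T φ F Q X i ^ l) t) := by
      intro l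
      induction l with
      | zero => intro t; simp
      | succ l ih =>
        intro t
        rw [pow_succ, Module.End.mul_apply, del_corr hT hφ hQ hF hprod hS hΓ, map_smul, ih, smul_smul,
          pow_succ (Del T φ F Q X i), Module.End.mul_apply]
        congr 1
        ring
    have h4 := h3 l m
    rw [h2, map_zero, smul_zero] at h4
    exact h4
  app_comp := fun Γ Δ m => hT.app_comp Γ Δ m
  app_id := fun m => hT.app_id m

theorem genT_rel {χ : ℚ[X]} (hχ : ∀ (X : 𝒱.Obj) (n : ℤ) (t : T.M X), t ∈ T.gr X n →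
    aeval (φ X) χ t = 0) : RelTheory (genT T φ F Q) φ F Q χ where
  corr := genT_corr hT hφ hQ hF hprod hS
  comm := hφ
  power := fun X n t ht => (mem_genT.1 ht).2
  poly := fun X n t ht => hχ X n t (mem_genT.1 ht).1

omit hφ hQ hprod hS in
/-- semisimplicity in terms of generalized eigenvectors -/
theorem ss_iff (hmem : ∀ (X : 𝒱.Obj) (n : ℤ) (t : T.M X), t ∈ T.gr X n → φ X t ∈ T.gr X n)
    (X : 𝒱.Obj) (n : ℤ) :
    (∀ t ∈ T.gr X n, Del T φ F Q X n (Del T φ F Q X n t) = 0 → Del T φ F Q X n t = 0) ↔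
      ∀ t ∈ (genT T φ F Q).gr X n, Del T φ F Q X n t = 0 := by
  have hst : ∀ t ∈ T.gr X n, Del T φ F Q X n t ∈ T.gr X n := by
    intro t ht
    refine Submodule.sub_mem _ ?_ (Submodule.smul_mem _ _ ht)
    have h1 : C.Deg (X.dim + (0 : ℤ)) (C.cograph (F X)) := by
      rw [add_zero]
      exact cograph_mem _
    have h2 := hT.act_mem h1 (hmem X n t ht)
    rw [add_zero] at h2
    exact h2
  constructor
  · intro h t ht
    obtain ⟨h1, l, h2⟩ := mem_genT.1 ht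
    induction l generalizing t with
    | zero =>
      rw [pow_zero, Module.End.one_apply] at h2
      rw [h2, map_zero]
    | succ l ih =>
      refine h t h1 ?_
      have h3 : Del T φ F Q X n t ∈ T.gr X n := hst t h1
      rw [pow_succ, Module.End.mul_apply] at h2
      exact ih _ (mem_genT.2 ⟨h3, l, h2⟩) h3 h2
  · intro h t ht h2
    exact h t (mem_genT.2 ⟨ht, 2, by rw [pow_two, Module.End.mul_apply]; exact h2⟩)

end gen

section ss

variable {k : Type u} [Field k] {𝒱 : VarClass k} {C : TheoryData.{u, 0, 0} 𝒱 ℚ} {K : Type}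
  [Field K] {H : WeilTheoryData.{u, 0, 0} C K} [hC : IsChow C]
  {A Z : 𝒱.Obj} {J : Type} [Fintype J] {deg : J → ℕ} {D E : J → C.A A}

/-- **Semisimplicity of the eigenvalue `Q ^ n`, degree by degree.** -/
theorem ss_step {T : CorrData C} (hT : IsCorrTheory T) {φ : ∀ X : 𝒱.Obj, Module.End ℚ (T.M X)}
    (hφ : ∀ {X Y : 𝒱.Obj} (Γ : C.A (X.prod Y)) (t : T.M X), φ Y (T.act Γ t) = T.act Γ (φ X t))
    {F : ∀ X : 𝒱.Obj, X ⟶ X} {Q : ℕ} (hQ : Q ≠ 0) (hF : ∀ X, IsFrobenius C (F X) Q)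
    (hprod : ∀ X Y, F (X.prod Y) = prodMap (F X) (F Y)) (hS : IsStandard H)
    (h : IsDual A Z deg D E) (hK : HasKunneth (genT T φ F Q) A Z deg D) (n : ℤ) :
    (∀ t ∈ (genT T φ F Q).gr (A.prod Z) n, Del T φ F Q (A.prod Z) n t = 0) ↔
      ∀ j, ∀ t ∈ (genT T φ F Q).gr Z (n - deg j), Del T φ F Q Z (n - deg j) t = 0 := by
  have h1 := ss_deg (T := genT T φ F Q) hQ (πA := F A) (πZ := F Z) (hF A) φ hφ h
    (genT_corr hT hφ hQ hF hprod hS) hK n
  have h2 : ∀ (X : 𝒱.Obj) (n : ℤ) (t : T.M X), Del T φ F Q X n t = 0 ↔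
      T.act (C.cograph (F X)) (φ X t) = (Q : ℚ) ^ n • t := by
    intro X n t
    rw [Del, Phi, LinearMap.sub_apply, sub_eq_zero]
    rfl
  simp only [h2]
  rw [hprod A Z]
  exact h1

end ss

end Pool.Agent.N876.CG
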