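import Mathlib
import Pool.Agent.N876.CG.GenT
import Pool.Agent.N876.CG.GalT

/-!
# The Frobenius endomorphism on the tensor products `H(X) ⊗ M`
-/

set_option autoImplicit false
set_option linter.unusedSectionVars false

open CategoryTheory AlgebraicGeometry
open scoped TensorProduct

universe u

namespace Pool.Agent.N876.CG

open Module Polynomial Pool.Agent.H914 Pool.Agent.H914.VarClass Pool.Agent.H914.VarClass.Obj
  Pool.Agent.W492.BB Pool.Agent.W550.Corr Pool.Agent.W484.TB Pool.Agent.W484.CH

variable {k : Type u} [Field k] {𝒱 : VarClass k} {C : TheoryData.{u, 0, 0} 𝒱 ℚ} {K : Type}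
  [Field K] [CharZero K] {H : WeilTheoryData.{u, 0, 0} C K} [hC : IsChow C] [hH : IsWeil H]
  {X Y Z : 𝒱.Obj} {M : Type} [AddCommGroup M] [Module K M]
  {G : ∀ X : 𝒱.Obj, ℤ → Submodule K (H.A X ⊗[K] M)} {μ : Module.End K M}
  {F : ∀ X : 𝒱.Obj, X ⟶ X} {Q : ℕ}

variable (G μ) in
/-- the operator of an endomorphism of `M` -/
noncomputable def phiM (X : 𝒱.Obj) : Module.End ℚ ((modT H M G).M X) :=
  letI : Module ℚ (H.A X ⊗[K] M) := Module.compHom _ (algebraMap ℚ K)
  { toFun := fun v => LinearMap.lTensor (H.A X) μ v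
    map_add' := fun v w => map_add _ v w
    map_smul' := fun c v => (LinearMap.lTensor (H.A X) μ).map_smul (algebraMap ℚ K c) v }

theorem phiM_apply (v : H.A X ⊗[K] M) : phiM G μ X v = LinearMap.lTensor (H.A X) μ v := rfl

theorem modT_smul (c : ℚ) (v : H.A X ⊗[K] M) :
    (c • (1 : Module.End ℚ ((modT H M G).M X))) v = (c : K) • v := rfl

theorem phiM_comm (Γ : C.A (X.prod Y)) (v : (modT H M G).M X) :
    phiM G μ Y ((modT H M G).act Γ v) = (modT H M G).act Γ (phiM G μ X v) := by
  change LinearMap.lTensor (H.A Y) μ (actM H M Γ v) = actM H M Γ (LinearMap.lTensor (H.A X) μ v)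
  induction v using TensorProduct.induction_on with
  | zero => simp only [map_zero]
  | tmul a x => rfl
  | add v w hv hw => simp only [map_add, hv, hw]

theorem phiM_pow (m : ℕ) (v : H.A X ⊗[K] M) :
    (phiM G μ X ^ m) v = LinearMap.lTensor (H.A X) (μ ^ m) v := by
  induction m generalizing v with
  | zero =>
    rw [pow_zero, pow_zero, Module.End.one_apply]
    change v = LinearMap.lTensor (H.A X) LinearMap.id v
    rw [LinearMap.lTensor_id]
    rfl
  | succ m ih =>
    rw [pow_succ, Module.End.mul_apply, ih, phiM_apply, pow_succ, Module.End.mul_eq_comp,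
      LinearMap.lTensor_comp]
    rfl

theorem phiM_aeval (p : ℚ[X]) (v : H.A X ⊗[K] M) :
    (aeval (phiM G μ X) p) v =
      LinearMap.lTensor (H.A X) (aeval μ (p.map (algebraMap ℚ K))) v := by
  induction p using Polynomial.induction_on' with
  | add p q hp hq =>
    rw [map_add, LinearMap.add_apply, hp, hq, Polynomial.map_add, map_add, LinearMap.lTensor_add]
    rfl
  | monomial n a =>
    rw [aeval_monomial, Polynomial.map_monomial, aeval_monomial, Module.End.mul_apply, phiM_pow,
      Module.algebraMap_end_apply, Module.algebraMap_end_eq_smul_id, smul_mul_assoc,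
      LinearMap.lTensor_smul]
    change (algebraMap ℚ K a) • (LinearMap.lTensor (H.A X) (μ ^ n) v) = _
    rw [LinearMap.smul_apply]
    rfl

theorem phiM_root {χ : ℚ[X]} (h : aeval μ (χ.map (algebraMap ℚ K)) = 0)
    (v : (modT H M G).M X) : (aeval (phiM G μ X) χ) v = 0 := by
  refine (phiM_aeval χ v).trans ?_
  rw [h, LinearMap.lTensor_zero]
  rfl

theorem Phi_modT (v : H.A X ⊗[K] M) :
    Phi (modT H M G) (phiM G μ) F X v =
      TensorProduct.map (H.pull (F X)).toLinearMap μ v := by
  change actM H M (C.cograph (F X)) (LinearMap.lTensor (H.A X) μ v) = _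
  induction v using TensorProduct.induction_on with
  | zero => simp only [map_zero]
  | tmul a x =>
    rw [LinearMap.lTensor_tmul, actM_tmul, act_cl_cograph, TensorProduct.map_tmul]
    rfl
  | add v w hv hw => simp only [map_add, hv, hw]

theorem Del_modT (n : ℤ) (v : H.A X ⊗[K] M) :
    Del (modT H M G) (phiM G μ) F Q X n v =
      TensorProduct.map (H.pull (F X)).toLinearMap μ v - ((Q : K) ^ n) • v := by
  refine congrArg₂ (fun a b : H.A X ⊗[K] M => a - b) (Phi_modT (G := G) v) ?_
  refine (modT_smul (G := G) _ _).trans ?_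
  push_cast
  rfl

theorem nil_modT (V : 𝒱.Obj) :
    NilT H (genT (modT H M G) (phiM G μ) F Q) V := by
  intro Γ hΓ h0
  refine ⟨1, ?_⟩
  rw [pow_one]
  refine LinearMap.ext fun v => ?_
  change actM H M Γ v = (0 : H.A V ⊗[K] M)
  have h1 : ∀ v : H.A V ⊗[K] M, actM H M Γ v = 0 := by
    intro v
    induction v using TensorProduct.induction_on with
    | zero => rw [map_zero]
    | tmul a x => rw [actM_tmul, h0, TensorProduct.zero_tmul]
    | add v w hv hw => rw [map_add, hv, hw, add_zero]
  exact h1 v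

theorem phiM_part {W : ℤ → Submodule K M} {t : ℤ} (hW : ∀ j, ∀ x ∈ W j, μ x ∈ W j) {n : ℤ}
    {v : H.A X ⊗[K] M} (hv : v ∈ part H W t X n) :
    LinearMap.lTensor (H.A X) μ v ∈ part H W t X n := by
  unfold part at hv
  induction hv using Submodule.span_induction with
  | mem v hv =>
    obtain ⟨i, a, x, ha, hx, rfl⟩ := hv
    exact Submodule.subset_span ⟨i, a, μ x, ha, hW _ x hx, rfl⟩
  | zero => rw [map_zero]; exact Submodule.zero_mem _
  | add v w _ _ hv hw => rw [map_add]; exact Submodule.add_mem _ hv hw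
  | smul c v _ hv => rw [map_smul]; exact Submodule.smul_mem _ _ hv

/-- the theory of the generalized eigenvectors on `H(X) ⊗ M` -/
theorem mod_rel (hG : IsCorrTheory (modT H M G)) (hQ : Q ≠ 0)
    (hF : ∀ X, IsFrobenius C (F X) Q) (hprod : ∀ X Y, F (X.prod Y) = prodMap (F X) (F Y))
    (hS : IsStandard H) {χ : ℚ[X]} (hχ : aeval μ (χ.map (algebraMap ℚ K)) = 0) :
    RelTheory (genT (modT H M G) (phiM G μ) F Q) (phiM G μ) F Q χ :=
  genT_rel hG (fun Γ t => phiM_comm Γ t) hQ hF hprod hS fun _ _ t _ => phiM_root hχ t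

end Pool.Agent.N876.CG
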