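import Mathlib
import Pool.Agent.N876.CG.ModG

/-!
# Maps to `H(X) ⊗ M`: injectivity, surjectivity, semisimplicity
-/

set_option autoImplicit false
set_option linter.unusedSectionVars false

open CategoryTheory AlgebraicGeometry
open scoped TensorProduct

universe u

namespace Pool.Agent.N876.CG

open Module Polynomial Pool.Agent.H914 Pool.Agent.H914.VarClass Pool.Agent.H914.VarClass.Obj
  Pool.Agent.W492.BB Pool.Agent.W550.Corr Pool.Agent.W484.TB Pool.Agent.W484.CH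

variable {k : Type u} [Field k] {𝒱 : VarClass k} {C : TheoryData.{u, 0, 0} 𝒱 ℚ} {K : Type}
  [Field K] [CharZero K] {H : WeilTheoryData.{u, 0, 0} C K} [hC : IsChow C] [hH : IsWeil H]
  {M : Type} [AddCommGroup M] [Module K M]

variable (H) in
/-- A map from a theory of motivic groups to `H(X) ⊗ M`. -/
structure RegTo (F : ∀ X : 𝒱.Obj, X ⟶ X) (Q : ℕ)
    (W : ℤ → Submodule K M) (μ : Module.End K M) (t : ℤ) (T : CorrData C)
    (φ : ∀ X : 𝒱.Obj, Module.End ℚ (T.M X))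
    (reg : ∀ X : 𝒱.Obj, T.M X →ₗ[ℚ] (modT H M (part H W t)).M X) : Prop where
  corr : IsCorrTheory T
  comm : ∀ {X Y : 𝒱.Obj} (Γ : C.A (X.prod Y)) (z : T.M X), φ Y (T.act Γ z) = T.act Γ (φ X z)
  power : ∀ (X : 𝒱.Obj) (n : ℤ) (z : T.M X), z ∈ T.gr X n → Del T φ F Q X n z = 0
  mem : ∀ (X : 𝒱.Obj) (n : ℤ) (z : T.M X), z ∈ T.gr X n → reg X z ∈ part H W t X n
  act : ∀ {X Y : 𝒱.Obj} (Γ : C.A (X.prod Y)) (z : T.M X),
    reg Y (T.act Γ z) = actM H M Γ (reg X z)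
  frob : ∀ (X : 𝒱.Obj) (z : T.M X), reg X (φ X z) = LinearMap.lTensor (H.A X) μ (reg X z)

variable (H) in
/-- surjectivity onto the eigenvectors and semisimplicity -/
def OSat (F : ∀ X : 𝒱.Obj, X ⟶ X) (Q : ℕ)
    (W : ℤ → Submodule K M) (μ : Module.End K M) (t : ℤ) (T : CorrData C)
    (reg : ∀ X : 𝒱.Obj, T.M X →ₗ[ℚ] (modT H M (part H W t)).M X) (V : 𝒱.Obj) (n : ℤ) : Prop :=
  (∀ v : (modT H M (part H W t)).M V, v ∈ (modT H M (part H W t)).gr V n →
    Del (modT H M (part H W t)) (phiM (part H W t) μ) F Q V n v = 0 →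
      ∃ z ∈ T.gr V n, reg V z = v) ∧
  (∀ v ∈ (modT H M (part H W t)).gr V n,
    Del (modT H M (part H W t)) (phiM (part H W t) μ) F Q V n
      (Del (modT H M (part H W t)) (phiM (part H W t) μ) F Q V n v) = 0 →
    Del (modT H M (part H W t)) (phiM (part H W t) μ) F Q V n v = 0)

variable {ι : Type} {V : ι → 𝒱.Obj} {S : ι → Set K} {Z : 𝒱.Obj} [IsAlgClosed K]
  {F : ∀ X : 𝒱.Obj, X ⟶ X} {Q : ℕ} {W : ℤ → Submodule K M} {μ : Module.End K M} {t : ℤ}
  {T : CorrData C} {φ : ∀ X : 𝒱.Obj, Module.End ℚ (T.M X)}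
  {reg : ∀ X : 𝒱.Obj, T.M X →ₗ[ℚ] (modT H M (part H W t)).M X} {χ : ℚ[X]}

theorem part_corr (W : ℤ → Submodule K M) (t : ℤ) : IsCorrTheory (modT H M (part H W t)) :=
  modT_corr fun hΓ hv => part_act hΓ hv

theorem reg_del (hr : RegTo H F Q W μ t T φ reg) {X : 𝒱.Obj} {n : ℤ} {z : T.M X}
    (hz : z ∈ T.gr X n) :
    Del (modT H M (part H W t)) (phiM (part H W t) μ) F Q X n (reg X z) = 0 := by
  have h1 : Del (modT H M (part H W t)) (phiM (part H W t) μ) F Q X n (reg X z) =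
      reg X (Del T φ F Q X n z) := by
    have h2 : reg X (T.act (C.cograph (F X)) (φ X z)) =
        (modT H M (part H W t)).act (C.cograph (F X)) (phiM (part H W t) μ X (reg X z)) := by
      rw [hr.act]
      exact congrArg (actM H M (C.cograph (F X))) (hr.frob X z)
    simp only [Del, Phi, LinearMap.sub_apply, Module.End.mul_apply, LinearMap.smul_apply,
      Module.End.one_apply, map_sub, map_smul]
    rw [h2]
  rw [h1, hr.power X n z hz, map_zero]

/-- **Surjectivity and semisimplicity.** -/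
theorem mod_tate (h : Cr H F Q V Z S {ρ | aeval ρ χ = 0}) (hbig : ∀ i, Big H (V i))
    (hχ0 : χ.coeff 0 ≠ 0) (hχ : aeval μ (χ.map (algebraMap ℚ K)) = 0)
    (hW : ∀ j, ∀ x ∈ W j, μ x ∈ W j) (hQ : Q ≠ 0) (hr : RegTo H F Q W μ t T φ reg) {L : List ι}
    (hL : L.Nodup) (n : ℤ) : OSat H F Q W μ t T reg (tw V Z L) n ↔
      ∀ m : ℤ, n - dims V L ≤ m → m ≤ n → OSat H F Q W μ t T reg Z m := by
  have hR := part_corr (H := H) W t
  have hrel : RelTheory (genT (modT H M (part H W t)) (phiM (part H W t) μ) F Q)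
      (phiM (part H W t) μ) F Q χ := mod_rel hR hQ h.frob h.prod h.std hχ
  have hOS : ∀ (V : 𝒱.Obj) (n : ℤ), OSat H F Q W μ t T reg V n ↔
      ∀ r ∈ (genT (modT H M (part H W t)) (phiM (part H W t) μ) F Q).gr V n,
        ∃ z ∈ T.gr V n, reg V z = r := by
    intro V n
    have hss := ss_iff (F := F) (Q := Q) (φ := phiM (part H W t) μ) hR h.frob
      (fun X n v hv => phiM_part hW hv) V n
    constructor
    · rintro ⟨h1, h2⟩ r hr'
      exact h1 r (mem_genT.1 hr').1 (hss.1 h2 r hr')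
    · intro h0
      refine ⟨fun r hr' hi => h0 r (mem_genT.2 ⟨hr', 1, by rw [pow_one]; exact hi⟩),
        hss.2 fun r hr' => ?_⟩
      obtain ⟨z, hz, rfl⟩ := h0 r hr'
      exact reg_del hr hz
  have hnat : Nat' T (genT (modT H M (part H W t)) (phiM (part H W t) μ) F Q) reg :=
    ⟨fun {X n z} hz => mem_genT.2 ⟨hr.mem X n z hz, 1, by rw [pow_one]; exact reg_del hr hz⟩,
      fun Γ z => hr.act Γ z⟩
  rw [hOS]
  simp only [hOS]
  exact h.induct hbig (fun V n =>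
      ∀ r ∈ (genT (modT H M (part H W t)) (phiM (part H W t) μ) F Q).gr V n,
        ∃ z ∈ T.gr V n, reg V z = r)
    (genT (modT H M (part H W t)) (phiM (part H W t) μ) F Q) (phiM (part H W t) μ) χ hχ0
    (fun ρ hρ => hρ) hrel (fun L => nil_modT _) (fun i V J _ deg D E h1 h2 n =>
      surj_deg h1 hr.corr hrel.corr hnat h2 n) hL n

/-- **Injectivity.** -/
theorem mod_inj (h : Cr H F Q V Z S {ρ | aeval ρ χ = 0}) (hbig : ∀ i, Big H (V i))
    (hχ0 : χ.coeff 0 ≠ 0) (hr : RegTo H F Q W μ t T φ reg)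
    (hnil : ∀ L, NilT H T (tw V Z L))
    (hroot : ∀ (X : 𝒱.Obj) (n : ℤ) (z : T.M X), z ∈ T.gr X n → aeval (φ X) χ z = 0)
    {L : List ι} (hL : L.Nodup) (n : ℤ) : (∀ z ∈ T.gr (tw V Z L) n, reg _ z = 0 → z = 0) ↔
      ∀ m : ℤ, n - dims V L ≤ m → m ≤ n → ∀ z ∈ T.gr Z m, reg _ z = 0 → z = 0 := by
  have hnat : Nat' T (modT H M (part H W t)) reg :=
    ⟨fun {X n z} hz => hr.mem X n z hz, fun Γ z => hr.act Γ z⟩
  exact h.induct hbig (fun V n => ∀ z ∈ T.gr V n, reg V z = 0 → z = 0) T φ χ hχ0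
    (fun ρ hρ => hρ)
    { corr := hr.corr
      comm := hr.comm
      power := fun X n z hz => ⟨1, by rw [pow_one]; exact hr.power X n z hz⟩
      poly := hroot }
    hnil (fun i V J _ deg D E h1 h2 n => inj_deg h1 hr.corr hnat h2 n) hL n

end Pool.Agent.N876.CG
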