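import Mathlib
import Pool.Agent.N876.CG.ModR

/-!
# Maps to `H(X) ⊗ M`: surjectivity onto the eigenvectors
-/

set_option autoImplicit false
set_option linter.unusedSectionVars false

open CategoryTheory AlgebraicGeometry
open scoped TensorProduct

universe u

namespace Pool.Agent.N876.CG

open Module Polynomial Pool.Agent.H914 Pool.Agent.H914.VarClass Pool.Agent.H914.VarClass.Obj
  Pool.Agent.W492.BB Pool.Agent.W550.Corr Pool.Agent.W484.TB Pool.Agent.W484.CH

section eig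

variable {k : Type u} [Field k] {𝒱 : VarClass k} {C : TheoryData.{u, 0, 0} 𝒱 ℚ} {K : Type}
  [Field K] {H : WeilTheoryData.{u, 0, 0} C K} [hC : IsChow C]

/-- The theory of the eigenvectors. -/
noncomputable def eigT (T : CorrData C) (φ : ∀ X : 𝒱.Obj, Module.End ℚ (T.M X))
    (F : ∀ X : 𝒱.Obj, X ⟶ X) (Q : ℕ) : CorrData C where
  M := T.M
  group := T.group
  module := T.module
  gr X n := T.gr X n ⊓ LinearMap.ker (Del T φ F Q X n)
  act := T.act

theorem mem_eigT {T : CorrData C} {φ : ∀ X : 𝒱.Obj, Module.End ℚ (T.M X)}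
    {F : ∀ X : 𝒱.Obj, X ⟶ X} {Q : ℕ} {X : 𝒱.Obj} {n : ℤ} {t : T.M X} :
    t ∈ (eigT T φ F Q).gr X n ↔ t ∈ T.gr X n ∧ Del T φ F Q X n t = 0 :=
  Submodule.mem_inf.trans (and_congr Iff.rfl LinearMap.mem_ker)

variable {T : CorrData C} (hT : IsCorrTheory T) {φ : ∀ X : 𝒱.Obj, Module.End ℚ (T.M X)}
  (hφ : ∀ {X Y : 𝒱.Obj} (Γ : C.A (X.prod Y)) (t : T.M X), φ Y (T.act Γ t) = T.act Γ (φ X t))
  {F : ∀ X : 𝒱.Obj, X ⟶ X} {Q : ℕ} (hQ : Q ≠ 0) (hF : ∀ X, IsFrobenius C (F X) Q)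
  (hprod : ∀ X Y, F (X.prod Y) = prodMap (F X) (F Y)) (hS : IsStandard H)

include hT hφ hQ hF hprod hS

theorem eigT_corr : IsCorrTheory (eigT T φ F Q) where
  app_mem := by
    intro X Y i j Γ m hΓ hm
    obtain ⟨h1, h2⟩ := mem_eigT.1 hm
    refine mem_eigT.2 ⟨hT.app_mem hΓ h1, ?_⟩
    have h3 := del_corr hT hφ hQ hF hprod hS (i := i) hΓ m
    rw [h2, map_zero, smul_zero] at h3
    exact h3
  app_comp := fun Γ Δ m => hT.app_comp Γ Δ m
  app_id := fun m => hT.app_id m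

theorem eigT_rel {χ : ℚ[X]} (hχ : ∀ (X : 𝒱.Obj) (n : ℤ) (t : T.M X), t ∈ T.gr X n →
    aeval (φ X) χ t = 0) : RelTheory (eigT T φ F Q) φ F Q χ where
  corr := eigT_corr hT hφ hQ hF hprod hS
  comm := hφ
  power := fun X n t ht => ⟨1, by rw [pow_one]; exact (mem_eigT.1 ht).2⟩
  poly := fun X n t ht => hχ X n t (mem_eigT.1 ht).1

end eig

variable {k : Type u} [Field k] {𝒱 : VarClass k} {C : TheoryData.{u, 0, 0} 𝒱 ℚ} {K : Type}
  [Field K] [CharZero K] {H : WeilTheoryData.{u, 0, 0} C K} [hC : IsChow C] [hH : IsWeil H]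
  {M : Type} [AddCommGroup M] [Module K M]
  {ι : Type} {V : ι → 𝒱.Obj} {S : ι → Set K} {Z : 𝒱.Obj} [IsAlgClosed K]
  {F : ∀ X : 𝒱.Obj, X ⟶ X} {Q : ℕ} {W : ℤ → Submodule K M} {μ : Module.End K M} {t : ℤ}
  {T : CorrData C} {φ : ∀ X : 𝒱.Obj, Module.End ℚ (T.M X)}
  {reg : ∀ X : 𝒱.Obj, T.M X →ₗ[ℚ] (modT H M (part H W t)).M X} {χ : ℚ[X]}

/-- **Surjectivity onto the eigenvectors.** -/
theorem mod_onto (h : Cr H F Q V Z S {ρ | aeval ρ χ = 0}) (hbig : ∀ i, Big H (V i))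
    (hχ0 : χ.coeff 0 ≠ 0) (hχ : aeval μ (χ.map (algebraMap ℚ K)) = 0) (hQ : Q ≠ 0)
    (hr : RegTo H F Q W μ t T φ reg) {L : List ι} (hL : L.Nodup) (n : ℤ) :
    (∀ v ∈ (eigT (modT H M (part H W t)) (phiM (part H W t) μ) F Q).gr (tw V Z L) n,
        ∃ z ∈ T.gr (tw V Z L) n, reg _ z = v) ↔
      ∀ m : ℤ, n - dims V L ≤ m → m ≤ n →
        ∀ v ∈ (eigT (modT H M (part H W t)) (phiM (part H W t) μ) F Q).gr Z m,
          ∃ z ∈ T.gr Z m, reg _ z = v := by
  have hR := part_corr (H := H) W t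
  have hrel : RelTheory (eigT (modT H M (part H W t)) (phiM (part H W t) μ) F Q)
      (phiM (part H W t) μ) F Q χ :=
    eigT_rel hR (fun Γ t => phiM_comm Γ t) hQ h.frob h.prod h.std fun _ _ t _ => phiM_root hχ t
  have hnat : Nat' T (eigT (modT H M (part H W t)) (phiM (part H W t) μ) F Q) reg :=
    ⟨fun {X n z} hz => mem_eigT.2 ⟨hr.mem X n z hz, reg_del hr hz⟩, fun Γ z => hr.act Γ z⟩
  have hnil : ∀ V, NilT H (eigT (modT H M (part H W t)) (phiM (part H W t) μ) F Q) V := by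
    intro V Γ hΓ h0
    obtain ⟨m, hm⟩ := nil_modT (G := part H W t) (μ := μ) (F := F) (Q := Q) V Γ hΓ h0
    exact ⟨m, hm⟩
  exact h.induct hbig (fun V n =>
      ∀ r ∈ (eigT (modT H M (part H W t)) (phiM (part H W t) μ) F Q).gr V n,
        ∃ z ∈ T.gr V n, reg V z = r)
    (eigT (modT H M (part H W t)) (phiM (part H W t) μ) F Q) (phiM (part H W t) μ) χ hχ0
    (fun ρ hρ => hρ) hrel (fun L => hnil _) (fun i V J _ deg D E h1 h2 n =>
      surj_deg h1 hr.corr hrel.corr hnat h2 n) hL n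

/-- **Semisimplicity.** -/
theorem mod_ss (h : Cr H F Q V Z S {ρ | aeval ρ χ = 0}) (hbig : ∀ i, Big H (V i))
    (hχ0 : χ.coeff 0 ≠ 0) (hχ : aeval μ (χ.map (algebraMap ℚ K)) = 0)
    (hW : ∀ j, ∀ x ∈ W j, μ x ∈ W j) (hQ : Q ≠ 0) (t : ℤ) {L : List ι} (hL : L.Nodup) (n : ℤ) :
    (∀ v ∈ (modT H M (part H W t)).gr (tw V Z L) n,
      Del (modT H M (part H W t)) (phiM (part H W t) μ) F Q _ n
        (Del (modT H M (part H W t)) (phiM (part H W t) μ) F Q _ n v) = 0 →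
      Del (modT H M (part H W t)) (phiM (part H W t) μ) F Q _ n v = 0) ↔
      ∀ m : ℤ, n - dims V L ≤ m → m ≤ n → ∀ v ∈ (modT H M (part H W t)).gr Z m,
        Del (modT H M (part H W t)) (phiM (part H W t) μ) F Q _ m
          (Del (modT H M (part H W t)) (phiM (part H W t) μ) F Q _ m v) = 0 →
        Del (modT H M (part H W t)) (phiM (part H W t) μ) F Q _ m v = 0 := by
  have hR := part_corr (H := H) W t
  have hrel : RelTheory (genT (modT H M (part H W t)) (phiM (part H W t) μ) F Q)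
      (phiM (part H W t) μ) F Q χ := mod_rel hR hQ h.frob h.prod h.std hχ
  have he := eigT_corr (T := modT H M (part H W t)) hR
    (φ := phiM (part H W t) μ) (fun Γ t => phiM_comm Γ t) hQ h.frob h.prod h.std
  have hss := ss_iff (F := F) (Q := Q) (φ := phiM (part H W t) μ) hR h.frob
    (fun X n v hv => phiM_part hW hv)
  -- the inclusion of the eigenvectors in the generalized eigenvectors
  have hnat : Nat' (eigT (modT H M (part H W t)) (phiM (part H W t) μ) F Q)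
      (genT (modT H M (part H W t)) (phiM (part H W t) μ) F Q)
      (fun X => (LinearMap.id : (modT H M (part H W t)).M X →ₗ[ℚ]
        (modT H M (part H W t)).M X)) :=
    ⟨fun {X n z} hz => mem_genT.2 ⟨(mem_eigT.1 hz).1, 1, by
        rw [pow_one]
        exact (mem_eigT.1 hz).2⟩, fun Γ z => rfl⟩
  have hiff : ∀ (V : 𝒱.Obj) (n : ℤ),
      (∀ t' ∈ (genT (modT H M (part H W t)) (phiM (part H W t) μ) F Q).gr V n,
        Del (modT H M (part H W t)) (phiM (part H W t) μ) F Q V n t' = 0) ↔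
      ∀ r ∈ (genT (modT H M (part H W t)) (phiM (part H W t) μ) F Q).gr V n,
        ∃ z ∈ (eigT (modT H M (part H W t)) (phiM (part H W t) μ) F Q).gr V n,
          (LinearMap.id : (modT H M (part H W t)).M V →ₗ[ℚ] (modT H M (part H W t)).M V) z =
            r := by
    intro V n
    refine forall_congr' fun r => forall_congr' fun hr => ?_
    constructor
    · intro h1
      exact ⟨r, mem_eigT.2 ⟨(mem_genT.1 hr).1, h1⟩, rfl⟩
    · rintro ⟨z, hz, rfl⟩
      exact (mem_eigT.1 hz).2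
  rw [hss, hiff]
  simp only [hss, hiff]
  exact h.induct hbig (fun V n =>
      ∀ r ∈ (genT (modT H M (part H W t)) (phiM (part H W t) μ) F Q).gr V n,
        ∃ z ∈ (eigT (modT H M (part H W t)) (phiM (part H W t) μ) F Q).gr V n,
          (LinearMap.id : (modT H M (part H W t)).M V →ₗ[ℚ] (modT H M (part H W t)).M V) z = r)
    (genT (modT H M (part H W t)) (phiM (part H W t) μ) F Q) (phiM (part H W t) μ) χ hχ0
    (fun ρ hρ => hρ) hrel (fun L => nil_modT _) (fun i V J _ deg D E h1 h2 n =>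
      surj_deg h1 he hrel.corr hnat h2 n) hL n

end Pool.Agent.N876.CG
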