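import Mathlib
import Pool.Agent.N876.CG.IsoT

/-!
# Decompositions of the graded pieces of a theory
-/

set_option autoImplicit false
set_option linter.unusedSectionVars false

open CategoryTheory AlgebraicGeometry

universe u

namespace Pool.Agent.N876.CG

open Module Polynomial Pool.Agent.H914 Pool.Agent.H914.VarClass Pool.Agent.H914.VarClass.Obj
  Pool.Agent.W492.BB Pool.Agent.W550.Corr Pool.Agent.W484.TB Pool.Agent.W484.CH

variable {k : Type u} [Field k] {𝒱 : VarClass k} {C : TheoryData.{u, 0, 0} 𝒱 ℚ}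

section step

variable [hC : IsChow C] {T : CorrData C} {A Z : 𝒱.Obj} {J : Type} [Fintype J] {deg : J → ℕ}
  {D E : J → C.A A}

/-- **The step.** -/
theorem kunneth_equiv (h : IsDual A Z deg D E) (hT : IsCorrTheory T)
    (hK : HasKunneth T A Z deg D) (n : ℤ) :
    Nonempty ((∀ j, T.gr Z (n - deg j)) ≃ₗ[ℚ] T.gr (A.prod Z) n) := by
  classical
  have hmem : ∀ j (z : T.M Z), z ∈ T.gr Z (n - deg j) →
      T.act (extBy C Z (D j)) z ∈ T.gr (A.prod Z) n := by
    intro j z hz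
    have h1 := hT.app_mem (extBy_mem (Z := Z) (h.left j)) hz
    have h2 : n - (deg j : ℤ) + deg j = n := by ring
    rwa [h2] at h1
  let Ψ : (∀ j, T.gr Z (n - deg j)) →ₗ[ℚ] T.gr (A.prod Z) n :=
    LinearMap.codRestrict _ (∑ j, ((T.act (extBy C Z (D j))).comp (T.gr Z (n - deg j)).subtype).comp
      (LinearMap.proj j)) fun z => by
        rw [LinearMap.sum_apply]
        exact Submodule.sum_mem _ fun j _ => hmem j _ (z j).2
  have hΨ : ∀ z, ((Ψ z : T.gr (A.prod Z) n) : T.M (A.prod Z)) =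
      ∑ j, T.app (extBy C Z (D j)) (z j : T.M Z) := by
    intro z
    change (∑ j, ((T.act (extBy C Z (D j))).comp (T.gr Z (n - deg j)).subtype).comp
      (LinearMap.proj j) : (∀ j, T.gr Z (n - deg j)) →ₗ[ℚ] T.M (A.prod Z)) z = _
    rw [LinearMap.sum_apply]
    rfl
  refine ⟨LinearEquiv.ofBijective Ψ ⟨?_, ?_⟩⟩
  · intro z z' hz
    obtain ⟨y, -, hy⟩ := hK n (Ψ z) (Ψ z).2
    have h1 := hy (fun j => (z j : T.M Z)) ⟨fun j => (z j).2, hΨ z⟩
    have h2 := hy (fun j => (z' j : T.M Z)) ⟨fun j => (z' j).2, by rw [hz]; exact hΨ z'⟩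
    funext j
    exact Subtype.ext (congrFun (h1.trans h2.symm) j)
  · intro m
    obtain ⟨y, ⟨hy1, hy2⟩, -⟩ := hK n m m.2
    exact ⟨fun j => ⟨y j, hy1 j⟩, Subtype.ext ((hΨ _).trans hy2.symm)⟩

end step

section tower

variable [hC : IsChow C] {K : Type} [Field K] [CharZero K] [IsAlgClosed K]
  {H : WeilTheoryData.{u, 0, 0} C K}
  [IsWeil H] {F : ∀ X : 𝒱.Obj, X ⟶ X} {Q : ℕ} {ι : Type} {X : ι → 𝒱.Obj} {S : ι → Set K}
  {B : Set K} {Z : 𝒱.Obj}

/-- currying -/
def curryL {J J' : Type} {A : J × J' → Type} [∀ p, AddCommGroup (A p)] [∀ p, Module ℚ (A p)] :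
    (∀ p, A p) ≃ₗ[ℚ] ∀ j j', A (j, j') where
  toFun f j j' := f (j, j')
  invFun f p := f p.1 p.2
  left_inv _ := rfl
  right_inv _ := rfl
  map_add' _ _ := rfl
  map_smul' _ _ := rfl

/-- functions on a point -/
def unitL {A : Type} [AddCommGroup A] [Module ℚ A] : (∀ _ : Unit, A) ≃ₗ[ℚ] A where
  toFun f := f ()
  invFun x _ := x
  left_inv _ := rfl
  right_inv _ := rfl
  map_add' _ _ := rfl
  map_smul' _ _ := rfl

/-- **The decomposition of `T.gr (tw X Z L) n`.** -/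
theorem Cr.equivQ (h : Cr H F Q X Z S B) (hbig : ∀ i, Big H (X i)) {L : List ι} (hL : L.Nodup) :
    ∃ (J : Type) (_ : Fintype J) (deg : J → ℕ), (∀ j, deg j ≤ dims X L) ∧
      (∀ l ≤ dims X L, ∃ j, deg j = l) ∧
      ∀ (T : CorrData C) (φ : ∀ X : 𝒱.Obj, Module.End ℚ (T.M X)) (χ : ℚ[X]), χ.coeff 0 ≠ 0 →
        (∀ ρ : K, aeval ρ χ = 0 → ρ ∈ B) → RelTheory T φ F Q χ →
        (∀ L : List ι, L.Nodup → NilT H T (tw X Z L)) →
        ∀ (n : ℤ) (w : J → ℤ), (∀ j, w j = n - deg j) →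
          Nonempty ((∀ j, T.gr Z (w j)) ≃ₗ[ℚ] T.gr (tw X Z L) n) := by
  classical
  induction L with
  | nil =>
    refine ⟨Unit, inferInstance, fun _ => 0, fun _ => Nat.zero_le _, fun l hl => ⟨(), ?_⟩, ?_⟩
    · simp only [dims] at hl
      change 0 = l
      omega
    · intro T φ χ _ _ _ _ n w hw
      obtain rfl : w = fun _ => n := funext fun j => by rw [hw j]; simp
      exact ⟨unitL⟩
  | cons i L ih =>
    rw [List.nodup_cons] at hL
    obtain ⟨J', hJ', deg', hd1, hd2, hd3⟩ := ih hL.2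
    obtain ⟨J, hJ, deg, D, E, h1, h2, h3⟩ := h.step hL.1 hL.2
    refine ⟨J × J', inferInstance, fun p => deg p.1 + deg' p.2, fun p => ?_, fun l hl => ?_, ?_⟩
    · change deg p.1 + deg' p.2 ≤ (X i).dim + dims X L
      exact Nat.add_le_add (h1.le p.1) (hd1 p.2)
    · change l ≤ (X i).dim + dims X L at hl
      obtain ⟨j, hj⟩ := exists_deg_big (hbig i) h2 (l := min l (X i).dim) (min_le_right _ _)
      obtain ⟨j', hj'⟩ := hd2 (l - min l (X i).dim) (by omega)
      exact ⟨(j, j'), by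
        change deg j + deg' j' = l
        rw [hj, hj']
        omega⟩
    · intro T φ χ hχ0 hχ hT hnil n w hw
      have hK := h3 T φ χ hχ0 hχ hT (hnil (i :: L) (List.nodup_cons.2 hL))
      obtain ⟨e1⟩ := kunneth_equiv h1 hT.corr hK n
      have e2 : ∀ j, Nonempty ((∀ j', T.gr Z (w (j, j'))) ≃ₗ[ℚ]
          T.gr (tw X Z L) (n - deg j)) := fun j =>
        hd3 T φ χ hχ0 hχ hT hnil (n - deg j) (fun j' => w (j, j')) fun j' => by
            rw [hw (j, j')]
            push_cast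
            ring
      exact ⟨(curryL.trans (LinearEquiv.piCongrRight fun j => Classical.choice (e2 j))).trans e1⟩

end tower

end Pool.Agent.N876.CG
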