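import Mathlib
import Pool.Agent.N876.CG.PairT

/-!
# Orders of zeta functions of products, and ranks of theories
-/

set_option autoImplicit false
set_option linter.unusedSectionVars false

open CategoryTheory AlgebraicGeometry
open scoped TensorProduct

universe u

namespace Pool.Agent.N876.CG

open Module Polynomial Pool.Agent.H914 Pool.Agent.H914.VarClass Pool.Agent.H914.VarClass.Obj
  Pool.Agent.W492.BB Pool.Agent.W550.Corr Pool.Agent.W484.TB Pool.Agent.W484.CH

section spec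

variable {K : Type} [Field K]

/-- the power sum of a virtual set of numbers -/
noncomputable def ev (K : Type) [Field K] (n : ℕ) : MonoidAlgebra ℤ K →ₐ[ℤ] K :=
  MonoidAlgebra.lift ℤ K K (powMonoidHom n)

theorem ev_apply (n : ℕ) (W : MonoidAlgebra ℤ K) :
    ev K n W = W.coeff.sum fun b m => (m : K) * b ^ n := by
  rw [ev, MonoidAlgebra.lift_apply]
  refine Finsupp.sum_congr fun b _ => ?_
  rw [zsmul_eq_mul]
  rfl

/-- `N n = ∑ W(b) b^n` for `n ≥ 1` -/
def IsSp (N : ℕ → K) (W : MonoidAlgebra ℤ K) : Prop := ∀ n, 1 ≤ n → N n = ev K n W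

theorem IsSp.mul {N N' : ℕ → K} {W W' : MonoidAlgebra ℤ K} (h : IsSp N W) (h' : IsSp N' W') :
    IsSp (fun n => N n * N' n) (W * W') := by
  intro n hn
  beta_reduce
  rw [map_mul, h n hn, h' n hn]

/-- the virtual set is determined by the power sums -/
theorem IsSp.unique [CharZero K] {N : ℕ → K} {W W' : MonoidAlgebra ℤ K} (h : IsSp N W)
    (h' : IsSp N W') {b : K} (hb : b ≠ 0) : W.coeff b = W'.coeff b := by
  classical
  have hli := linearIndependent_monoidHom (Multiplicative ℕ) K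
  have hinj : Function.Injective (powersHom K) := (powersHom K).injective
  have hli2 := hli.comp (powersHom K) hinj
  set D := W - W' with hD
  have h0 : ∀ n, 1 ≤ n → ev K n D = 0 := by
    intro n hn
    rw [hD, map_sub, ← h n hn, ← h' n hn, sub_self]
  have h1 : ∑ b ∈ D.coeff.support, ((D.coeff b : K) * b) •
      ((fun f : Multiplicative ℕ →* K => (f : Multiplicative ℕ → K)) ∘ (powersHom K)) b = 0 := by
    funext n
    rw [Finset.sum_apply, Pi.zero_apply]
    have h2 := h0 (n.toAdd + 1) (by omega)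
    rw [ev_apply, Finsupp.sum] at h2
    rw [← h2]
    refine Finset.sum_congr rfl fun b _ => ?_
    simp only [Function.comp_apply, Pi.smul_apply, powersHom_apply, smul_eq_mul]
    ring
  have h2 : D.coeff b = 0 := by
    by_contra hne
    have h3 := linearIndependent_iff'.1 hli2 D.coeff.support _ h1 b
      (Finsupp.mem_support_iff.2 hne)
    rcases mul_eq_zero.1 h3 with h4 | h4
    · exact hne (by exact_mod_cast h4)
    · exact hb h4
  rw [hD] at h2
  have h3 : (W - W').coeff b = W.coeff b - W'.coeff b := rfl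
  rw [h3, sub_eq_zero] at h2
  exact h2

end spec

section geo

variable {k : Type u} [Field k] {𝒱 : VarClass k} {C : TheoryData.{u, 0, 0} 𝒱 ℚ} {K : Type}
  [Field K] [CharZero K] {H : WeilTheoryData.{u, 0, 0} C K} [hC : IsChow C] [hH : IsWeil H]
  {A Z : 𝒱.Obj} {J : Type} [Fintype J] {deg : J → ℕ} {D E : J → C.A A} {π : A ⟶ A} {Q : ℕ}

/-- generalized eigenvectors for powers of `Q` are algebraic -/
theorem genEig_eq (hS : IsStandard H) (hπ : IsFrobenius C π Q) (hQ : 1 < Q) {S : Set K}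
    (hcv : Cg H π S) (hres1 : ∀ α ∈ S, ∀ w : ℕ, α ≠ (Q : K) ^ w) (j : ℕ) :
    Module.End.maxGenEigenspace (frob H π) ((Q : K) ^ j) = AK H A j := by
  have hfin := hS.finite A
  obtain ⟨T, hT, hPT, hTS⟩ := hcv.ex
  have hQinj : ∀ {a b : ℕ}, (Q : K) ^ a = (Q : K) ^ b → a = b := by
    intro a b h
    have h5 : ((Q ^ a : ℕ) : K) = ((Q ^ b : ℕ) : K) := by
      push_cast
      exact h
    exact Nat.pow_right_injective hQ (Nat.cast_injective h5)
  set G : Module.End K (H.A A) := frob H π - ((Q : K) ^ j) • (1 : Module.End K (H.A A)) with hG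
  refine le_antisymm ?_ ?_
  · intro v hv
    rw [Module.End.mem_maxGenEigenspace] at hv
    obtain ⟨N, hN⟩ := hv
    -- the complement
    set W : Submodule K (H.A A) := (⨆ n : {n : ℕ // n ≠ j}, AK H A n) ⊔ T with hW
    have hmapAK : ∀ n : {n : ℕ // n ≠ j}, (AK H A n).map G = AK H A n := by
      intro n
      have hne : (Q : K) ^ (n : ℕ) - (Q : K) ^ j ≠ 0 := by
        rw [sub_ne_zero]
        exact fun h => n.2 (hQinj h)
      have h1 : ∀ c ∈ AK H A n, G c = ((Q : K) ^ (n : ℕ) - (Q : K) ^ j) • c := by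
        intro c hc
        have h2 : frob H π c = (Q : K) ^ (n : ℕ) • c := AK_eigen hπ hc
        rw [hG, LinearMap.sub_apply, LinearMap.smul_apply, Module.End.one_apply, h2, sub_smul]
      ext c
      rw [Submodule.mem_map]
      constructor
      · rintro ⟨d, hd, rfl⟩
        rw [h1 d hd]
        exact Submodule.smul_mem _ _ hd
      · intro hc
        refine ⟨((Q : K) ^ (n : ℕ) - (Q : K) ^ j)⁻¹ • c, Submodule.smul_mem _ _ hc, ?_⟩
        rw [map_smul, h1 c hc, smul_smul, inv_mul_cancel₀ hne, one_smul]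
    have hmapT : T.map G = T := by
      have h3 : ¬ Module.End.HasEigenvalue ((frob H π).restrict hT) ((Q : K) ^ j) :=
        fun h0 => hres1 _ (hTS _ h0) _ rfl
      have h4 : Function.Injective
          ((frob H π).restrict hT - ((Q : K) ^ j) • (1 : Module.End K T)) := by
        rw [← LinearMap.ker_eq_bot]
        have h5 : Module.End.eigenspace ((frob H π).restrict hT) ((Q : K) ^ j) = ⊥ := by
          by_contra h6
          exact h3 h6
        rw [Module.End.eigenspace_def] at h5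
        exact h5
      have hfT : Module.Finite K T := inferInstance
      have h5 := LinearMap.injective_iff_surjective.1 h4
      ext c
      rw [Submodule.mem_map]
      constructor
      · rintro ⟨d, hd, rfl⟩
        rw [hG, LinearMap.sub_apply, LinearMap.smul_apply, Module.End.one_apply]
        exact Submodule.sub_mem _ (hT d hd) (Submodule.smul_mem _ _ hd)
      · intro hc
        obtain ⟨s, hs⟩ := h5 ⟨c, hc⟩
        exact ⟨s, s.2, congrArg Subtype.val hs⟩
    have hmapW : W.map G = W := by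
      rw [hW, Submodule.map_sup, Submodule.map_iSup, hmapT]
      congr 1
      exact iSup_congr hmapAK
    have hGW : ∀ w ∈ W, G w ∈ W := fun w hw => by
      have h1 : G w ∈ W.map G := Submodule.mem_map_of_mem hw
      rwa [hmapW] at h1
    have hinj : Function.Injective (G.restrict hGW) := by
      rw [LinearMap.injective_iff_surjective]
      rintro ⟨w, hw⟩
      have h1 : w ∈ W.map G := by rw [hmapW]; exact hw
      obtain ⟨w', hw', rfl⟩ := Submodule.mem_map.1 h1
      exact ⟨⟨w', hw'⟩, rfl⟩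
    have hinjN : ∀ (m : ℕ) (w : H.A A), w ∈ W → (G ^ m) w = 0 → w = 0 := by
      intro m
      induction m with
      | zero => intro w _ h; exact h
      | succ m ih =>
        intro w hw h
        rw [pow_succ, Module.End.mul_apply] at h
        have h1 := ih (G w) (hGW w hw) h
        have h2 : G.restrict hGW ⟨w, hw⟩ = 0 := Subtype.ext h1
        have h3 := (injective_iff_map_eq_zero _).1 hinj _ h2
        exact congrArg Subtype.val h3
    -- decompose
    have hv' : v ∈ AK H A j ⊔ W := by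
      have h1 : AT H A ≤ AK H A j ⊔ W := by
        refine Submodule.span_le.2 ?_
        rintro _ ⟨n, D, hD, rfl⟩
        have h2 : H.cl D ∈ AK H A n := Submodule.subset_span ⟨D, hD, rfl⟩
        by_cases hn : n = j
        · subst hn
          exact Submodule.mem_sup_left h2
        · refine Submodule.mem_sup_right (Submodule.mem_sup_left ?_)
          exact (le_iSup (fun n : {n : ℕ // n ≠ j} => AK H A n) ⟨n, hn⟩) h2
      have h2 : T ≤ AK H A j ⊔ W := le_sup_right.trans le_sup_right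
      have h3 : v ∈ AT H A ⊔ T := by rw [hPT]; trivial
      exact (sup_le h1 h2) h3
    obtain ⟨a, ha, w, hw, rfl⟩ := Submodule.mem_sup.1 hv'
    have hGa : G a = 0 := by
      have h2 : frob H π a = (Q : K) ^ j • a := AK_eigen hπ ha
      rw [hG, LinearMap.sub_apply, LinearMap.smul_apply, Module.End.one_apply, h2, sub_self]
    have hN' : (G ^ (N + 1)) w = 0 := by
      have h1 : (G ^ (N + 1)) (a + w) = 0 := by
        rw [pow_succ', Module.End.mul_apply]
        have h2 : (G ^ N) (a + w) = 0 := hN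
        rw [h2, map_zero]
      rw [map_add] at h1
      have h2 : (G ^ (N + 1)) a = 0 := by
        rw [pow_succ, Module.End.mul_apply, hGa, map_zero]
      rwa [h2, zero_add] at h1
    rw [hinjN _ w hw hN', add_zero]
    exact ha
  · intro v hv
    rw [Module.End.mem_maxGenEigenspace]
    refine ⟨1, ?_⟩
    have h2 : frob H π v = (Q : K) ^ j • v := AK_eigen hπ hv
    rw [pow_one, LinearMap.sub_apply, LinearMap.smul_apply, Module.End.one_apply, h2, sub_self]

/-- the number of classes -/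
theorem finrank_AK (hS : IsStandard H) (h : IsDual A Z deg D E)
    (hN' : ∀ n, AK H A n ≤ Submodule.span K {c | ∃ j, A.dim - deg j = n ∧ c = H.cl (E j)})
    (n : ℕ) : Module.finrank K (AK H A n) = Fintype.card {j // A.dim - deg j = n} := by
  classical
  have hli := linearIndependent_of_dual hS (IsDual.exch h)
  have hli2 : LinearIndependent K (fun j : {j // A.dim - deg j = n} => H.cl (E j)) :=
    hli.comp _ Subtype.val_injective
  have h1 : AK H A n = Submodule.span K (Set.range fun j : {j // A.dim - deg j = n} =>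
      H.cl (E j)) := by
    refine le_antisymm ((hN' n).trans (Submodule.span_mono ?_)) (Submodule.span_le.2 ?_)
    · rintro _ ⟨j, hj, rfl⟩
      exact ⟨⟨j, hj⟩, rfl⟩
    · rintro _ ⟨⟨j, hj⟩, rfl⟩
      refine Submodule.subset_span ⟨E j, ?_, rfl⟩
      have h2 := (IsDual.exch h).left j
      beta_reduce at h2
      rw [hj] at h2
      exact h2
  rw [h1, finrank_span_eq_card hli2]

/-- the virtual set of the Frobenius eigenvalues of a covering -/
structure IsCount (H : WeilTheoryData.{u, 0, 0} C K) (π : A ⟶ A) (Q : ℕ) (N : ℕ → K)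
    (W : MonoidAlgebra ℤ K) : Prop where
  sp : IsSp N W
  supp : ∀ b, W.coeff b ≠ 0 → (frob H π).HasEigenvalue b
  mult : ∀ j : ℕ, W.coeff ((Q : K) ^ j) =
    Module.finrank K (Module.End.maxGenEigenspace (frob H π) ((Q : K) ^ j))

theorem count_split [IsAlgClosed K] (hS : IsStandard H) (hπ : IsFrobenius C π Q) (hQ : 1 < Q) {S : Set K}
    (hcv : Cg H π S) (hres1 : ∀ α ∈ S, ∀ w : ℕ, α ≠ (Q : K) ^ w)
    (h : IsDual A Z deg D E)
    (hN' : ∀ n, AK H A n ≤ Submodule.span K {c | ∃ j, A.dim - deg j = n ∧ c = H.cl (E j)})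
    {N : ℕ → K} {W : MonoidAlgebra ℤ K} (hW : IsCount H π Q N W) :
    ∃ W' : MonoidAlgebra ℤ K, W = ∑ j, MonoidAlgebra.single ((Q : K) ^ (A.dim - deg j)) 1 + W' ∧
      ∀ b, W'.coeff b ≠ 0 → b ∈ S := by
  classical
  have hQinj : ∀ {a b : ℕ}, (Q : K) ^ a = (Q : K) ^ b → a = b := by
    intro a b h
    have h5 : ((Q ^ a : ℕ) : K) = ((Q ^ b : ℕ) : K) := by
      push_cast
      exact h
    exact Nat.pow_right_injective hQ (Nat.cast_injective h5)
  refine ⟨W - ∑ j, MonoidAlgebra.single ((Q : K) ^ (A.dim - deg j)) 1, by rw [add_sub_cancel],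
    fun b hb => ?_⟩
  have hsub : (W - ∑ j, MonoidAlgebra.single ((Q : K) ^ (A.dim - deg j)) (1 : ℤ)).coeff b =
      W.coeff b - ∑ j, (MonoidAlgebra.single ((Q : K) ^ (A.dim - deg j)) (1 : ℤ)).coeff b := by
    have h1 : (W - ∑ j, MonoidAlgebra.single ((Q : K) ^ (A.dim - deg j)) (1 : ℤ)).coeff b =
      W.coeff b - (∑ j, MonoidAlgebra.single ((Q : K) ^ (A.dim - deg j)) (1 : ℤ)).coeff b := rfl
    rw [h1, MonoidAlgebra.coeff_sum, Finsupp.finsetSum_apply]
  rw [hsub] at hb
  by_cases hpow : ∃ l : ℕ, b = (Q : K) ^ l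
  · exfalso
    obtain ⟨l, rfl⟩ := hpow
    apply hb
    rw [hW.mult, genEig_eq hS hπ hQ hcv hres1, finrank_AK hS h hN', sub_eq_zero]
    have h2 : ∀ j, (MonoidAlgebra.single ((Q : K) ^ (A.dim - deg j)) (1 : ℤ)).coeff
        ((Q : K) ^ l) = if A.dim - deg j = l then 1 else 0 := by
      intro j
      rw [MonoidAlgebra.coeff_single, Finsupp.single_apply]
      by_cases hj : A.dim - deg j = l
      · rw [if_pos hj, if_pos (by rw [hj])]
      · rw [if_neg hj, if_neg fun h0 => hj (hQinj h0)]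
    rw [Finset.sum_congr rfl fun j _ => h2 j, Finset.sum_boole, Fintype.card_subtype]
  · have h2 : ∀ j, (MonoidAlgebra.single ((Q : K) ^ (A.dim - deg j)) (1 : ℤ)).coeff b = 0 := by
      intro j
      rw [MonoidAlgebra.coeff_single, Finsupp.single_apply, if_neg]
      exact fun h0 => hpow ⟨_, h0.symm⟩
    rw [Finset.sum_eq_zero fun j _ => h2 j, sub_zero] at hb
    rcases eig_cg hS hπ hcv (hW.supp b hb) with h3 | ⟨l, h3⟩
    · exact h3
    · exact absurd ⟨l, h3⟩ hpow

omit [CharZero K] in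
/-- the multiplicities of powers of `Q` -/
theorem coeff_conv {W W' V : MonoidAlgebra ℤ K} (hQ0 : (Q : K) ≠ 0)
    (hW : W = ∑ j, MonoidAlgebra.single ((Q : K) ^ (A.dim - deg j)) 1 + W') (m : ℤ)
    (hno : ∀ a b, W'.coeff a ≠ 0 → V.coeff b ≠ 0 → a * b ≠ (Q : K) ^ m) :
    (W * V).coeff ((Q : K) ^ m) = ∑ j, V.coeff ((Q : K) ^ (m - (A.dim - deg j : ℕ))) := by
  classical
  rw [hW, add_mul, MonoidAlgebra.coeff_add, Finsupp.add_apply, Finset.sum_mul,
    MonoidAlgebra.coeff_sum, Finsupp.finsetSum_apply]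
  have h1 : (W' * V).coeff ((Q : K) ^ m) = 0 := by
    rw [MonoidAlgebra.coeff_mul, Finsupp.sum]
    refine Finset.sum_eq_zero fun a ha => ?_
    rw [Finsupp.sum]
    refine Finset.sum_eq_zero fun b hb => ?_
    rw [if_neg (hno a b (Finsupp.mem_support_iff.1 ha) (Finsupp.mem_support_iff.1 hb))]
  rw [h1, add_zero]
  refine Finset.sum_congr rfl fun j _ => ?_
  rw [MonoidAlgebra.coeff_single_mul_eq_mul_coeff ((Q : K) ^ (m - (A.dim - deg j : ℕ))), one_mul]
  intro b _
  rw [zpow_sub₀ hQ0, zpow_natCast]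
  constructor
  · intro h
    rw [← h, mul_div_cancel_left₀]
    exact pow_ne_zero _ hQ0
  · rintro rfl
    rw [mul_div_cancel₀]
    exact pow_ne_zero _ hQ0

omit [CharZero K] in
theorem exists_of_coeff_mul {W V : MonoidAlgebra ℤ K} {x : K} (h : (W * V).coeff x ≠ 0) :
    ∃ a b, W.coeff a ≠ 0 ∧ V.coeff b ≠ 0 ∧ x = a * b := by
  classical
  by_contra hcon
  push Not at hcon
  apply h
  rw [MonoidAlgebra.coeff_mul, Finsupp.sum]
  refine Finset.sum_eq_zero fun a ha => ?_
  rw [Finsupp.sum]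
  refine Finset.sum_eq_zero fun b hb => ?_
  rw [if_neg]
  exact fun h0 => hcon a b (Finsupp.mem_support_iff.1 ha) (Finsupp.mem_support_iff.1 hb) h0.symm

end geo

section ranks

variable {k : Type u} [Field k] {𝒱 : VarClass k} {C : TheoryData.{u, 0, 0} 𝒱 ℚ} [hC : IsChow C]
  {A Z : 𝒱.Obj} {J : Type} [Fintype J] {deg : J → ℕ} {D E : J → C.A A}

theorem finite_deg {T : CorrData C} (hT : IsCorrTheory T) (h : IsDual A Z deg D E)
    (hK : HasKunneth T A Z deg D) (n : ℤ) :
    Module.Finite ℚ (T.gr (A.prod Z) n) ↔ ∀ j, Module.Finite ℚ (T.gr Z (n - deg j)) := by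
  classical
  obtain ⟨e, -⟩ := kun_equiv hT h hK n (fun j => n - deg j) (fun j => rfl)
  constructor
  · intro hf j
    have h1 : Module.Finite ℚ (∀ j, T.gr Z (n - deg j)) := Module.Finite.equiv e.symm
    exact Module.Finite.of_surjective (LinearMap.proj (R := ℚ) (φ := fun j => T.gr Z (n - deg j)) j)
      (LinearMap.proj_surjective j)
  · intro hf
    have h1 : Module.Finite ℚ (∀ j, T.gr Z (n - deg j)) := Module.Finite.pi
    exact Module.Finite.equiv e

theorem finrank_deg {T : CorrData C} (hT : IsCorrTheory T) (h : IsDual A Z deg D E)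
    (hK : HasKunneth T A Z deg D) (n : ℤ) (hf : ∀ j, Module.Finite ℚ (T.gr Z (n - deg j))) :
    Module.finrank ℚ (T.gr (A.prod Z) n) = ∑ j, Module.finrank ℚ (T.gr Z (n - deg j)) := by
  obtain ⟨e, -⟩ := kun_equiv hT h hK n (fun j => n - deg j) (fun j => rfl)
  rw [← e.finrank_eq]
  exact Module.finrank_pi_fintype ℚ

/-- the ranks are finite, and almost all are zero -/
def FinR (T : ℕ → CorrData C) (X : 𝒱.Obj) (r : ℤ) : Prop :=
  (∀ k, Module.Finite ℚ ((T k).gr X r)) ∧ ∃ k0, ∀ k, k0 ≤ k → (T k).gr X r = ⊥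

/-- the alternating sum of the ranks -/
noncomputable def chi (T : ℕ → CorrData C) (X : 𝒱.Obj) (r : ℤ) : ℤ :=
  ∑ᶠ k : ℕ, (-1) ^ k * (Module.finrank ℚ ((T k).gr X r) : ℤ)

theorem chi_eq {T : ℕ → CorrData C} {X : 𝒱.Obj} {r : ℤ} {k0 : ℕ}
    (h : ∀ k, k0 ≤ k → (T k).gr X r = ⊥) :
    chi T X r = ∑ k ∈ Finset.range k0, (-1) ^ k * (Module.finrank ℚ ((T k).gr X r) : ℤ) := by
  unfold chi
  refine finsum_eq_sum_of_support_subset _ ?_
  intro k hk
  rw [Finset.coe_range, Set.mem_Iio]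
  by_contra hcon
  apply hk
  have h1 := h k (not_lt.1 hcon)
  beta_reduce
  rw [h1]
  simp

variable {T : ℕ → CorrData C} (hT : ∀ k, IsCorrTheory (T k)) (h : IsDual A Z deg D E)
  (hK : ∀ k, HasKunneth (T k) A Z deg D)

include hT h hK

theorem finR_deg (r : ℤ) : FinR T (A.prod Z) r ↔ ∀ j, FinR T Z (r - deg j) := by
  classical
  constructor
  · rintro ⟨h1, k0, h2⟩ j
    refine ⟨fun k => (finite_deg (hT k) h (hK k) r).1 (h1 k) j, k0, fun k hk => ?_⟩
    exact (vanish_deg h (hT k) (hK k) r).1 (h2 k hk) j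
  · intro h1
    choose h2 k0 h3 using h1
    refine ⟨fun k => (finite_deg (hT k) h (hK k) r).2 fun j => h2 j k, Finset.univ.sup k0,
      fun k hk => (vanish_deg h (hT k) (hK k) r).2 fun j => h3 j k ?_⟩
    exact (Finset.le_sup (Finset.mem_univ j)).trans hk

theorem chi_deg (r : ℤ) (hf : ∀ j, FinR T Z (r - deg j)) :
    chi T (A.prod Z) r = ∑ j, chi T Z (r - deg j) := by
  classical
  choose h2 k0 h3 using hf
  have h4 : ∀ j k, Finset.univ.sup k0 ≤ k → (T k).gr Z (r - deg j) = ⊥ := fun j k hk =>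
    h3 j k ((Finset.le_sup (Finset.mem_univ j)).trans hk)
  have h5 : ∀ k, Finset.univ.sup k0 ≤ k → (T k).gr (A.prod Z) r = ⊥ := fun k hk =>
    (vanish_deg h (hT k) (hK k) r).2 fun j => h4 j k hk
  rw [chi_eq h5, Finset.sum_congr rfl fun j _ => chi_eq (h4 j), Finset.sum_comm]
  refine Finset.sum_congr rfl fun k _ => ?_
  rw [finrank_deg (hT k) h (hK k) r fun j => h2 j k]
  push_cast
  rw [Finset.mul_sum]

end ranks

section bs

variable {k : Type u} [Field k] {𝒱 : VarClass k} {C : TheoryData.{u, 0, 0} 𝒱 ℚ} {K : Type}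
  [Field K] [CharZero K] {H : WeilTheoryData.{u, 0, 0} C K} [hC : IsChow C] [hH : IsWeil H]
  [IsAlgClosed K] {F : ∀ X : 𝒱.Obj, X ⟶ X} {Q : ℕ} {ι : Type} {X : ι → 𝒱.Obj} {Z : 𝒱.Obj}
  {S : ι → Set K} {B : Set K}

/-- numbers of points -/
structure Zt (H : WeilTheoryData.{u, 0, 0} C K) (F : ∀ X : 𝒱.Obj, X ⟶ X) (Q : ℕ) (X : ι → 𝒱.Obj)
    (Z : 𝒱.Obj) (B : Set K) (N : 𝒱.Obj → ℕ → K) (v : ℕ → K) : Prop where
  prod : ∀ X Y n, N (X.prod Y) n = N X n * N Y n
  count : ∀ i, ∃ W, IsCount H (F (X i)) Q (N (X i)) W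
  base : ∃ W, IsSp (N Z) W ∧
    ∀ b, W.coeff b ≠ 0 → (Pool.Agent.W484.CH.frob H (F Z)).HasEigenvalue b
  rel : ∃ W, IsSp v W ∧ ∀ b, W.coeff b ≠ 0 → b ∈ B

/-- the property of the order -/
def BS (Q : ℕ) (N : 𝒱.Obj → ℕ → K) (v : ℕ → K) (T : ℕ → CorrData C) (e : ℤ) (X : 𝒱.Obj)
    (r : ℤ) : Prop :=
  FinR T X r ∧ ∃ W, IsSp (fun n => N X n * v n) W ∧ W.coeff ((Q : K) ^ (X.dim + e - r)) = chi T X r

variable {N : 𝒱.Obj → ℕ → K} {v : ℕ → K}

/-- the virtual set for the products -/
theorem exists_sp (h : Cr H F Q X Z S B) (hz : Zt H F Q X Z B N v) {L : List ι} (hL : L.Nodup) :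
    ∃ W, IsSp (fun n => N (tw X Z L) n * v n) W ∧ ∀ b, W.coeff b ≠ 0 → ∃ γ ρ,
      Sh S {β | (Pool.Agent.W484.CH.frob H (F Z)).HasEigenvalue β} (Q : K) L γ ∧ ρ ∈ B ∧
        b = γ * ρ := by
  classical
  induction L with
  | nil =>
    obtain ⟨W, hW1, hW2⟩ := hz.base
    obtain ⟨V, hV1, hV2⟩ := hz.rel
    refine ⟨W * V, hW1.mul hV1, fun b hb => ?_⟩
    obtain ⟨a, c, ha, hc, rfl⟩ := exists_of_coeff_mul hb
    exact ⟨a, c, ⟨∅, fun _ => 0, a, 0, by simp, by simp, hW2 a ha, by
      rw [Finset.prod_empty, pow_zero, one_mul, one_mul]⟩, hV2 c hc, rfl⟩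
  | cons i L ih =>
    rw [List.nodup_cons] at hL
    obtain ⟨V, hV1, hV2⟩ := ih hL.2
    obtain ⟨W, hW⟩ := hz.count i
    refine ⟨W * V, ?_, fun b hb => ?_⟩
    · have h1 := hW.sp.mul hV1
      intro n hn
      rw [← h1 n hn]
      change N ((X i).prod (tw X Z L)) n * v n = _
      rw [hz.prod, mul_assoc]
    · obtain ⟨a, c, ha, hc, rfl⟩ := exists_of_coeff_mul hb
      obtain ⟨γ, ρ, ⟨I, α', β, e, hI, hα', hβ, rfl⟩, hρ, rfl⟩ := hV2 c hc
      have hiI : i ∉ I := fun hi => hL.1 (hI i hi)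
      rcases eig_cg h.std (h.frob (X i)) (h.cg i) (hW.supp a ha) with hαS | ⟨j, rfl⟩
      · refine ⟨_, ρ, ⟨insert i I, Function.update α' i a, β, e, ?_, ?_, hβ, rfl⟩, hρ, ?_⟩
        · intro i' hi'
          rcases Finset.mem_insert.1 hi' with rfl | hi'
          · exact List.mem_cons_self
          · exact List.mem_cons_of_mem _ (hI i' hi')
        · intro i' hi'
          rcases Finset.mem_insert.1 hi' with rfl | hi'
          · rw [Function.update_self]; exact hαS
          · rw [Function.update_of_ne (ne_of_mem_of_not_mem hi' hiI)]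
            exact hα' i' hi'
        · rw [Finset.prod_insert hiI, Function.update_self]
          rw [Finset.prod_congr rfl fun i' hi' =>
            Function.update_of_ne (ne_of_mem_of_not_mem hi' hiI) a α']
          ring
      · refine ⟨_, ρ, ⟨I, α', β, e + j, fun i' hi' => List.mem_cons_of_mem _ (hI i' hi'), hα',
          hβ, rfl⟩, hρ, ?_⟩
        rw [pow_add]
        ring

/-- **one step for the orders** -/
theorem coeff_step (h : Cr H F Q X Z S B) {i : ι} {L : List ι} (hi : i ∉ L)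
    {J : Type} [Fintype J] {deg : J → ℕ} {D E : J → C.A (X i)}
    (hd : IsDual (X i) (tw X Z L) deg D E)
    (hN' : ∀ n, AK H (X i) n ≤ Submodule.span K
      {c | ∃ j, (X i).dim - deg j = n ∧ c = H.cl (E j)})
    {W V : MonoidAlgebra ℤ K} (hW : IsCount H (F (X i)) Q (N (X i)) W)
    (hV : ∀ b, V.coeff b ≠ 0 → ∃ γ ρ,
      Sh S {β | (Pool.Agent.W484.CH.frob H (F Z)).HasEigenvalue β} (Q : K) L γ ∧ ρ ∈ B ∧
        b = γ * ρ) (m : ℤ) :
    (W * V).coeff ((Q : K) ^ m) = ∑ j, V.coeff ((Q : K) ^ (m - ((X i).dim - deg j : ℕ))) := by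
  classical
  have hQ0 : Q ≠ 0 := by have := h.one_lt; omega
  have hQK : (Q : K) ≠ 0 := by exact_mod_cast hQ0
  have hres1 : ∀ α ∈ S i, ∀ w : ℕ, α ≠ (Q : K) ^ w := fun α hα w hw => by
      refine h.res1 {i} (Finset.singleton_nonempty i) (fun _ => α) ?_ 1 rfl 0 1 w one_pos ?_
      · intro i' hi'
        rw [Finset.mem_singleton.1 hi']
        exact hα
      · rw [Finset.prod_singleton, pow_zero, mul_one, mul_one, hw, pow_one, one_mul]
  obtain ⟨W', hWW', hW'⟩ := count_split h.std (h.frob (X i)) h.one_lt (h.cg i) hres1 hd hN' hW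
  refine coeff_conv hQK hWW' m fun a b ha hb heq => ?_
  obtain ⟨γ, ρ, ⟨I, α', β, e, hI, hα', hβ, rfl⟩, hρ, rfl⟩ := hV b hb
  have hα := hW' a ha
  have hiI : i ∉ I := fun h0 => hi (hI i h0)
  have key : ∀ e' w : ℕ, a * ((∏ i ∈ I, α' i) * (Q : K) ^ e * β * ρ) * (Q : K) ^ e' ≠
      (Q : K) ^ w := by
    intro e' w heq'
    refine h.res (insert i I) (Finset.insert_nonempty i I) (Function.update α' i a) ?_ (β * ρ)
      ⟨β, ρ, hβ, hρ, rfl⟩ (e + e') 1 w one_pos ?_
    · intro i' hi'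
      rcases Finset.mem_insert.1 hi' with rfl | hi'
      · rw [Function.update_self]; exact hα
      · rw [Function.update_of_ne (ne_of_mem_of_not_mem hi' hiI)]
        exact hα' i' hi'
    · rw [Finset.prod_insert hiI, Function.update_self,
        Finset.prod_congr rfl fun i' hi' =>
          Function.update_of_ne (ne_of_mem_of_not_mem hi' hiI) a α', pow_one, one_mul, ← heq',
          pow_add]
      ring
  rcases Int.le_total 0 m with hm | hm
  · obtain ⟨n, rfl⟩ := Int.eq_ofNat_of_zero_le hm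
    refine key 0 n ?_
    rw [pow_zero, mul_one, heq]
    exact zpow_natCast _ _
  · obtain ⟨n, hn⟩ := Int.eq_ofNat_of_zero_le (neg_nonneg.2 hm)
    refine key n 0 ?_
    have h3 : m = -(n : ℤ) := by omega
    rw [heq, h3, pow_zero, zpow_neg, zpow_natCast, inv_mul_cancel₀ (pow_ne_zero _ hQK)]

variable {T : ℕ → CorrData C} {e : ℤ}

/-- the step -/
theorem BS_step (h : Cr H F Q X Z S B) (hz : Zt H F Q X Z B N v) {i : ι} {L : List ι}
    (hi : i ∉ L) (hL : L.Nodup) {J : Type} [Fintype J] {deg : J → ℕ} {D E : J → C.A (X i)}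
    (hd : IsDual (X i) (tw X Z L) deg D E)
    (hN' : ∀ n, AK H (X i) n ≤ Submodule.span K
      {c | ∃ j, (X i).dim - deg j = n ∧ c = H.cl (E j)})
    (hT : ∀ k, IsCorrTheory (T k)) (hK : ∀ k, HasKunneth (T k) (X i) (tw X Z L) deg D) :
    ∃ δ δ' : ℤ → ℤ, (∀ r, BS Q N v T e (tw X Z L) r ↔ FinR T (tw X Z L) r ∧ δ r = 0) ∧
      (∀ r, BS Q N v T e (tw X Z (i :: L)) r ↔ FinR T (tw X Z (i :: L)) r ∧ δ' r = 0) ∧
      (∀ r, (∀ j, FinR T (tw X Z L) (r - deg j)) → δ' r = ∑ j, δ (r - deg j)) ∧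
      ∃ r0, ∀ r < r0, chi T (tw X Z L) r = 0 → δ r = 0 := by
  classical
  have hQ1 := h.one_lt
  have hQ0 : Q ≠ 0 := by omega
  have hQK : (Q : K) ≠ 0 := by exact_mod_cast hQ0
  obtain ⟨V, hV1, hV2⟩ := exists_sp h hz hL
  obtain ⟨W, hW⟩ := hz.count i
  have hWV : IsSp (fun n => N (tw X Z (i :: L)) n * v n) (W * V) := by
    have h1 := hW.sp.mul hV1
    intro n hn
    rw [← h1 n hn]
    change N ((X i).prod (tw X Z L)) n * v n = _
    rw [hz.prod, mul_assoc]
  have hcrit : ∀ (Y : 𝒱.Obj) (U : MonoidAlgebra ℤ K), IsSp (fun n => N Y n * v n) U → ∀ r,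
      (BS Q N v T e Y r ↔ FinR T Y r ∧
        chi T Y r - U.coeff ((Q : K) ^ (Y.dim + e - r)) = 0) := by
    intro Y U hU r
    constructor
    · rintro ⟨h1, U', hU', h2⟩
      refine ⟨h1, ?_⟩
      rw [← h2, hU'.unique hU (zpow_ne_zero _ hQK), sub_self]
    · rintro ⟨h1, h2⟩
      exact ⟨h1, U, hU, (sub_eq_zero.1 h2).symm⟩
  refine ⟨fun r => chi T (tw X Z L) r - V.coeff ((Q : K) ^ ((tw X Z L).dim + e - r)),
    fun r => chi T (tw X Z (i :: L)) r -
      (W * V).coeff ((Q : K) ^ ((tw X Z (i :: L)).dim + e - r)),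
    hcrit _ V hV1, hcrit _ (W * V) hWV, fun r hf => ?_, ?_⟩
  · beta_reduce
    rw [Finset.sum_sub_distrib, coeff_step h hi hd hN' hW hV2]
    congr 1
    · exact chi_deg hT hd hK r hf
    · refine Finset.sum_congr rfl fun j _ => ?_
      congr 2
      change (((X i).prod (tw X Z L)).dim : ℤ) + e - r - _ = _
      have h1 := hd.le j
      rw [Obj.dim_prod]
      push_cast [h1]
      ring
  · -- the support is bounded
    have hinj : Function.Injective fun m : ℤ => (Q : K) ^ m := by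
      intro a b hab
      beta_reduce at hab
      have h1 : ((Q : ℚ) ^ a : ℚ) = (Q : ℚ) ^ b := by
        have h2 : (((Q : ℚ) ^ a : ℚ) : K) = (((Q : ℚ) ^ b : ℚ) : K) := by
          push_cast
          exact hab
        exact_mod_cast h2
      exact zpow_right_injective₀ (by positivity) (by
        have : (1 : ℚ) < Q := by exact_mod_cast hQ1
        exact this.ne') h1
    obtain ⟨M, hM⟩ := (V.coeff.support.preimage (fun m : ℤ => (Q : K) ^ m)
      hinj.injOn).bddAbove
    refine ⟨(tw X Z L).dim + e - M, fun r hr h0 => ?_⟩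
    beta_reduce
    rw [h0, zero_sub, neg_eq_zero]
    by_contra hne
    have h1 : (tw X Z L).dim + e - r ∈ (V.coeff.support.preimage (fun m : ℤ => (Q : K) ^ m)
        hinj.injOn) := by
      rw [Finset.mem_preimage, Finsupp.mem_support_iff]
      exact hne
    have h2 := hM h1
    omega

omit [CharZero K] in
theorem Cr.kun [CharZero K] (h : Cr H F Q X Z S B) {i : ι} {L : List ι} (hi : i ∉ L)
    (hL : L.Nodup) {J : Type} [Fintype J] {deg : J → ℕ} {D E : J → C.A (X i)}
    (hdual : IsDual (X i) (tw X Z L) deg D E)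
    (hN : ∀ n, AK H (X i) n ≤ Submodule.span K {c | ∃ j, deg j = n ∧ c = H.cl (D j)})
    (T : CorrData C) (φ : ∀ X : 𝒱.Obj, Module.End ℚ (T.M X)) (χ : ℚ[X]) (hχ0 : χ.coeff 0 ≠ 0)
    (hχB : ∀ ρ : K, aeval ρ χ = 0 → ρ ∈ B) (hT : RelTheory T φ F Q χ)
    (hnil : NilT H T ((X i).prod (tw X Z L))) : HasKunneth T (X i) (tw X Z L) deg D := by
  classical
  have hres : ∀ α ∈ S i, ∀ β, (Pool.Agent.W484.CH.frob H (F (tw X Z L))).HasEigenvalue β →
      ∀ ρ ∈ B, ∀ e w : ℕ, α * (β * ρ) * (Q : K) ^ e ≠ (Q : K) ^ w :=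
    (fun α hα γ hγ ρ hρ e' w heq => by
      obtain ⟨I, α', β, e, hI, hα', hβ, rfl⟩ := h.eig_tw L hL γ hγ
      have hiI : i ∉ I := fun h0 => hi (hI i h0)
      refine h.res (insert i I) (Finset.insert_nonempty i I) (Function.update α' i α) ?_ (β * ρ)
        ⟨β, ρ, hβ, hρ, rfl⟩ (e + e') 1 w one_pos ?_
      · intro i' hi'
        rcases Finset.mem_insert.1 hi' with rfl | hi'
        · rw [Function.update_self]; exact hα
        · rw [Function.update_of_ne (ne_of_mem_of_not_mem hi' hiI)]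
          exact hα' i' hi'
      · rw [Finset.prod_insert hiI, Function.update_self,
          Finset.prod_congr rfl fun i' hi' =>
            Function.update_of_ne (ne_of_mem_of_not_mem hi' hiI) α α', pow_one, one_mul, ← heq,
            pow_add]
        ring)
  exact rel_kun h.std (h.frob _) (h.frob _) (h.prod _ _) h.one_lt (h.cg i) (h.int i) (h.ne i)
      (h.int_tw hL) B hres hdual hN T φ χ hχ0 hχB hT hnil

/-- the system of hypotheses -/
structure Zs (H : WeilTheoryData.{u, 0, 0} C K) (F : ∀ X : 𝒱.Obj, X ⟶ X) (Q : ℕ) (X : ι → 𝒱.Obj)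
    (Z : 𝒱.Obj) (S : ι → Set K) (B : Set K) (N : 𝒱.Obj → ℕ → K) (v : ℕ → K)
    (T : ℕ → CorrData C) : Prop where
  cr : Cr H F Q X Z S B
  zt : Zt H F Q X Z B N v
  big : ∀ i, Big H (X i)
  corr : ∀ k, IsCorrTheory (T k)
  kun : ∀ (i : ι) (L : List ι), i ∉ L → L.Nodup → ∀ (J : Type) [Fintype J] (deg : J → ℕ)
    (D E : J → C.A (X i)), IsDual (X i) (tw X Z L) deg D E →
    (∀ n, AK H (X i) n ≤ Submodule.span K {c | ∃ j, deg j = n ∧ c = H.cl (D j)}) →
    ∀ k, HasKunneth (T k) (X i) (tw X Z L) deg D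
  neg : ∀ k X r, r < 0 → (T k).gr X r = ⊥

theorem Zs.up (h : Zs H F Q X Z S B N v T) {L : List ι} (hL : L.Nodup) (r : ℤ)
    (hb : ∀ l : ℤ, r - dims X L ≤ l → l ≤ r → BS Q N v T e Z l) : BS Q N v T e (tw X Z L) r := by
  induction L generalizing r with
  | nil => exact hb r (by simp [dims]) le_rfl
  | cons i L ih =>
    rw [List.nodup_cons] at hL
    obtain ⟨J, hJ, deg, D, E, h1, h2, h2', h3⟩ := h.cr.step2 hL.1 hL.2
    have hK := h.kun i L hL.1 hL.2 J deg D E h1 h2
    obtain ⟨δ, δ', a1, a2, a3, -⟩ := BS_step (e := e) h.cr h.zt hL.1 hL.2 h1 h2' h.corr hK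
    have h4 : ∀ j, BS Q N v T e (tw X Z L) (r - deg j) := fun j => ih hL.2 _ fun l hl1 hl2 => by
      have h5 := h1.le j
      refine hb l ?_ (by omega)
      change r - ((X i).dim + dims X L : ℕ) ≤ l
      push_cast
      omega
    have h5 : ∀ j, FinR T (tw X Z L) (r - deg j) := fun j => ((a1 _).1 (h4 j)).1
    refine (a2 r).2 ⟨(finR_deg h.corr h1 hK r).2 h5, ?_⟩
    rw [a3 r h5]
    exact Finset.sum_eq_zero fun j _ => ((a1 _).1 (h4 j)).2

theorem Zs.below (h : Zs H F Q X Z S B N v T) {L : List ι} (hL : L.Nodup) (R : ℤ) :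
    (∀ r ≤ R, BS Q N v T e (tw X Z L) r) ↔ ∀ r ≤ R, BS Q N v T e Z r := by
  classical
  induction L with
  | nil => exact Iff.rfl
  | cons i L ih =>
    rw [List.nodup_cons] at hL
    rw [← ih hL.2]
    obtain ⟨J, hJ, deg, D, E, h1, h2, h2', h3⟩ := h.cr.step2 hL.1 hL.2
    have hK := h.kun i L hL.1 hL.2 J deg D E h1 h2
    obtain ⟨δ, δ', a1, a2, a3, r0, a4⟩ := BS_step (e := e) h.cr h.zt hL.1 hL.2 h1 h2' h.corr hK
    constructor
    · intro hb
      have hneg : ∀ r < min 0 r0, BS Q N v T e (tw X Z L) r := by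
        intro r hr
        have h4 : ∀ k, (T k).gr (tw X Z L) r = ⊥ := fun k =>
          h.neg k _ r (lt_of_lt_of_le hr (min_le_left _ _))
        refine (a1 r).2 ⟨⟨fun k => ?_, 0, fun k _ => h4 k⟩,
          a4 r (lt_of_lt_of_le hr (min_le_right _ _)) ?_⟩
        · rw [h4 k]
          infer_instance
        · rw [chi_eq (k0 := 0) fun k _ => h4 k, Finset.range_zero, Finset.sum_empty]
      have main : ∀ (n : ℕ) (r : ℤ), r ≤ R → r < min 0 r0 + n → BS Q N v T e (tw X Z L) r := by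
        intro n
        induction n with
        | zero => intro r _ hr; exact hneg r (by simpa using hr)
        | succ n ihn =>
          intro r hr hr2
          have hlow : ∀ r' < r, BS Q N v T e (tw X Z L) r' := fun r' hr' =>
            ihn r' (by omega) (by push_cast at hr2; omega)
          obtain ⟨hfin, hδ'⟩ := (a2 r).1 (hb r hr)
          have hfin' := (finR_deg h.corr h1 hK r).1 hfin
          obtain ⟨j0, hj0⟩ := exists_deg_big (h.big i) h2 (Nat.zero_le _)
          have hfr : FinR T (tw X Z L) r := by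
            have h5 := hfin' j0
            rwa [hj0, Nat.cast_zero, sub_zero] at h5
          refine (a1 r).2 ⟨hfr, ?_⟩
          rw [a3 r hfin'] at hδ'
          have h6 : ∀ j, δ (r - deg j) = if deg j = 0 then δ r else 0 := by
            intro j
            by_cases hj : deg j = 0
            · rw [if_pos hj, hj, Nat.cast_zero, sub_zero]
            · rw [if_neg hj]
              exact ((a1 _).1 (hlow (r - deg j) (by omega))).2
          rw [Finset.sum_congr rfl fun j _ => h6 j, ← Finset.sum_filter, Finset.sum_const,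
            nsmul_eq_mul] at hδ'
          refine (mul_eq_zero.1 hδ').resolve_left ?_
          have h7 : 0 < (Finset.univ.filter fun j => deg j = 0).card :=
            Finset.card_pos.2 ⟨j0, Finset.mem_filter.2 ⟨Finset.mem_univ _, hj0⟩⟩
          exact_mod_cast h7.ne'
      intro r hr
      exact main ((r - min 0 r0).toNat + 1) r hr (by push_cast; omega)
    · intro hb r hr
      have h4 : ∀ j, BS Q N v T e (tw X Z L) (r - deg j) := fun j => hb _ (by omega)
      have h5 : ∀ j, FinR T (tw X Z L) (r - deg j) := fun j => ((a1 _).1 (h4 j)).1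
      refine (a2 r).2 ⟨(finR_deg h.corr h1 hK r).2 h5, ?_⟩
      rw [a3 r h5]
      exact Finset.sum_eq_zero fun j _ => ((a1 _).1 (h4 j)).2

theorem Zs.ranks (h : Zs H F Q X Z S B N v T) {L : List ι} (hL : L.Nodup) (r : ℤ) :
    FinR T (tw X Z L) r ↔ ∀ l : ℤ, r - dims X L ≤ l → l ≤ r → FinR T Z l := by
  refine dims_induct (fun V n => FinR T V n) (fun i L hi hL => ?_) hL r
  obtain ⟨J, hJ, deg, D, E, h1, h2, h2', h3⟩ := h.cr.step2 hi hL
  have hK := h.kun i L hi hL J deg D E h1 h2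
  exact ⟨J, deg, h1.le, fun l hl => exists_deg_big (h.big i) h2 hl,
    fun n => finR_deg h.corr h1 hK n⟩

end bs

end Pool.Agent.N876.CG
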